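import Mathlib

/-!
# The choice of the parameters
-/

namespace DK

/-- the basic inequalities -/
structure Bas (L u : ℝ) : Prop where
  hu : u = Real.log L
  hL : 400 ≤ L
  u2 : 2 ≤ u
  us : u ≤ √L
  s20 : 20 ≤ √L
  sq : √L * √L = L
  w1 : 1 ≤ √L * u
  wu : u ≤ √L * u
  ws : √L ≤ √L * u
  Lu : L / u ≤ L / 2
  Lu0 : 0 ≤ L / u
  Lu1 : √L ≤ L / u

theorem bas {L u : ℝ} (hu : u = Real.log L) (hL : 400 ≤ L) : Bas L u := by
  have hL0 : 0 < L := by linarith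
  have hu1 : 2 ≤ u := by
    rw [hu, Real.le_log_iff_exp_le hL0]
    have h1 : Real.exp 2 = Real.exp 1 * Real.exp 1 := by rw [← Real.exp_add]; norm_num
    have h2 := Real.exp_one_lt_d9
    have h3 := Real.exp_pos 1
    rw [h1]
    nlinarith
  have hu0 : 0 < u := by linarith
  have hsq : √L * √L = L := Real.mul_self_sqrt hL0.le
  have hsq1 : 20 ≤ √L := by
    rw [show (20 : ℝ) = √400 by
      rw [show (400 : ℝ) = 20 ^ 2 by norm_num]
      exact (Real.sqrt_sq (by norm_num)).symm]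
    exact Real.sqrt_le_sqrt hL
  have hulL : u ≤ √L := by
    have h1 : u = 2 * Real.log (√L) := by
      rw [hu, Real.log_sqrt hL0.le]; ring
    have h2 : Real.log (√L / 2) ≤ √L / 2 - 1 := Real.log_le_sub_one_of_pos (by positivity)
    rw [Real.log_div (by positivity) (by norm_num)] at h2
    have := Real.log_two_lt_d9
    rw [h1]
    linarith
  refine ⟨hu, hL, hu1, hulL, hsq1, hsq, by nlinarith, by nlinarith, by nlinarith,
    div_le_div_of_nonneg_left hL0.le (by norm_num) hu1, by positivity, ?_⟩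
  rw [le_div_iff₀ hu0]
  nlinarith

section
variable {L u : ℝ}

theorem par_s (b : Bas L u) : ∃ s : ℕ, (s : ℝ) ≤ √L ∧ 1 ≤ s ∧ u / 2 ≤ Real.log (s + 1) := by
  have hL0 : 0 < L := by linarith [b.hL]
  have h1 : ((⌊√L⌋₊ : ℕ) : ℝ) ≤ √L := Nat.floor_le (Real.sqrt_nonneg _)
  have h2 : √L < ⌊√L⌋₊ + 1 := Nat.lt_floor_add_one _
  refine ⟨⌊√L⌋₊, h1, ?_, ?_⟩
  · have := b.s20
    exact_mod_cast (by linarith : (1 : ℝ) ≤ ⌊√L⌋₊)
  · have h3 := Real.log_le_log (by linarith [b.s20]) h2.le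
    rw [Real.log_sqrt hL0.le, ← b.hu] at h3
    exact h3

theorem par_E (b : Bas L u) : ∃ E : ℕ, 2 * L ≤ E ∧ Real.log (E + 1) ≤ 2 * u := by
  have hL := b.hL
  have hE1 : 2 * L ≤ ⌈2 * L⌉₊ := Nat.le_ceil _
  have hE2 : (⌈2 * L⌉₊ : ℝ) < 2 * L + 1 := Nat.ceil_lt_add_one (by linarith)
  refine ⟨⌈2 * L⌉₊, hE1, ?_⟩
  have h1 : (⌈2 * L⌉₊ : ℝ) + 1 ≤ L ^ 2 := by nlinarith
  have h2 := Real.log_le_log (by linarith) h1
  rw [Real.log_pow] at h2
  rw [b.hu]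
  exact_mod_cast h2

theorem par_y (b : Bas L u) : ∃ y : ℕ, (y : ℝ) ≤ 2 * (L / u) + 1 ∧ 10 ≤ y ∧
    L ≤ y * Real.log y := by
  have hL0 : 0 < L := by linarith [b.hL]
  have hu0 : 0 < u := by linarith [b.u2]
  have hLu0 := b.Lu0
  have hLu1 := b.Lu1
  have hs := b.s20
  have hy1 : 2 * (L / u) ≤ ⌈2 * (L / u)⌉₊ := Nat.le_ceil _
  have hy2 : (⌈2 * (L / u)⌉₊ : ℝ) < 2 * (L / u) + 1 := Nat.ceil_lt_add_one (by linarith)
  refine ⟨⌈2 * (L / u)⌉₊, hy2.le, ?_, ?_⟩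
  · exact_mod_cast (by linarith : (10 : ℝ) ≤ ⌈2 * (L / u)⌉₊)
  · have h1 : √L ≤ ⌈2 * (L / u)⌉₊ := by linarith
    have h2 := Real.log_le_log (by linarith) h1
    rw [Real.log_sqrt hL0.le, ← b.hu] at h2
    have h3 : 2 * (L / u) * (u / 2) ≤ ⌈2 * (L / u)⌉₊ * Real.log ⌈2 * (L / u)⌉₊ :=
      mul_le_mul hy1 h2 (by linarith) (by linarith)
    have h4 : 2 * (L / u) * (u / 2) = L := by field_simp
    linarith

theorem par_Q (b : Bas L u) (m : ℕ) (hm : 6 ≤ m) : ∃ Q : ℕ, 10 ≤ Q ∧ L ≤ Q * Real.log Q ∧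
    400 * L ^ 4 ≤ Q ∧ m * u ≤ Real.log Q ∧ Real.log Q ≤ m * (u + 1) := by
  have hL := b.hL
  have hL0 : 0 < L := by linarith
  have hu2 := b.u2
  have hm0 : (6 : ℝ) ≤ m := by exact_mod_cast hm
  obtain ⟨q, hq⟩ : ∃ q, q = ⌈L⌉₊ := ⟨_, rfl⟩
  have hq1 : L ≤ q := by rw [hq]; exact Nat.le_ceil _
  have hq2 : (q : ℝ) < L + 1 := by rw [hq]; exact Nat.ceil_lt_add_one (by positivity)
  have hlogq1 : u ≤ Real.log q := by rw [b.hu]; exact Real.log_le_log hL0 hq1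
  have hlogq2 : Real.log q ≤ u + 1 := by
    have h1 : (q : ℝ) ≤ Real.exp 1 * L := by
      have := Real.add_one_le_exp 1
      nlinarith
    have h2 := Real.log_le_log (by linarith) h1
    rw [Real.log_mul (Real.exp_pos 1).ne' hL0.ne', Real.log_exp, ← b.hu] at h2
    linarith
  have hlogQ : Real.log ((q ^ m : ℕ) : ℝ) = m * Real.log q := by rw [Nat.cast_pow, Real.log_pow]
  have hlogQ1 : m * u ≤ Real.log ((q ^ m : ℕ) : ℝ) := by
    rw [hlogQ]; exact mul_le_mul_of_nonneg_left hlogq1 (by linarith)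
  have hlogQ2 : Real.log ((q ^ m : ℕ) : ℝ) ≤ m * (u + 1) := by
    rw [hlogQ]; exact mul_le_mul_of_nonneg_left hlogq2 (by linarith)
  have hQ5 : L ^ 5 ≤ ((q ^ m : ℕ) : ℝ) := by
    rw [Nat.cast_pow]
    calc L ^ 5 ≤ (q : ℝ) ^ 5 := pow_le_pow_left₀ hL0.le hq1 5
      _ ≤ (q : ℝ) ^ m := pow_le_pow_right₀ (by linarith) (by omega)
  have hL5 : 400 * L ^ 4 ≤ L ^ 5 := by
    have : 0 < L ^ 4 := by positivity
    nlinarith
  have hL4 : L ≤ L ^ 4 := by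
    calc L = L ^ 1 := (pow_one L).symm
      _ ≤ L ^ 4 := pow_le_pow_right₀ (by linarith) (by norm_num)
  have hQL4 : 400 * L ^ 4 ≤ ((q ^ m : ℕ) : ℝ) := hL5.trans hQ5
  have hQL : L ≤ ((q ^ m : ℕ) : ℝ) := by linarith
  refine ⟨q ^ m, ?_, ?_, hQL4, hlogQ1, hlogQ2⟩
  · exact_mod_cast (by linarith : (10 : ℝ) ≤ ((q ^ m : ℕ) : ℝ))
  · have h1 : 1 ≤ Real.log ((q ^ m : ℕ) : ℝ) := le_trans (by nlinarith) hlogQ1
    exact le_trans hQL (le_mul_of_one_le_right (by linarith) h1)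

theorem par_B {R : ℝ} (hR0 : 0 ≤ R) : ∃ B : ℕ, 1 ≤ B ∧ R ≤ Real.log B ∧
    Real.log (B + 1) ≤ R + 2 := by
  have hB1 : Real.exp R ≤ ⌈Real.exp R⌉₊ := Nat.le_ceil _
  have hB2 : (⌈Real.exp R⌉₊ : ℝ) < Real.exp R + 1 := Nat.ceil_lt_add_one (Real.exp_pos _).le
  have hexpR : 1 ≤ Real.exp R := Real.one_le_exp hR0
  refine ⟨⌈Real.exp R⌉₊, ?_, ?_, ?_⟩
  · exact_mod_cast (by linarith : (1 : ℝ) ≤ ⌈Real.exp R⌉₊)
  · rw [Real.le_log_iff_exp_le (by linarith)]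
    exact hB1
  · rw [Real.log_le_iff_le_exp (by positivity), Real.exp_add]
    have h1 : (3 : ℝ) ≤ Real.exp 2 := by
      have := Real.add_one_le_exp 2
      linarith
    nlinarith

theorem par_N1 (b : Bas L u) {v : ℝ} (hv : u / 2 ≤ v) : ∃ N1 : ℕ, (N1 : ℝ) ≤ 2 * (L / u) ∧
    L < (N1 + 1) * v ∧ Real.log (N1 + 1) ≤ 2 * u := by
  have hL := b.hL
  have hu0 : 0 < u := by linarith [b.u2]
  have hLu0 := b.Lu0
  have hLu := b.Lu
  have hN11 : (⌊2 * (L / u)⌋₊ : ℝ) ≤ 2 * (L / u) := Nat.floor_le (by linarith)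
  have hN12 : 2 * (L / u) < ⌊2 * (L / u)⌋₊ + 1 := Nat.lt_floor_add_one _
  refine ⟨⌊2 * (L / u)⌋₊, hN11, ?_, ?_⟩
  · have h1 : 2 * (L / u) * (u / 2) < (⌊2 * (L / u)⌋₊ + 1) * v :=
      mul_lt_mul hN12 hv (by linarith) (by linarith)
    have h2 : 2 * (L / u) * (u / 2) = L := by field_simp
    linarith
  · have h1 : (⌊2 * (L / u)⌋₊ : ℝ) + 1 ≤ L ^ 2 := by nlinarith
    have h2 := Real.log_le_log (by positivity) h1
    rw [Real.log_pow, ← b.hu] at h2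
    exact_mod_cast h2

theorem par_N2 (b : Bas L u) (m : ℕ) (hm : 6 ≤ m) {v : ℝ} (hv : m * u ≤ v) : ∃ N2 : ℕ,
    (N2 : ℝ) ≤ L / u ∧ (N2 : ℝ) * u ≤ L / m ∧ L < (N2 + 1) * v ∧ Real.log (N2 + 1) ≤ u := by
  have hL := b.hL
  have hL0 : 0 < L := by linarith
  have hu0 : 0 < u := by linarith [b.u2]
  have hLu0 := b.Lu0
  have hLu := b.Lu
  have hm0 : (6 : ℝ) ≤ m := by exact_mod_cast hm
  have hm1 : (0 : ℝ) < m := by linarith
  have hN21 : (⌊L / (m * u)⌋₊ : ℝ) ≤ L / (m * u) := Nat.floor_le (by positivity)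
  have hN22 : L / (m * u) < ⌊L / (m * u)⌋₊ + 1 := Nat.lt_floor_add_one _
  have hmu : L / (m * u) ≤ L / u := by
    refine div_le_div_of_nonneg_left hL0.le hu0 ?_
    nlinarith
  refine ⟨⌊L / (m * u)⌋₊, hN21.trans hmu, ?_, ?_, ?_⟩
  · have h1 := mul_le_mul_of_nonneg_right hN21 hu0.le
    have h2 : L / (m * u) * u = L / m := by field_simp
    linarith
  · have h1 : L / (m * u) * (m * u) < (⌊L / (m * u)⌋₊ + 1) * v :=
      mul_lt_mul hN22 hv (by positivity) (by positivity)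
    rwa [div_mul_cancel₀ _ (by positivity)] at h1
  · rw [b.hu]
    exact Real.log_le_log (by positivity) (by rw [← b.hu]; linarith)

theorem par_W (b : Bas L u) (m s : ℕ) (hm : 6 ≤ m) {c cq lQ ls : ℝ} (hc0 : 0 ≤ c)
    (hcq0 : 0 ≤ cq) (hcq : cq ≤ c * (u + 1)) (hlQ : m * u ≤ lQ) (hls : u / 2 ≤ ls)
    (hs : (s : ℝ) ≤ √L) :
    0 ≤ 2 * s + (2 * (L / m + L / m) + 3 * cq) / ls + 2 * (L / lQ) ∧
    (2 * s + (2 * (L / m + L / m) + 3 * cq) / ls + 2 * (L / lQ)) * u ≤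
      2 * (√L * u) + 2 * (4 * (L / m) + 3 * (c * (u + 1))) + 2 * (L / m) := by
  have hL := b.hL
  have hL0 : 0 < L := by linarith
  have hu0 : 0 < u := by linarith [b.u2]
  have hm0 : (6 : ℝ) ≤ m := by exact_mod_cast hm
  have hm1 : (0 : ℝ) < m := by linarith
  have hls0 : 0 < ls := by linarith
  have hmu0 : 0 < m * u := by positivity
  have hlQ0 : 0 < lQ := by linarith
  constructor
  · positivity
  · have h1 : (2 * (L / m + L / m) + 3 * cq) / ls * u ≤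
        2 * (4 * (L / m) + 3 * (c * (u + 1))) := by
      rw [div_mul_eq_mul_div, div_le_iff₀ hls0]
      have h2 : 0 ≤ 4 * (L / m) + 3 * (c * (u + 1)) := by positivity
      have h3 : (2 * (L / m + L / m) + 3 * cq) * u ≤
          (4 * (L / m) + 3 * (c * (u + 1))) * u := mul_le_mul_of_nonneg_right (by linarith) hu0.le
      have h4 : (4 * (L / m) + 3 * (c * (u + 1))) * u ≤
          2 * (4 * (L / m) + 3 * (c * (u + 1))) * ls := by
        have := mul_le_mul_of_nonneg_left hls h2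
        linarith
      linarith
    have h5 : L / lQ * u ≤ L / m := by
      rw [div_mul_eq_mul_div, div_le_div_iff₀ hlQ0 hm1]
      have := mul_le_mul_of_nonneg_left hlQ hL0.le
      linarith
    have h6 : (s : ℝ) * u ≤ √L * u := mul_le_mul_of_nonneg_right hs hu0.le
    have h7 : (2 * s + (2 * (L / m + L / m) + 3 * cq) / ls + 2 * (L / lQ)) * u =
        2 * (s * u) + (2 * (L / m + L / m) + 3 * cq) / ls * u + 2 * (L / lQ * u) := by ring
    rw [h7]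
    linarith

end

end DK
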