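import Pool.Agent.DK.Rel
import Pool.Agent.DK.Par

/-!
# The final count
-/

namespace DK
open Finset

private theorem log_prod_eq (m E s y B N1 N2 Om : ℕ) (hm : 1 ≤ m) :
    Real.log ((m * ((E + 1) ^ (s + 1) * (2 ^ (y + 1) * ((B + 1) * (((N1 + 1) * 2 ^ N1) *
      (((N2 + 1) * 2 ^ N2) * (((N2 + 1) * (N2 + 1)) ^ (N2 + 1) * (N2 + 1) ^ Om)))))) : ℕ) : ℝ) =
    Real.log m + ((s + 1) * Real.log (E + 1) + ((y + 1) * Real.log 2 + (Real.log (B + 1) +
      ((Real.log (N1 + 1) + N1 * Real.log 2) + ((Real.log (N2 + 1) + N2 * Real.log 2) +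
        ((N2 + 1) * (Real.log (N2 + 1) + Real.log (N2 + 1)) + Om * Real.log (N2 + 1))))))) := by
  have hm0 : (0 : ℝ) < m := by exact_mod_cast hm
  push_cast
  rw [Real.log_mul (by positivity) (by positivity), Real.log_mul (by positivity) (by positivity),
    Real.log_mul (by positivity) (by positivity), Real.log_mul (by positivity) (by positivity),
    Real.log_mul (by positivity) (by positivity), Real.log_mul (by positivity) (by positivity),
    Real.log_mul (by positivity) (by positivity), Real.log_mul (by positivity) (by positivity),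
    Real.log_mul (by positivity) (by positivity), Real.log_pow, Real.log_pow, Real.log_pow,
    Real.log_pow, Real.log_pow, Real.log_pow, Real.log_mul (by positivity) (by positivity)]
  push_cast
  ring

private theorem card_le_code {Q J s E y B N1 N2 Om A x : ℕ} {L : ℝ} (hLx : L = Real.log x)
    (hL1 : 1 ≤ L) (hA : 1 ≤ A) (hJ : 1 ≤ J) (hQ : 10 ≤ Q) (hQL : L ≤ Q * Real.log Q)
    (hQL4 : 400 * L ^ 4 ≤ Q) (hy : 10 ≤ y)
    (hyL : L ≤ y * Real.log y) (hs : 1 ≤ s) (hE : L ≤ E * Real.log 2)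
    (hB : 3 * (L / A) + 2 * (L / J) + 6 * (A ^ J * Real.log Q) ≤ Real.log B) (hB1 : 1 ≤ B)
    (hN1 : L < (N1 + 1) * Real.log (s + 1)) (hN2 : L < (N2 + 1) * Real.log Q)
    (hOm : 2 * s + (2 * (L / A + L / J) + 3 * (A ^ J * Real.log Q)) / Real.log (s + 1) +
        2 * (L / Real.log Q) ≤ Om) (S : Finset ℕ) (hS : ∀ n ∈ S, Sol n ∧ n ≤ x) :
    S.card ≤ Fintype.card (Code J s E y B N1 N2 Om) := by
  classical
  have hlog : ∀ n ∈ S, Real.log n ≤ L := by
    intro n hn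
    rw [hLx]
    exact Real.log_le_log (by exact_mod_cast (by have := (hS n hn).1.1; omega : 0 < n))
      (by exact_mod_cast (hS n hn).2)
  have hex : ∀ n : S, ∃ c : Code J s E y B N1 N2 Om, Rel Q n.1 c := fun n =>
    rel_exists (A := A) (hS n.1 n.2).1 (hlog n.1 n.2) hA hJ hQ hy hyL hs hE hB hB1 hN1 hN2 hOm
  choose f hf using hex
  rw [← Fintype.card_coe S]
  refine Fintype.card_le_of_injective f ?_
  intro n n' hnn
  have h3 := hf n
  have h4 := hf n'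
  rw [hnn] at h3
  exact Subtype.ext (rel_unique (hS n.1 n.2).1 (hS n'.1 n'.2).1 h3 h4 (hlog n.1 n.2)
    (hlog n'.1 n'.2) hL1 hQ hQL hQL4)

private theorem final_le {m s E y B N1 N2 Om : ℕ} {L u c W R cq : ℝ} (b : Bas L u) (hm : 6 ≤ m)
    (hc0 : 0 ≤ c) (hcq : cq ≤ c * (u + 1)) (hs : (s : ℝ) ≤ √L)
    (hE : Real.log (E + 1) ≤ 2 * u) (hy : (y : ℝ) ≤ 2 * (L / u) + 1)
    (hR : R = 3 * (L / m) + 2 * (L / m) + 6 * cq)
    (hB : Real.log (B + 1) ≤ R + 2) (hN1 : (N1 : ℝ) ≤ 2 * (L / u))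
    (hN1' : Real.log (N1 + 1) ≤ 2 * u) (hN2 : (N2 : ℝ) ≤ L / u) (hN2' : (N2 : ℝ) * u ≤ L / m)
    (hN2'' : Real.log (N2 + 1) ≤ u) (hW0 : 0 ≤ W) (hOm : (Om : ℝ) ≤ W + 1)
    (hW : W * u ≤ 2 * (√L * u) + 2 * (4 * (L / m) + 3 * (c * (u + 1))) + 2 * (L / m)) :
    Real.log m + ((s + 1) * Real.log (E + 1) + ((y + 1) * Real.log 2 + (Real.log (B + 1) +
      ((Real.log (N1 + 1) + N1 * Real.log 2) + ((Real.log (N2 + 1) + N2 * Real.log 2) +
        ((N2 + 1) * (Real.log (N2 + 1) + Real.log (N2 + 1)) + Om * Real.log (N2 + 1))))))) ≤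
    17 * L / m + 5 * (L / u) + (m + 24 * c + 15) * (√L * u) := by
  have hm0 : (6 : ℝ) ≤ m := by exact_mod_cast hm
  have hm1 : (0 : ℝ) < m := by linarith
  have hlog2' := Real.log_two_lt_d9
  have hlog2 := Real.log_two_gt_d9
  have hw1 := b.w1
  have hwu := b.wu
  have hws := b.ws
  have hu2 := b.u2
  have hu0 : 0 < u := by linarith
  have hLu0 := b.Lu0
  have hN20 : (0 : ℝ) ≤ N2 := Nat.cast_nonneg _
  have hN10 : (0 : ℝ) ≤ N1 := Nat.cast_nonneg _
  have hcw : c * (u + 1) ≤ c * (2 * (√L * u)) := mul_le_mul_of_nonneg_left (by linarith) hc0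
  have t1 : Real.log m ≤ m * (√L * u) := by
    have h1 := Real.log_le_sub_one_of_pos hm1
    have h2 : (m : ℝ) * 1 ≤ m * (√L * u) := mul_le_mul_of_nonneg_left hw1 hm1.le
    linarith
  have t2 : ((s : ℝ) + 1) * Real.log (E + 1) ≤ 4 * (√L * u) := by
    have hE0 : 0 ≤ Real.log ((E : ℝ) + 1) :=
      Real.log_nonneg (by linarith [Nat.cast_nonneg (α := ℝ) E])
    have h1 : ((s : ℝ) + 1) * Real.log (E + 1) ≤ (√L + 1) * (2 * u) :=
      mul_le_mul (by linarith) hE hE0 (by linarith [b.s20])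
    linarith
  have t3 : ((y : ℝ) + 1) * Real.log 2 ≤ 2 * (L / u) + 2 * (√L * u) := by
    have h1 : ((y : ℝ) + 1) * Real.log 2 ≤ ((y : ℝ) + 1) * 1 :=
      mul_le_mul_of_nonneg_left (by linarith) (by linarith [Nat.cast_nonneg (α := ℝ) y])
    linarith
  have t4 : Real.log ((B : ℝ) + 1) ≤ 5 * (L / m) + 12 * (c * (√L * u)) + 2 * (√L * u) := by
    have h1 : c * (2 * (√L * u)) = 2 * (c * (√L * u)) := by ring
    rw [hR] at hB
    linarith
  have t5 : (N1 : ℝ) * Real.log 2 ≤ 2 * (L / u) := by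
    have h1 : (N1 : ℝ) * Real.log 2 ≤ N1 * 1 := mul_le_mul_of_nonneg_left (by linarith) hN10
    linarith
  have t6 : (N2 : ℝ) * Real.log 2 ≤ L / u := by
    have h1 : (N2 : ℝ) * Real.log 2 ≤ N2 * 1 := mul_le_mul_of_nonneg_left (by linarith) hN20
    linarith
  have hlogN20 : 0 ≤ Real.log ((N2 : ℝ) + 1) := Real.log_nonneg (by linarith)
  have t7 : ((N2 : ℝ) + 1) * (Real.log (N2 + 1) + Real.log (N2 + 1)) ≤
      2 * (L / m) + 2 * (√L * u) := by
    have h1 : ((N2 : ℝ) + 1) * (Real.log (N2 + 1) + Real.log (N2 + 1)) ≤ (N2 + 1) * (2 * u) :=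
      mul_le_mul_of_nonneg_left (by linarith) (by linarith)
    have h2 : ((N2 : ℝ) + 1) * (2 * u) = 2 * (N2 * u) + 2 * u := by ring
    linarith
  have t8 : (Om : ℝ) * Real.log (N2 + 1) ≤ 10 * (L / m) + 12 * (c * (√L * u)) +
      3 * (√L * u) := by
    have h1 : (Om : ℝ) * Real.log (N2 + 1) ≤ (W + 1) * u :=
      mul_le_mul hOm hN2'' hlogN20 (by linarith)
    have h2 : c * (2 * (√L * u)) = 2 * (c * (√L * u)) := by ring
    have h3 : (W + 1) * u = W * u + u := by ring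
    linarith
  have t9 : 17 * L / m = 17 * (L / m) := by ring
  have t10 : (m + 24 * c + 15) * (√L * u) = m * (√L * u) + 24 * (c * (√L * u)) +
    15 * (√L * u) := by ring
  rw [t9, t10]
  linarith

/-- the count for fixed `m` -/
theorem count_le (m : ℕ) (hm : 6 ≤ m) {x : ℕ} {L u : ℝ} (hLx : L = Real.log x)
    (hu : u = Real.log L) (hL : 400 ≤ L) (S : Finset ℕ)
    (hS : ∀ n ∈ S, Sol n ∧ n ≤ x) :
    (S.card : ℝ) ≤ Real.exp (17 * L / m + 5 * (L / u) +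
      (m + 24 * (m : ℝ) ^ (m + 1) + 15) * (√L * u)) := by
  have b := bas hu hL
  have hm0 : (0 : ℝ) < m := by exact_mod_cast (by omega : 0 < m)
  have hL0 : 0 < L := by linarith
  have hm1 : 1 ≤ m := by omega
  obtain ⟨s, hs1, hs2, hs3⟩ := par_s b
  obtain ⟨E, hE1, hE2⟩ := par_E b
  obtain ⟨y, hy1, hy2, hy3⟩ := par_y b
  obtain ⟨Q, hQ1, hQ2, hQ3, hQ4, hQ5⟩ := par_Q b m hm
  have hcq0 : 0 ≤ (m : ℝ) ^ m * Real.log Q :=
    mul_nonneg (by positivity) (Real.log_natCast_nonneg Q)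
  have hcq : (m : ℝ) ^ m * Real.log Q ≤ (m : ℝ) ^ (m + 1) * (u + 1) := by
    rw [pow_succ, mul_assoc]
    exact mul_le_mul_of_nonneg_left hQ5 (by positivity)
  obtain ⟨B, hB1, hB2, hB3⟩ := par_B
    (R := 3 * (L / m) + 2 * (L / m) + 6 * ((m : ℝ) ^ m * Real.log Q)) (by positivity)
  obtain ⟨N1, hN11, hN12, hN13⟩ := par_N1 b hs3
  obtain ⟨N2, hN21, hN22, hN23, hN24⟩ := par_N2 b m hm hQ4
  have hc0 : (0 : ℝ) ≤ (m : ℝ) ^ (m + 1) := by positivity
  obtain ⟨hW0, hWu⟩ := par_W b m s hm hc0 hcq0 hcq hQ4 hs3 hs1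
  have hE3 : L ≤ E * Real.log 2 := by
    have h1 := Real.log_two_gt_d9
    have h2 : (E : ℝ) * (1 / 2) ≤ E * Real.log 2 :=
      mul_le_mul_of_nonneg_left (by linarith) (Nat.cast_nonneg _)
    linarith
  have hcard := card_le_code (A := m) (J := m) hLx (by linarith) hm1 hm1 hQ1 hQ2 hQ3 hy2 hy3 hs2 hE3
    hB2 hB1 hN12 hN23 (Nat.le_ceil _) S hS
  refine (Nat.cast_le.2 (hcard.trans (card_Code _ _ _ _ _ _ _ _))).trans ?_
  rw [← Real.log_le_iff_le_exp (by positivity), log_prod_eq m E s y B N1 N2 _ hm1]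
  exact final_le b hm hc0 hcq hs1 hE2 hy1 rfl hB3 hN11 hN13 hN21 hN22 hN24 hW0
    (Nat.ceil_lt_add_one hW0).le hWu

end DK
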