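import Pool.Agent.DK.Defs

/-!
# Basic facts on local factors and the graph
-/

namespace DK
open Finset

theorem sg_eq_sigma (n : ℕ) : sg n = ArithmeticFunction.sigma 1 n := by
  rw [ArithmeticFunction.sigma_one_apply]
  rfl

theorem sg_prod {n : ℕ} (hn : n ≠ 0) : sg n = ∏ p ∈ n.primeFactors, loc n p := by
  rw [sg_eq_sigma, ArithmeticFunction.isMultiplicative_sigma.multiplicative_factorization _ hn]
  rw [Finsupp.prod, Nat.support_factorization]
  refine Finset.prod_congr rfl fun p _ => ?_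
  rw [loc, sg_eq_sigma]

theorem loc_eq {p : ℕ} (hp : p.Prime) (n : ℕ) :
    loc n p = ∑ i ∈ range (n.factorization p + 1), p ^ i := by
  rw [loc, sg, Nat.sum_divisors_prime_pow hp]

theorem loc_pos {p : ℕ} (hp : p.Prime) (n : ℕ) : 0 < loc n p := by
  rw [loc_eq hp]
  refine Finset.sum_pos (fun i _ => pow_pos hp.pos _) ⟨0, by simp⟩

theorem loc_ne {p : ℕ} (hp : p.Prime) (n : ℕ) : loc n p ≠ 0 := (loc_pos hp n).ne'

theorem coprime_loc {p : ℕ} (hp : p.Prime) (n : ℕ) : p.Coprime (loc n p) := by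
  rw [loc_eq hp, Finset.sum_range_succ', pow_zero]
  have h : p ∣ ∑ k ∈ range (n.factorization p), p ^ (k + 1) :=
    Finset.dvd_sum fun k _ => dvd_pow_self p k.succ_ne_zero
  obtain ⟨c, hc⟩ := h
  rw [hc]
  simp

theorem not_dvd_loc {p : ℕ} (hp : p.Prime) (n : ℕ) : ¬ p ∣ loc n p := fun h =>
  hp.one_lt.ne' ((Nat.Coprime.eq_one_of_dvd (coprime_loc hp n) h))

theorem fac_pos {n p : ℕ} (hp : p ∈ n.primeFactors) : 1 ≤ n.factorization p := by
  have h := Nat.mem_primeFactors.1 hp
  exact (h.1.dvd_iff_one_le_factorization h.2.2).1 h.2.1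

theorem pow_lt_loc {n p : ℕ} (hp : p ∈ n.primeFactors) : p ^ n.factorization p < loc n p := by
  have hpp := Nat.prime_of_mem_primeFactors hp
  rw [loc_eq hpp, Finset.sum_range_succ]
  have h : 0 < ∑ i ∈ range (n.factorization p), p ^ i :=
    Finset.sum_pos (fun i _ => pow_pos hpp.pos _) ⟨0, by
      rw [Finset.mem_range]
      exact fac_pos hp⟩
  omega

theorem loc_lt {p : ℕ} (hp : p.Prime) (n : ℕ) : loc n p < 2 * p ^ n.factorization p := by
  rw [loc_eq hp]
  induction n.factorization p with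
  | zero => simp
  | succ k ih =>
    rw [Finset.sum_range_succ, pow_succ]
    have h2 := hp.two_le
    have h3 : p ^ k * 2 ≤ p ^ k * p := Nat.mul_le_mul_left _ h2
    omega

theorem e_pos_iff {n p l : ℕ} (hp : p.Prime) (hl : l.Prime) : e n p l ≠ 0 ↔ l ∣ loc n p := by
  rw [e, ← Nat.one_le_iff_ne_zero]
  exact ((hl.dvd_iff_one_le_factorization (loc_ne hp n))).symm

theorem e_self {p : ℕ} (hp : p.Prime) (n : ℕ) : e n p p = 0 := by
  rw [e]
  exact Nat.factorization_eq_zero_of_not_dvd (not_dvd_loc hp n)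

theorem e_eq_zero {n p l : ℕ} (hl : ¬ l.Prime) : e n p l = 0 :=
  Nat.factorization_eq_zero_of_not_prime _ hl

/-- every vertex has exactly two incoming edges -/
theorem col {n : ℕ} (h : Sol n) {l : ℕ} (hl : l.Prime) :
    ∑ p ∈ n.primeFactors, e n p l = if l ∈ n.primeFactors then 2 else 0 := by
  have hn : n ≠ 0 := by have := h.1; omega
  have h1 : (sg n).factorization l = ∑ p ∈ n.primeFactors, e n p l := by
    rw [sg_prod hn, Nat.factorization_prod fun p hp => loc_ne (Nat.prime_of_mem_primeFactors hp) n]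
    rw [Finsupp.finsetSum_apply]
    rfl
  rw [← h1, h.2, Nat.factorization_pow, rd, Nat.factorization_prod fun p hp =>
    (Nat.prime_of_mem_primeFactors hp).ne_zero]
  rw [Finsupp.smul_apply, Finsupp.finsetSum_apply]
  have h2 : ∀ p ∈ n.primeFactors, p.factorization l = if p = l then 1 else 0 := by
    intro p hp
    have hpp := Nat.prime_of_mem_primeFactors hp
    rw [hpp.factorization, Finsupp.single_apply]
  rw [Finset.sum_congr rfl h2, Finset.sum_ite_eq']
  split_ifs <;> simp

theorem e_le_two {n : ℕ} (h : Sol n) {p l : ℕ} (hp : p ∈ n.primeFactors) : e n p l ≤ 2 := by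
  by_cases hl : l.Prime
  · have h1 := col h hl
    have h2 : e n p l ≤ ∑ p ∈ n.primeFactors, e n p l :=
      Finset.single_le_sum (f := fun p => e n p l) (fun _ _ => Nat.zero_le _) hp
    split_ifs at h1 <;> omega
  · rw [e_eq_zero hl]
    omega

theorem mem_of_e {n : ℕ} (h : Sol n) {p l : ℕ} (hp : p ∈ n.primeFactors) (he : e n p l ≠ 0) :
    l ∈ n.primeFactors := by
  by_cases hl : l.Prime
  · by_contra hc
    have h1 := col h hl
    rw [if_neg hc, Finset.sum_eq_zero_iff] at h1
    exact he (h1 p hp)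
  · exact absurd (e_eq_zero hl) he

/-- factorization of the local factors -/
theorem loc_fac {n : ℕ} (h : Sol n) {p : ℕ} (hp : p ∈ n.primeFactors) :
    loc n p = ∏ l ∈ n.primeFactors, l ^ e n p l := by
  have hpp := Nat.prime_of_mem_primeFactors hp
  have h1 := Nat.prod_factorization_pow_eq_self (loc_ne hpp n)
  conv_lhs => rw [← h1]
  rw [Finsupp.prod]
  refine Finset.prod_subset ?_ ?_
  · intro l hl
    rw [Nat.support_factorization] at hl
    refine mem_of_e h hp ?_
    have := Finsupp.mem_support_iff.1 (by rw [Nat.support_factorization]; exact hl)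
    exact this
  · intro l _ hl
    rw [Finsupp.notMem_support_iff] at hl
    rw [hl, pow_zero]

theorem log_loc {n : ℕ} (h : Sol n) {p : ℕ} (hp : p ∈ n.primeFactors) :
    Real.log (loc n p) = ∑ l ∈ n.primeFactors, (e n p l : ℝ) * Real.log l := by
  rw [loc_fac h hp, Nat.cast_prod, Real.log_prod]
  · refine Finset.sum_congr rfl fun l _ => ?_
    rw [Nat.cast_pow, Real.log_pow]
  · intro l hl
    have := (Nat.prime_of_mem_primeFactors hl).ne_zero
    positivity

theorem closed_e {n : ℕ} {S : Finset ℕ} (hS : Closed n S) {p l : ℕ} (hp : p ∈ S)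
    (he : e n p l ≠ 0) : l ∈ S := by
  by_cases hl : l.Prime
  · exact hS.2 p hp l hl ((e_pos_iff (Nat.prime_of_mem_primeFactors (hS.1 hp)) hl).1 he)
  · exact absurd (e_eq_zero hl) he

theorem log_nonneg' {l : ℕ} : 0 ≤ Real.log (l : ℝ) := Real.log_natCast_nonneg l

theorem log_pos' {n l : ℕ} (hl : l ∈ n.primeFactors) : 0 < Real.log (l : ℝ) := by
  have := (Nat.prime_of_mem_primeFactors hl).one_lt
  exact Real.log_pos (by exact_mod_cast this)

/-- `log n = ∑ a_p log p` -/
theorem log_eq {n : ℕ} (hn : n ≠ 0) :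
    Real.log n = ∑ p ∈ n.primeFactors, (n.factorization p : ℝ) * Real.log p := by
  conv_lhs => rw [← Nat.prod_factorization_pow_eq_self hn]
  rw [Finsupp.prod, Nat.support_factorization, Nat.cast_prod, Real.log_prod]
  · refine Finset.sum_congr rfl fun l _ => ?_
    rw [Nat.cast_pow, Real.log_pow]
  · intro l hl
    have := (Nat.prime_of_mem_primeFactors hl).ne_zero
    positivity

theorem sum_log_le {n : ℕ} (hn : n ≠ 0) {S : Finset ℕ} (hS : S ⊆ n.primeFactors) :
    ∑ p ∈ S, (n.factorization p : ℝ) * Real.log p ≤ Real.log n := by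
  rw [log_eq hn]
  exact Finset.sum_le_sum_of_subset_of_nonneg hS fun p _ _ =>
    mul_nonneg (Nat.cast_nonneg _) log_nonneg'

theorem sum_log_le' {n : ℕ} (hn : n ≠ 0) {S : Finset ℕ} (hS : S ⊆ n.primeFactors) :
    ∑ p ∈ S, Real.log p ≤ Real.log n := by
  refine le_trans (Finset.sum_le_sum fun p hp => ?_) (sum_log_le hn hS)
  have h1 : (1 : ℝ) ≤ n.factorization p := by exact_mod_cast fac_pos (hS hp)
  nlinarith [log_nonneg' (l := p)]

end DK
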