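import Mathlib

/-!
# Combinatorial encodings
-/

namespace DK
open Finset

theorem exists_split {k m : ℕ} (f : Fin k → ℕ) (hf : ∑ i, f i = m + 1) :
    ∃ (i0 : Fin k) (g : Fin k → ℕ), ∑ i, g i = m ∧ ∀ i, f i = (if i0 = i then 1 else 0) + g i := by
  classical
  obtain ⟨i0, _, hi0⟩ : ∃ i0 ∈ (univ : Finset (Fin k)), f i0 ≠ 0 := by
    by_contra hc
    push Not at hc
    rw [Finset.sum_eq_zero hc] at hf
    omega
  have h1 : ∀ i, f i = (if i0 = i then 1 else 0) + Function.update f i0 (f i0 - 1) i := by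
    intro i
    by_cases h : i0 = i
    · subst h
      rw [if_pos rfl, Function.update_self]
      omega
    · rw [if_neg h, Function.update_of_ne (Ne.symm h), zero_add]
  refine ⟨i0, Function.update f i0 (f i0 - 1), ?_, h1⟩
  rw [Finset.sum_congr rfl fun i _ => h1 i, Finset.sum_add_distrib, Finset.sum_ite_eq,
    if_pos (Finset.mem_univ _)] at hf
  omega

/-- a vector with sum `2` is given by two indices -/
theorem exists_col {k : ℕ} (f : Fin k → ℕ) (hf : ∑ i, f i = 2) :
    ∃ c : Fin k × Fin k, ∀ i, f i = (if c.1 = i then 1 else 0) + (if c.2 = i then 1 else 0) := by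
  obtain ⟨i1, g, hg, h1⟩ := exists_split f hf
  obtain ⟨i2, g', hg', h2⟩ := exists_split g hg
  refine ⟨(i1, i2), fun i => ?_⟩
  rw [h1 i, h2 i, Finset.sum_eq_zero_iff.1 hg' i (Finset.mem_univ _)]
  rfl

/-- the product of the entries of `l` assigned to `i` -/
def dist (l : List ℕ) (g : ℕ → ℕ) (i : ℕ) : ℕ :=
  ∏ m ∈ range l.length, if g m = i then l.getD m 1 else 1

theorem dist_congr {l : List ℕ} {g g' : ℕ → ℕ} (h : ∀ m < l.length, g m = g' m) (i : ℕ) :
    dist l g i = dist l g' i := by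
  refine Finset.prod_congr rfl fun m hm => ?_
  rw [h m (Finset.mem_range.1 hm)]

theorem exists_dist {k : ℕ} : ∀ (l : List ℕ), (∀ p ∈ l, p.Prime) → ∀ r : Fin k → ℕ,
    ∏ i, r i = l.prod → ∃ g : ℕ → ℕ, (∀ m < l.length, g m < k) ∧
      ∀ i : Fin k, r i = dist l g i := by
  intro l
  induction l with
  | nil =>
    intro _ r hr
    refine ⟨fun _ => 0, by simp, fun i => ?_⟩
    rw [List.prod_nil, Finset.prod_eq_one_iff] at hr
    rw [hr i (Finset.mem_univ _)]
    simp [dist]
  | cons p l ih =>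
    intro hp r hr
    have hpp : p.Prime := hp p (by simp)
    have h1 : p ∣ ∏ i, r i := by
      rw [hr, List.prod_cons]
      exact dvd_mul_right _ _
    obtain ⟨i0, _, hi0⟩ := (hpp.prime.dvd_finsetProd_iff _).1 h1
    obtain ⟨q, hq⟩ := hi0
    have h2 : ∀ i, r i = (if i0 = i then p else 1) * Function.update r i0 q i := by
      intro i
      by_cases h : i0 = i
      · subst h
        rw [if_pos rfl, Function.update_self, hq]
      · rw [if_neg h, Function.update_of_ne (Ne.symm h), one_mul]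
    have h3 : ∏ i, Function.update r i0 q i = l.prod := by
      rw [Finset.prod_congr rfl fun i _ => h2 i, Finset.prod_mul_distrib, Finset.prod_ite_eq,
        if_pos (Finset.mem_univ _), List.prod_cons] at hr
      exact Nat.eq_of_mul_eq_mul_left hpp.pos hr
    obtain ⟨g, hg, hg'⟩ := ih (fun x hx => hp x (by simp [hx])) _ h3
    refine ⟨fun m => Nat.casesOn m i0.val g, ?_, ?_⟩
    · intro m hm
      cases m with
      | zero => exact i0.isLt
      | succ m =>
        simp only [List.length_cons] at hm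
        exact hg m (by omega)
    · intro i
      rw [h2 i, hg' i, dist, dist, List.length_cons, Finset.prod_range_succ', mul_comm]
      congr 1
      simp [Fin.ext_iff]

/-- lists of positive numbers with sum at most `N` -/
abbrev PL (N : ℕ) : Type := Σ m : Fin (N + 1), Composition m.val

theorem exists_PL {N : ℕ} (l : List ℕ) (hl : ∀ a ∈ l, 1 ≤ a) (hs : l.sum ≤ N) :
    ∃ c : PL N, c.2.blocks = l :=
  ⟨⟨⟨l.sum, by omega⟩, ⟨l, fun hi => hl _ hi, rfl⟩⟩, rfl⟩

theorem card_PL (N : ℕ) : Fintype.card (PL N) ≤ (N + 1) * 2 ^ N := by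
  rw [Fintype.card_sigma]
  refine (Finset.sum_le_card_nsmul _ _ (2 ^ N) fun m _ => ?_).trans ?_
  · rw [composition_card]
    exact Nat.pow_le_pow_right (by norm_num) (by omega)
  · rw [Finset.card_univ, Fintype.card_fin, smul_eq_mul]

/-- codes -/
abbrev Code (J s E y B N1 N2 Om : ℕ) : Type :=
  Fin J × (Fin (s + 1) → Fin (E + 1)) × Finset (Fin (y + 1)) × Fin (B + 1) × PL N1 × PL N2 ×
    (Fin (N2 + 1) → Fin (N2 + 1) × Fin (N2 + 1)) × (Fin Om → Fin (N2 + 1))

theorem card_Code (J s E y B N1 N2 Om : ℕ) : Fintype.card (Code J s E y B N1 N2 Om) ≤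
    J * ((E + 1) ^ (s + 1) * (2 ^ (y + 1) * ((B + 1) * (((N1 + 1) * 2 ^ N1) *
      (((N2 + 1) * 2 ^ N2) * (((N2 + 1) * (N2 + 1)) ^ (N2 + 1) * (N2 + 1) ^ Om)))))) := by
  simp only [Code, Fintype.card_prod, Fintype.card_fun, Fintype.card_fin, Fintype.card_finset]
  gcongr
  · exact card_PL N1
  · exact card_PL N2

end DK
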