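import Mathlib

/-!
# The logarithmic system with bounded coefficients has no large solutions
-/

namespace DK
open Finset Filter Topology

/-- a solution of the logarithmic system -/
structure CS {k : ℕ} (t : ℕ) (a : Fin k → ℕ) (e : Fin k → Fin k → ℕ) (x h : Fin k → ℝ) : Prop where
  eq : ∀ i, a i * x i + h i = ∑ j, (e i j : ℝ) * x j
  h0 : ∀ i, 0 < h i
  h1 : ∀ i, h i ≤ 4 / Real.exp (x i)
  et : ∀ i j, e i j ≤ t
  x1 : ∀ i, Real.log 2 ≤ x i

private theorem const_of_finite {α : Type*} [Finite α] (U : Ultrafilter ℕ) (f : ℕ → α) :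
    ∃ c, ∀ᶠ m in (U : Filter ℕ), f m = c := by
  obtain ⟨c, hc⟩ := Ultrafilter.eq_pure_of_finite (U.map f)
  refine ⟨c, ?_⟩
  have h1 : {c} ∈ U.map f := by
    rw [hc]
    exact rfl
  exact h1

private theorem const_of_le (U : Ultrafilter ℕ) (f : ℕ → ℕ) (N : ℕ)
    (h : ∀ᶠ m in (U : Filter ℕ), f m ≤ N) : ∃ c, ∀ᶠ m in (U : Filter ℕ), f m = c := by
  obtain ⟨c, _, hc⟩ := Ultrafilter.eq_pure_of_finite_mem (f := U.map f) (Set.finite_Iic N) h
  refine ⟨c, ?_⟩
  have h1 : {c} ∈ U.map f := by
    rw [hc]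
    exact rfl
  exact h1

/-- the linear algebra -/
private theorem lin {k : ℕ} (α : Fin k → ℕ) (e : Fin k → Fin k → ℕ) (v : Fin k → ℝ)
    (hv : ∀ i, 0 ≤ v i) (hv1 : ∃ i, v i ≠ 0)
    (heq : ∀ i, 0 < v i → α i * v i = ∑ j, (e i j : ℝ) * v j) :
    ∃ y : Fin k → ℝ, (∀ i, 0 ≤ y i) ∧ (∃ i, 0 < v i ∧ 0 < y i) ∧ (∀ i, v i = 0 → y i = 0) ∧
      ∀ j, 0 < v j → ∑ i, y i * (e i j : ℝ) = y j * α j := by
  classical
  let M : Matrix (Fin k) (Fin k) ℝ := fun i j =>
    if 0 < v i then (if 0 < v j then (if i = j then (α i : ℝ) else 0) - e i j else 0)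
    else (if i = j then 1 else 0)
  have hMv : M.mulVec v = 0 := by
    funext i
    rw [Matrix.mulVec, dotProduct, Pi.zero_apply]
    by_cases hi : 0 < v i
    · have h1 : ∀ j, M i j * v j = (if i = j then (α i : ℝ) * v j else 0) - e i j * v j := by
        intro j
        simp only [M, if_pos hi]
        by_cases hj : 0 < v j
        · rw [if_pos hj]
          split_ifs <;> ring
        · have h2 : v j = 0 := le_antisymm (not_lt.1 hj) (hv j)
          rw [h2]
          simp
      rw [Finset.sum_congr rfl fun j _ => h1 j, Finset.sum_sub_distrib, Finset.sum_ite_eq,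
        if_pos (Finset.mem_univ _), heq i hi, sub_self]
    · have h2 : v i = 0 := le_antisymm (not_lt.1 hi) (hv i)
      have h1 : ∀ j, M i j * v j = if i = j then v j else 0 := by
        intro j
        simp only [M, if_neg hi]
        split_ifs <;> ring
      rw [Finset.sum_congr rfl fun j _ => h1 j, Finset.sum_ite_eq, if_pos (Finset.mem_univ _), h2]
  have hdet : M.det = 0 := by
    rw [← Matrix.exists_mulVec_eq_zero_iff]
    obtain ⟨i, hi⟩ := hv1
    exact ⟨v, fun hc => hi (congrFun hc i), hMv⟩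
  rw [← Matrix.exists_vecMul_eq_zero_iff] at hdet
  obtain ⟨u, hu0, hu⟩ := hdet
  have hcol : ∀ j, ∑ i, u i * M i j = 0 := fun j => by
    have := congrFun hu j
    rwa [Matrix.vecMul, dotProduct, Pi.zero_apply] at this
  have hu1 : ∀ j, v j = 0 → u j = 0 := by
    intro j hj
    have h1 := hcol j
    have h2 : ∀ i, u i * M i j = if i = j then u i else 0 := by
      intro i
      by_cases hi : 0 < v i
      · have hij : i ≠ j := fun h => by
          rw [h, hj] at hi
          exact lt_irrefl _ hi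
        simp only [M, if_pos hi, hj, lt_irrefl, if_false, if_neg hij, mul_zero]
      · simp only [M, if_neg hi]
        split_ifs <;> ring
    rw [Finset.sum_congr rfl fun i _ => h2 i, Finset.sum_ite_eq', if_pos (Finset.mem_univ _)] at h1
    exact h1
  have hu2 : ∀ j, 0 < v j → u j * α j = ∑ i, u i * (e i j : ℝ) := by
    intro j hj
    have h1 := hcol j
    have h2 : ∀ i, u i * M i j = (if i = j then u i * α i else 0) - u i * e i j := by
      intro i
      by_cases hi : 0 < v i
      · simp only [M, if_pos hi, if_pos hj]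
        split_ifs <;> ring
      · have h3 := hu1 i (le_antisymm (not_lt.1 hi) (hv i))
        rw [h3]
        simp
    rw [Finset.sum_congr rfl fun i _ => h2 i, Finset.sum_sub_distrib, Finset.sum_ite_eq',
      if_pos (Finset.mem_univ _)] at h1
    linarith
  -- absolute values
  have hy1 : ∀ j, 0 < v j → |u j| * α j ≤ ∑ i, |u i| * (e i j : ℝ) := by
    intro j hj
    have h1 : |u j| * α j = |u j * α j| := by rw [abs_mul, Nat.abs_cast]
    rw [h1, hu2 j hj]
    refine (Finset.abs_sum_le_sum_abs _ _).trans_eq ?_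
    exact Finset.sum_congr rfl fun i _ => by rw [abs_mul, Nat.abs_cast]
  refine ⟨fun i => |u i|, fun i => abs_nonneg _, ?_, fun i hi => by
    show |u i| = 0
    rw [hu1 i hi, abs_zero], ?_⟩
  · obtain ⟨i, hi⟩ := Function.ne_iff.1 hu0
    refine ⟨i, ?_, abs_pos.2 hi⟩
    by_contra hc
    exact hi (hu1 i (le_antisymm (not_lt.1 hc) (hv i)))
  · -- the total defect vanishes
    have hw : ∀ j, 0 ≤ (∑ i, |u i| * (e i j : ℝ) - |u j| * α j) * v j := by
      intro j
      by_cases hj : 0 < v j
      · exact mul_nonneg (by linarith [hy1 j hj]) (hv j)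
      · rw [le_antisymm (not_lt.1 hj) (hv j), mul_zero]
    have hsum : ∑ j, (∑ i, |u i| * (e i j : ℝ) - |u j| * α j) * v j = 0 := by
      simp only [sub_mul, Finset.sum_sub_distrib, Finset.sum_mul]
      rw [Finset.sum_comm, sub_eq_zero]
      refine Finset.sum_congr rfl fun i _ => ?_
      by_cases hi : 0 < v i
      · have h1 := heq i hi
        have h2 : ∑ j, |u i| * (e i j : ℝ) * v j = |u i| * ∑ j, (e i j : ℝ) * v j := by
          rw [Finset.mul_sum]
          exact Finset.sum_congr rfl fun j _ => by ring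
        rw [h2, ← h1]
        ring
      · have h3 := hu1 i (le_antisymm (not_lt.1 hi) (hv i))
        rw [h3]
        simp
    intro j hj
    have h1 := (Finset.sum_eq_zero_iff_of_nonneg fun j _ => hw j).1 hsum j (Finset.mem_univ j)
    rcases mul_eq_zero.1 h1 with h2 | h2
    · linarith
    · exact absurd h2 hj.ne'

theorem core (k t : ℕ) : ∃ X : ℝ, ∀ (a : Fin k → ℕ) (e : Fin k → Fin k → ℕ) (x h : Fin k → ℝ),
    CS t a e x h → ∀ i, x i ≤ X := by
  classical
  by_contra hcon
  push Not at hcon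
  have H := fun m : ℕ => hcon (m : ℝ)
  choose a e x h hCS i0 hi0 using H
  have hne : Nonempty (Fin k) := ⟨i0 0⟩
  have hmax : ∀ m, ∃ s, ∀ j, x m j ≤ x m s := fun m => Finite.exists_max (x m)
  choose s hs using hmax
  have hbig : ∀ m : ℕ, (m : ℝ) < x m (s m) := fun m => (hi0 m).trans_le (hs m _)
  let U : Ultrafilter ℕ := Filter.hyperfilter ℕ
  have hU : (U : Filter ℕ) ≤ atTop := Nat.hyperfilter_le_atTop
  obtain ⟨s0, hs0⟩ := const_of_finite U s
  -- the matrix is constant
  obtain ⟨c, hc⟩ := const_of_finite U fun m => fun i j =>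
    (⟨e m i j, Nat.lt_succ_of_le ((hCS m).et i j)⟩ : Fin (t + 1))
  obtain ⟨ε, hε⟩ : ∃ ε : Fin k → Fin k → ℕ, ∀ᶠ m in (U : Filter ℕ), e m = ε := by
    refine ⟨fun i j => (c i j).val, ?_⟩
    filter_upwards [hc] with m hm
    funext i j
    have := congrFun (congrFun hm i) j
    exact congrArg Fin.val this
  -- the limits of the ratios
  have hx0 : ∀ m j, 0 < x m j := fun m j => lt_of_lt_of_le (Real.log_pos (by norm_num)) ((hCS m).x1 j)
  have hlim : ∀ j, ∃ v : ℝ, v ∈ Set.Icc (0 : ℝ) 1 ∧
      Tendsto (fun m => x m j / x m (s m)) (U : Filter ℕ) (𝓝 v) := by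
    intro j
    have h1 : Set.Icc (0 : ℝ) 1 ∈ U.map fun m => x m j / x m (s m) := by
      have h2 : ∀ᶠ m in (U : Filter ℕ), x m j / x m (s m) ∈ Set.Icc (0 : ℝ) 1 :=
        Filter.Eventually.of_forall fun m => ⟨div_nonneg (hx0 m j).le (hx0 m _).le,
          (div_le_one (hx0 m _)).2 (hs m j)⟩
      exact h2
    obtain ⟨v, hv1, hv2⟩ := isCompact_Icc.ultrafilter_le_nhds' _ h1
    exact ⟨v, hv1, hv2⟩
  choose v hv hvlim using hlim
  have hv0 : ∀ i, 0 ≤ v i := fun i => (hv i).1
  have hvs : v s0 = 1 := by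
    refine tendsto_nhds_unique (hvlim s0) ?_
    refine (tendsto_const_nhds (x := (1 : ℝ))).congr' ?_
    filter_upwards [hs0] with m hm
    rw [hm, div_self (hx0 m s0).ne']
  -- lower bounds
  have hlow : ∀ i, 0 < v i → ∀ᶠ m in (U : Filter ℕ), v i / 2 * x m (s m) ≤ x m i := by
    intro i hi
    have h1 := (hvlim i).eventually (eventually_gt_nhds (show v i / 2 < v i by linarith))
    filter_upwards [h1] with m hm
    rw [lt_div_iff₀ (hx0 m _)] at hm
    exact hm.le
  have hrow : ∀ m i, a m i * x m i ≤ k * t * x m (s m) := by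
    intro m i
    have h1 := (hCS m).eq i
    have h2 : ∑ j, (e m i j : ℝ) * x m j ≤ ∑ _j : Fin k, (t : ℝ) * x m (s m) := by
      refine Finset.sum_le_sum fun j _ => mul_le_mul ?_ (hs m j) (hx0 m j).le (Nat.cast_nonneg _)
      exact_mod_cast (hCS m).et i j
    rw [Finset.sum_const, Finset.card_univ, Fintype.card_fin, nsmul_eq_mul] at h2
    linarith [(hCS m).h0 i]
  have hαex : ∀ i, ∃ c : ℕ, 0 < v i → ∀ᶠ m in (U : Filter ℕ), a m i = c := by
    intro i
    by_cases hi : 0 < v i
    · obtain ⟨c, hc⟩ := const_of_le U (fun m => a m i) ⌈(k * t) / (v i / 2)⌉₊ (by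
        filter_upwards [hlow i hi] with m hm
        have h1 := hrow m i
        have h2 : (a m i : ℝ) * (v i / 2 * x m (s m)) ≤ a m i * x m i :=
          mul_le_mul_of_nonneg_left hm (Nat.cast_nonneg _)
        have h3 : (a m i : ℝ) * (v i / 2) ≤ k * t := by
          have h4 : ((a m i : ℝ) * (v i / 2)) * x m (s m) ≤ (k * t) * x m (s m) := by linarith
          exact le_of_mul_le_mul_right h4 (hx0 m _)
        have h5 : (a m i : ℝ) ≤ (k * t) / (v i / 2) := by
          rw [le_div_iff₀ (by positivity)]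
          exact h3
        exact_mod_cast h5.trans (Nat.le_ceil _))
      exact ⟨c, fun _ => hc⟩
    · exact ⟨0, fun h => absurd h hi⟩
  choose α hα using hαex
  -- `x m (s m) → ∞`
  have htop : Tendsto (fun m => x m (s m)) (U : Filter ℕ) atTop :=
    tendsto_atTop_mono (fun m => (hbig m).le) (tendsto_natCast_atTop_atTop.mono_left hU)
  -- the limit equation
  have heq : ∀ i, 0 < v i → α i * v i = ∑ j, (ε i j : ℝ) * v j := by
    intro i hi
    have h1 : Tendsto (fun m => ∑ j, (ε i j : ℝ) * (x m j / x m (s m))) (U : Filter ℕ)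
        (𝓝 (∑ j, (ε i j : ℝ) * v j)) :=
      tendsto_finsetSum _ fun j _ => (hvlim j).const_mul _
    have h2 : Tendsto (fun m => (α i : ℝ) * (x m i / x m (s m)) + h m i / x m (s m)) (U : Filter ℕ)
        (𝓝 (α i * v i + 0)) := by
      refine ((hvlim i).const_mul _).add ?_
      have h3 : ∀ m, 0 ≤ h m i / x m (s m) := fun m => div_nonneg ((hCS m).h0 i).le (hx0 m _).le
      have h4 : ∀ m, h m i / x m (s m) ≤ 4 / x m (s m) := by
        intro m
        refine div_le_div_of_nonneg_right ?_ (hx0 m _).le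
        refine ((hCS m).h1 i).trans ?_
        exact div_le_self (by norm_num) (Real.one_le_exp (hx0 m i).le)
      exact squeeze_zero h3 h4 (htop.const_div_atTop 4)
    rw [add_zero] at h2
    refine tendsto_nhds_unique h2 (h1.congr' ?_)
    filter_upwards [hε, hα i hi] with m hm1 hm2
    have h3 := (hCS m).eq i
    rw [hm1, hm2] at h3
    have h4 : ∑ j, (ε i j : ℝ) * (x m j / x m (s m)) = (∑ j, (ε i j : ℝ) * x m j) / x m (s m) := by
      rw [Finset.sum_div]
      exact Finset.sum_congr rfl fun j _ => by ring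
    rw [h4, ← h3]
    ring
  obtain ⟨y, hy0, ⟨i1, hi1, hyi1⟩, hyz, hy⟩ := lin α ε v hv0 ⟨s0, by rw [hvs]; norm_num⟩ heq
  -- the identity
  have hid : ∀ᶠ m in (U : Filter ℕ), ∑ j, (if 0 < v j then 0 else (∑ i, y i * (ε i j : ℝ)) * x m j) =
      ∑ i, y i * h m i := by
    have hα' : ∀ᶠ m in (U : Filter ℕ), ∀ i, 0 < v i → a m i = α i := by
      rw [Filter.eventually_all]
      intro i
      by_cases hi : 0 < v i
      · filter_upwards [hα i hi] with m hm _
        exact hm
      · exact Filter.Eventually.of_forall fun m h => absurd h hi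
    filter_upwards [hε, hα'] with m hm1 hm2
    have h1 : ∑ i, y i * (α i * x m i + h m i) = ∑ i, y i * ∑ j, (ε i j : ℝ) * x m j := by
      refine Finset.sum_congr rfl fun i _ => ?_
      by_cases hi : 0 < v i
      · have h3 := (hCS m).eq i
        rw [hm1, hm2 i hi] at h3
        rw [h3]
      · rw [hyz i (le_antisymm (not_lt.1 hi) (hv0 i)), zero_mul, zero_mul]
    have h2 : ∑ i, y i * ∑ j, (ε i j : ℝ) * x m j = ∑ j, (∑ i, y i * (ε i j : ℝ)) * x m j := by
      simp only [Finset.mul_sum, Finset.sum_mul]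
      rw [Finset.sum_comm]
      exact Finset.sum_congr rfl fun j _ => Finset.sum_congr rfl fun i _ => by ring
    have h3 : ∀ j, (∑ i, y i * (ε i j : ℝ)) * x m j = y j * (α j * x m j) +
        (if 0 < v j then 0 else (∑ i, y i * (ε i j : ℝ)) * x m j) := by
      intro j
      by_cases hj : 0 < v j
      · rw [if_pos hj, hy j hj]
        ring
      · rw [if_neg hj, hyz j (le_antisymm (not_lt.1 hj) (hv0 j))]
        ring
    rw [h2, Finset.sum_congr rfl fun j _ => h3 j, Finset.sum_add_distrib] at h1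
    simp only [mul_add, Finset.sum_add_distrib] at h1
    linarith
  -- the right hand side tends to zero
  have hR : Tendsto (fun m => ∑ i, y i * h m i) (U : Filter ℕ) (𝓝 0) := by
    have h1 : Tendsto (fun m => ∑ i, y i * h m i) (U : Filter ℕ) (𝓝 (∑ _i : Fin k, (0 : ℝ))) := by
      refine tendsto_finsetSum _ fun i _ => ?_
      by_cases hi : 0 < v i
      · have h2 : Tendsto (fun m => x m i) (U : Filter ℕ) atTop := by
          refine tendsto_atTop_mono' _ (hlow i hi) ?_
          exact htop.const_mul_atTop (by positivity)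
        have h3 : Tendsto (fun m => 4 / Real.exp (x m i)) (U : Filter ℕ) (𝓝 0) :=
          (Real.tendsto_exp_atTop.comp h2).const_div_atTop 4
        have h4 : Tendsto (fun m => h m i) (U : Filter ℕ) (𝓝 0) :=
          squeeze_zero (fun m => ((hCS m).h0 i).le) (fun m => (hCS m).h1 i) h3
        have h5 := h4.const_mul (y i)
        rwa [mul_zero] at h5
      · rw [hyz i (le_antisymm (not_lt.1 hi) (hv0 i))]
        simp only [zero_mul]
        exact tendsto_const_nhds
    rwa [Finset.sum_const_zero] at h1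
  have hRpos : ∀ m, 0 < ∑ i, y i * h m i := fun m =>
    Finset.sum_pos' (fun i _ => mul_nonneg (hy0 i) ((hCS m).h0 i).le)
      ⟨i1, Finset.mem_univ _, mul_pos hyi1 ((hCS m).h0 i1)⟩
  -- the left hand side
  have hc0 : ∀ j, 0 ≤ ∑ i, y i * (ε i j : ℝ) := fun j =>
    Finset.sum_nonneg fun i _ => mul_nonneg (hy0 i) (Nat.cast_nonneg _)
  have hterm : ∀ m j, 0 ≤ (if 0 < v j then 0 else (∑ i, y i * (ε i j : ℝ)) * x m j) := by
    intro m j
    split_ifs
    · exact le_rfl
    · exact mul_nonneg (hc0 j) (hx0 m j).le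
  by_cases hall : ∀ j, ¬ 0 < v j → ∑ i, y i * (ε i j : ℝ) = 0
  · obtain ⟨m, hm⟩ := hid.exists
    have h1 : ∑ j, (if 0 < v j then 0 else (∑ i, y i * (ε i j : ℝ)) * x m j) = 0 := by
      refine Finset.sum_eq_zero fun j _ => ?_
      split_ifs with hj
      · rfl
      · rw [hall j hj, zero_mul]
    rw [h1] at hm
    exact (hRpos m).ne hm
  · push Not at hall
    obtain ⟨j0, hj0, hj0c⟩ := hall
    have hcpos : 0 < ∑ i, y i * (ε i j0 : ℝ) := lt_of_le_of_ne (hc0 j0) (Ne.symm hj0c)
    have hlog2 : 0 < Real.log 2 := Real.log_pos (by norm_num)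
    have h1 := hR.eventually (eventually_lt_nhds (show (0 : ℝ) <
      (∑ i, y i * (ε i j0 : ℝ)) * Real.log 2 by positivity))
    obtain ⟨m, hm1, hm2⟩ := (hid.and h1).exists
    have h2 : (if 0 < v j0 then 0 else (∑ i, y i * (ε i j0 : ℝ)) * x m j0) ≤
        ∑ j, (if 0 < v j then 0 else (∑ i, y i * (ε i j : ℝ)) * x m j) :=
      Finset.single_le_sum (f := fun j => if 0 < v j then 0 else (∑ i, y i * (ε i j : ℝ)) * x m j)
        (fun j _ => hterm m j) (Finset.mem_univ j0)
    rw [if_neg (not_lt.2 hj0)] at h2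
    have h3 : (∑ i, y i * (ε i j0 : ℝ)) * Real.log 2 ≤ (∑ i, y i * (ε i j0 : ℝ)) * x m j0 :=
      mul_le_mul_of_nonneg_left ((hCS m).x1 j0) hcpos.le
    linarith

end DK
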