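import Mathlib

/-!
# The equation `σ(n) = rad(n)^2`: definitions

`sg` is the sum of the divisors, `rd` the product of the prime divisors, `loc n p = σ(p^a)` for the exact power `p^a` of
`p` in `n`, and `e n p l` the exponent of the prime `l` in `loc n p`.  The prime divisors of `n` form a directed
graph with `e n p l` edges from `p` to `l`; for a solution every vertex has exactly two incoming edges.
-/

namespace DK
open Finset

/-- sum of the divisors -/
def sg (n : ℕ) : ℕ := ∑ d ∈ n.divisors, d

/-- product of the prime divisors -/
def rd (n : ℕ) : ℕ := ∏ p ∈ n.primeFactors, p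

/-- solution of the equation -/
def Sol (n : ℕ) : Prop := 1 < n ∧ sg n = rd n ^ 2

/-- local factor of `σ(n)` -/
def loc (n p : ℕ) : ℕ := sg (p ^ n.factorization p)

/-- number of edges from `p` to `l` -/
def e (n p l : ℕ) : ℕ := (loc n p).factorization l

/-- unitary divisor of `n` with the set `S` of primes -/
def part (n : ℕ) (S : Finset ℕ) : ℕ := ∏ p ∈ S, p ^ n.factorization p

/-- closed set of primes of `n` -/
def Closed (n : ℕ) (S : Finset ℕ) : Prop :=
  S ⊆ n.primeFactors ∧ ∀ p ∈ S, ∀ l, l.Prime → l ∣ loc n p → l ∈ S

end DK
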