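import Pool.Agent.DK.UniqP
import Pool.Agent.DK.Core

/-!
# Finiteness for a fixed number of prime factors
-/

namespace DK
open Finset

private theorem loc_dvd {n t p : ℕ} (hn : n ≠ 0) (h : sg n ∣ rd n ^ t) (hp : p ∈ n.primeFactors) :
    loc n p ∣ rd n ^ t := by
  refine Dvd.dvd.trans ?_ h
  rw [sg_prod hn]
  exact Finset.dvd_prod_of_mem _ hp

private theorem rd_fac {n : ℕ} (l : ℕ) : (rd n).factorization l ≤ 1 := by
  classical
  rw [rd, Nat.factorization_prod fun p hp => (Nat.prime_of_mem_primeFactors hp).ne_zero,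
    Finsupp.finsetSum_apply]
  have h2 : ∀ p ∈ n.primeFactors, p.factorization l = if p = l then 1 else 0 := by
    intro p hp
    rw [(Nat.prime_of_mem_primeFactors hp).factorization, Finsupp.single_apply]
  rw [Finset.sum_congr rfl h2, Finset.sum_ite_eq']
  split_ifs <;> omega

private theorem rd_ne (n : ℕ) : rd n ≠ 0 :=
  Finset.prod_ne_zero_iff.2 fun _ hp => (Nat.prime_of_mem_primeFactors hp).ne_zero

private theorem e_le {n t p l : ℕ} (hn : n ≠ 0) (h : sg n ∣ rd n ^ t) (hp : p ∈ n.primeFactors) :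
    e n p l ≤ t := by
  have hpp := Nat.prime_of_mem_primeFactors hp
  have h1 := (Nat.factorization_le_iff_dvd (loc_ne hpp n) (pow_ne_zero t (rd_ne n))).2
    (loc_dvd hn h hp) l
  refine h1.trans ?_
  rw [Nat.factorization_pow]
  calc t * (rd n).factorization l ≤ t * 1 := Nat.mul_le_mul_left t (rd_fac l)
    _ = t := mul_one t

private theorem log_loc' {n t p : ℕ} (hn : n ≠ 0) (h : sg n ∣ rd n ^ t)
    (hp : p ∈ n.primeFactors) :
    Real.log (loc n p) = ∑ l ∈ n.primeFactors, (e n p l : ℝ) * Real.log l := by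
  have hpp := Nat.prime_of_mem_primeFactors hp
  rw [Real.log_nat_eq_sum_factorization, Finsupp.sum]
  refine Finset.sum_subset ?_ ?_
  · intro l hl
    rw [Nat.support_factorization, Nat.mem_primeFactors] at hl
    have h1 : l ∣ rd n := hl.1.dvd_of_dvd_pow (hl.2.1.trans (loc_dvd hn h hp))
    rw [rd] at h1
    obtain ⟨q, hq, hlq⟩ := (hl.1.prime.dvd_finsetProd_iff _).1 h1
    rw [(Nat.prime_dvd_prime_iff_eq hl.1 (Nat.prime_of_mem_primeFactors hq)).1 hlq]
    exact hq
  · intro l _ hl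
    rw [Finsupp.notMem_support_iff] at hl
    rw [hl, Nat.cast_zero, zero_mul]

private theorem le_sg {n : ℕ} (hn : n ≠ 0) : n ≤ sg n :=
  Finset.single_le_sum (f := fun d => d) (fun _ _ => Nat.zero_le _)
    (Nat.mem_divisors.2 ⟨dvd_rfl, hn⟩)

theorem fixed (k t : ℕ) :
    {n : ℕ | n ≠ 0 ∧ n.primeFactors.card = k ∧ sg n ∣ rd n ^ t}.Finite := by
  classical
  obtain ⟨X, hX⟩ := core k t
  refine (Set.finite_Iic ((⌈Real.exp X⌉₊ ^ k) ^ t)).subset ?_
  rintro n ⟨hn, hk, hd⟩
  rw [Set.mem_Iic]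
  obtain ⟨φ⟩ : Nonempty (n.primeFactors ≃ Fin k) := by
    rw [← Fintype.card_eq]
    simp [hk]
  let p : Fin k → ℕ := fun i => (φ.symm i).1
  have hp : ∀ i, p i ∈ n.primeFactors := fun i => (φ.symm i).2
  have hpp : ∀ i, (p i).Prime := fun i => Nat.prime_of_mem_primeFactors (hp i)
  have hsum : ∀ f : ℕ → ℝ, ∑ q ∈ n.primeFactors, f q = ∑ i, f (p i) := by
    intro f
    rw [← Finset.sum_coe_sort n.primeFactors f]
    exact (Equiv.sum_comp φ.symm fun q : n.primeFactors => f q.1).symm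
  have hCS : CS t (fun i => n.factorization (p i)) (fun i j => e n (p i) (p j))
      (fun i => Real.log (p i)) (fun i => hh n (p i)) := by
    refine ⟨fun i => ?_, fun i => ?_, fun i => ?_, fun i j => e_le hn hd (hp i), fun i => ?_⟩
    · show n.factorization (p i) * Real.log (p i) + hh n (p i) = _
      rw [← hsum fun q => (e n (p i) q : ℝ) * Real.log q, ← log_loc' hn hd (hp i), hh]
      ring
    · show 0 < hh n (p i)
      have h0 : (0 : ℝ) < p i := by exact_mod_cast (hpp i).pos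
      rw [hh, ← Real.log_pow, sub_pos]
      refine Real.log_lt_log (by positivity) ?_
      exact_mod_cast pow_lt_loc (hp i)
    · show hh n (p i) ≤ 4 / Real.exp (Real.log (p i))
      rw [Real.exp_log (by exact_mod_cast (hpp i).pos)]
      exact hh_le (hpp i) (by exact_mod_cast (hpp i).two_le) le_rfl
    · exact Real.log_le_log (by norm_num) (by exact_mod_cast (hpp i).two_le)
  have hle : ∀ q ∈ n.primeFactors, q ≤ ⌈Real.exp X⌉₊ := by
    intro q hq
    have h1 := hX _ _ _ _ hCS (φ ⟨q, hq⟩)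
    have h2 : p (φ ⟨q, hq⟩) = q := by simp [p]
    simp only [h2] at h1
    have h3 : (0 : ℝ) < q := by exact_mod_cast (Nat.prime_of_mem_primeFactors hq).pos
    rw [Real.log_le_iff_le_exp h3] at h1
    exact_mod_cast h1.trans (Nat.le_ceil _)
  have h1 : rd n ≤ ⌈Real.exp X⌉₊ ^ k := by
    rw [rd, ← hk]
    exact Finset.prod_le_pow_card _ _ _ hle
  exact (le_sg hn).trans ((Nat.le_of_dvd (pow_pos (Nat.pos_of_ne_zero (rd_ne n)) _) hd).trans
    (Nat.pow_le_pow_left h1 t))

end DK
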