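import Pool.Agent.DK.Parity

/-!
# Flow bound and pigeonhole
-/

namespace DK
open Finset

/-- the primes `≤ Y` with exponent `< A` -/
def Lo (n A Y : ℕ) : Finset ℕ := n.primeFactors.filter fun p => p ≤ Y ∧ n.factorization p < A

theorem mem_Lo {n A Y p : ℕ} : p ∈ Lo n A Y ↔ p ∈ n.primeFactors ∧ p ≤ Y ∧
    n.factorization p < A := by
  rw [Lo, Finset.mem_filter]

/-- prime divisors of the local factor of a low prime -/
theorem le_of_Lo {n A Y p l : ℕ} (hp : p ∈ Lo n A Y) (he : e n p l ≠ 0) : l ≤ Y ^ A := by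
  rw [mem_Lo] at hp
  have hpp := Nat.prime_of_mem_primeFactors hp.1
  by_cases hl : l.Prime
  · have h1 := (e_pos_iff hpp hl).1 he
    have h2 := Nat.le_of_dvd (loc_pos hpp n) h1
    have h3 := loc_lt hpp n
    have h4 : 2 * p ^ n.factorization p ≤ p ^ (n.factorization p + 1) := by
      rw [pow_succ, mul_comm]
      exact Nat.mul_le_mul_left _ hpp.two_le
    have h5 : p ^ (n.factorization p + 1) ≤ Y ^ (n.factorization p + 1) :=
      Nat.pow_le_pow_left hp.2.1 _
    have h6 : Y ^ (n.factorization p + 1) ≤ Y ^ A :=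
      Nat.pow_le_pow_right (lt_of_lt_of_le hpp.pos hp.2.1) hp.2.2
    omega
  · exact absurd (e_eq_zero hl) he

/-- flow bound -/
theorem flow {n : ℕ} (h : Sol n) (A Y : ℕ) (hA : 1 ≤ A) (hY : 1 ≤ Y) :
    ∑ l ∈ n.primeFactors.filter (fun p => p ≤ Y ^ A),
      ∑ p ∈ n.primeFactors \ Lo n A Y, (e n p l : ℝ) * Real.log l +
      ∑ p ∈ Lo n A Y, ((n.factorization p : ℝ) - 2) * Real.log p ≤
    2 * ∑ l ∈ n.primeFactors.filter (fun p => p ≤ Y ^ A) \ Lo n A Y, Real.log l := by
  set W := n.primeFactors.filter (fun p => p ≤ Y ^ A) with hW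
  have hUW : Lo n A Y ⊆ W := by
    intro p hp
    rw [mem_Lo] at hp
    rw [hW, Finset.mem_filter]
    refine ⟨hp.1, hp.2.1.trans ?_⟩
    calc Y = Y ^ 1 := (pow_one Y).symm
      _ ≤ Y ^ A := Nat.pow_le_pow_right hY hA
  have hU : Lo n A Y ⊆ n.primeFactors := fun p hp => (mem_Lo.1 hp).1
  -- the local factors
  have h1 : ∀ p ∈ Lo n A Y, (n.factorization p : ℝ) * Real.log p ≤
      ∑ l ∈ W, (e n p l : ℝ) * Real.log l := by
    intro p hp
    have hp' := hU hp
    have hpp := Nat.prime_of_mem_primeFactors hp'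
    have h2 : ∑ l ∈ W, (e n p l : ℝ) * Real.log l = Real.log (loc n p) := by
      rw [log_loc h hp', hW]
      refine Finset.sum_subset (Finset.filter_subset _ _) fun l hl hlW => ?_
      have h3 : e n p l = 0 := by
        by_contra hc
        exact hlW (Finset.mem_filter.2 ⟨hl, le_of_Lo hp hc⟩)
      rw [h3, Nat.cast_zero, zero_mul]
    rw [h2, ← Real.log_pow]
    refine Real.log_le_log ?_ ?_
    · have := hpp.pos
      positivity
    · exact_mod_cast (pow_lt_loc hp').le
  have h2 := Finset.sum_le_sum h1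
  rw [Finset.sum_comm] at h2
  have h3 : ∀ l ∈ W, ∑ p ∈ Lo n A Y, (e n p l : ℝ) * Real.log l +
      ∑ p ∈ n.primeFactors \ Lo n A Y, (e n p l : ℝ) * Real.log l = 2 * Real.log l := by
    intro l hl
    rw [add_comm, Finset.sum_sdiff hU, ← Finset.sum_mul]
    have hl' := (Finset.mem_filter.1 hl).1
    have h4 := col h (Nat.prime_of_mem_primeFactors hl')
    rw [if_pos hl'] at h4
    have h5 : ∑ p ∈ n.primeFactors, (e n p l : ℝ) = 2 := by exact_mod_cast h4
    rw [h5]
  have h4 := Finset.sum_congr rfl h3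
  have h4' := Finset.sum_sdiff hUW (f := fun l : ℕ => Real.log (l : ℝ))
  rw [Finset.sum_add_distrib, ← Finset.mul_sum, ← h4', mul_add] at h4
  have h5 : ∑ p ∈ Lo n A Y, ((n.factorization p : ℝ) - 2) * Real.log p =
      ∑ p ∈ Lo n A Y, (n.factorization p : ℝ) * Real.log p - 2 * ∑ p ∈ Lo n A Y, Real.log p := by
    rw [Finset.mul_sum, ← Finset.sum_sub_distrib]
    exact Finset.sum_congr rfl fun p _ => by ring
  rw [h5]
  linarith

/-- the primes with exponent `1` below `Y` -/
theorem ones_le {n : ℕ} (h : Sol n) (Y : ℕ) (hY : 1 ≤ Y) :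
    ∑ p ∈ n.primeFactors.filter (fun p => p ≤ Y ∧ n.factorization p = 1), Real.log p ≤
      3 * Real.log Y := by
  have hlY : 0 ≤ Real.log Y := Real.log_natCast_nonneg Y
  have h1 : ∀ p ∈ n.primeFactors.filter (fun p => p ≤ Y ∧ n.factorization p = 1),
      Real.log (p : ℝ) ≤ Real.log Y := by
    intro p hp
    rw [Finset.mem_filter] at hp
    refine Real.log_le_log ?_ (by exact_mod_cast hp.2.1)
    exact_mod_cast (Nat.prime_of_mem_primeFactors hp.1).pos
  refine (Finset.sum_le_card_nsmul _ _ _ h1).trans ?_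
  rw [nsmul_eq_mul]
  refine mul_le_mul_of_nonneg_right ?_ hlY
  have h2 : (n.primeFactors.filter (fun p => p ≤ Y ∧ n.factorization p = 1)).card ≤ 3 := by
    refine (Finset.card_le_card fun p hp => ?_).trans (card_one h)
    rw [Finset.mem_filter] at hp ⊢
    exact ⟨hp.1, hp.2.2⟩
  exact_mod_cast h2

/-- the primes with large exponent -/
theorem high_le {n : ℕ} (hn : n ≠ 0) (A : ℕ) (hA : 1 ≤ A) :
    ∑ p ∈ n.primeFactors.filter (fun p => A ≤ n.factorization p), Real.log p ≤
      Real.log n / A := by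
  have hA0 : (0 : ℝ) < A := by exact_mod_cast hA
  rw [le_div_iff₀ hA0, Finset.sum_mul]
  refine le_trans ?_ (sum_log_le hn
    (Finset.filter_subset (fun p => A ≤ n.factorization p) n.primeFactors))
  refine Finset.sum_le_sum fun p hp => ?_
  rw [Finset.mem_filter] at hp
  rw [mul_comm]
  exact mul_le_mul_of_nonneg_right (by exact_mod_cast hp.2) log_nonneg'

/-- the total weight of the middle primes and the primes with large exponent -/
theorem sdiff_le {n : ℕ} (h : Sol n) (A Y : ℕ) (hA : 1 ≤ A) (ηV : ℝ)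
    (hV : ∑ p ∈ n.primeFactors.filter (fun p => Y < p ∧ p ≤ Y ^ A), Real.log p ≤ ηV) :
    ∑ l ∈ n.primeFactors.filter (fun p => p ≤ Y ^ A) \ Lo n A Y, Real.log l ≤
      Real.log n / A + ηV := by
  have hn : n ≠ 0 := by have := h.1; omega
  have h1 : n.primeFactors.filter (fun p => p ≤ Y ^ A) \ Lo n A Y ⊆
      n.primeFactors.filter (fun p => A ≤ n.factorization p) ∪
      n.primeFactors.filter (fun p => Y < p ∧ p ≤ Y ^ A) := by
    intro p hp
    rw [Finset.mem_sdiff, Finset.mem_filter, mem_Lo] at hp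
    rw [Finset.mem_union, Finset.mem_filter, Finset.mem_filter]
    by_cases hpY : p ≤ Y
    · refine Or.inl ⟨hp.1.1, ?_⟩
      by_contra hc
      exact hp.2 ⟨hp.1.1, hpY, by omega⟩
    · exact Or.inr ⟨hp.1.1, by omega, hp.1.2⟩
  refine (Finset.sum_le_sum_of_subset_of_nonneg h1 fun _ _ _ => log_nonneg').trans ?_
  have h2 : ∑ p ∈ n.primeFactors.filter (fun p => A ≤ n.factorization p) ∪
      n.primeFactors.filter (fun p => Y < p ∧ p ≤ Y ^ A), Real.log (p : ℝ) ≤
      ∑ p ∈ n.primeFactors.filter (fun p => A ≤ n.factorization p), Real.log (p : ℝ) +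
      ∑ p ∈ n.primeFactors.filter (fun p => Y < p ∧ p ≤ Y ^ A), Real.log (p : ℝ) := by
    rw [← Finset.sum_union_inter]
    linarith [Finset.sum_nonneg (s := n.primeFactors.filter (fun p => A ≤ n.factorization p) ∩
      n.primeFactors.filter (fun p => Y < p ∧ p ≤ Y ^ A)) (f := fun p : ℕ => Real.log (p : ℝ))
      fun _ _ => log_nonneg']
  linarith [high_le hn A hA]

/-- lower bound for the exponent sum over the low primes -/
theorem low_ge {n : ℕ} (h : Sol n) (A Y : ℕ) (hY : 1 ≤ Y) :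
    ∑ p ∈ (Lo n A Y).filter (fun p => 3 ≤ n.factorization p), Real.log p - 3 * Real.log Y ≤
      ∑ p ∈ Lo n A Y, ((n.factorization p : ℝ) - 2) * Real.log p := by
  have h1 : ∀ p ∈ Lo n A Y, (if 3 ≤ n.factorization p then Real.log (p : ℝ) else 0) -
      (if n.factorization p = 1 then Real.log (p : ℝ) else 0) ≤
      ((n.factorization p : ℝ) - 2) * Real.log p := by
    intro p hp
    have hp1 := fac_pos (mem_Lo.1 hp).1
    have hl := log_nonneg' (l := p)
    by_cases h3 : 3 ≤ n.factorization p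
    · rw [if_pos h3, if_neg (by omega), sub_zero]
      have : (3 : ℝ) ≤ n.factorization p := by exact_mod_cast h3
      nlinarith
    · by_cases h4 : n.factorization p = 1
      · rw [if_neg h3, if_pos h4, h4]
        push_cast
        linarith
      · have h5 : n.factorization p = 2 := by omega
        rw [if_neg h3, if_neg h4, h5]
        push_cast
        linarith
  have h2 := Finset.sum_le_sum h1
  rw [Finset.sum_sub_distrib, ← Finset.sum_filter, ← Finset.sum_filter] at h2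
  have h3 : ∑ p ∈ (Lo n A Y).filter (fun p => n.factorization p = 1), Real.log (p : ℝ) ≤
      3 * Real.log Y := by
    refine le_trans (Finset.sum_le_sum_of_subset_of_nonneg ?_ fun _ _ _ => log_nonneg')
      (ones_le h Y hY)
    intro p hp
    rw [Finset.mem_filter, mem_Lo] at hp
    rw [Finset.mem_filter]
    exact ⟨hp.1.1, hp.1.2.1, hp.2⟩
  linarith

/-- total weight of the hits -/
theorem hits_le {n : ℕ} (h : Sol n) (A Y : ℕ) (hA : 1 ≤ A) (hY : 1 ≤ Y) (ηV : ℝ)
    (hV : ∑ p ∈ n.primeFactors.filter (fun p => Y < p ∧ p ≤ Y ^ A), Real.log p ≤ ηV) :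
    ∑ l ∈ n.primeFactors.filter (fun p => p ≤ Y ^ A),
      ∑ p ∈ n.primeFactors \ Lo n A Y, (e n p l : ℝ) * Real.log l +
      ∑ p ∈ (Lo n A Y).filter (fun p => 3 ≤ n.factorization p), Real.log p ≤
      2 * (Real.log n / A + ηV) + 3 * Real.log Y := by
  have h1 := flow h A Y hA hY
  have h2 := sdiff_le h A Y hA ηV hV
  have h3 := low_ge h A Y hY
  linarith

/-- the big special primes -/
noncomputable def Big (n A Y : ℕ) : Finset ℕ := by
  classical
  exact n.primeFactors.filter fun p => p ≤ Y ∧ (n.factorization p ≠ 2 ∨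
    ∃ q ∈ n.primeFactors \ Lo n A Y, e n q p ≠ 0)

theorem mem_Big {n A Y p : ℕ} : p ∈ Big n A Y ↔ p ∈ n.primeFactors ∧ p ≤ Y ∧
    (n.factorization p ≠ 2 ∨ ∃ q ∈ n.primeFactors \ Lo n A Y, e n q p ≠ 0) := by
  classical
  rw [Big, Finset.mem_filter]

theorem big_le {n : ℕ} (h : Sol n) (A Y : ℕ) (hA : 1 ≤ A) (hY : 1 ≤ Y) (ηV : ℝ)
    (hV : ∑ p ∈ n.primeFactors.filter (fun p => Y < p ∧ p ≤ Y ^ A), Real.log p ≤ ηV) :
    ∑ p ∈ Big n A Y, Real.log p ≤ 3 * (Real.log n / A) + 2 * ηV + 6 * Real.log Y := by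
  classical
  have hn : n ≠ 0 := by have := h.1; omega
  set W := n.primeFactors.filter (fun p => p ≤ Y ^ A) with hW
  set B1 := n.primeFactors.filter (fun p => p ≤ Y ∧ n.factorization p = 1) with hB1
  set B2 := (Lo n A Y).filter (fun p => 3 ≤ n.factorization p) with hB2
  set B3 := n.primeFactors.filter (fun p => A ≤ n.factorization p) with hB3
  set B4 := W.filter (fun l => ∃ q ∈ n.primeFactors \ Lo n A Y, e n q l ≠ 0) with hB4
  have h1 : Big n A Y ⊆ ((B1 ∪ B2) ∪ B3) ∪ B4 := by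
    intro p hp
    rw [mem_Big] at hp
    obtain ⟨hp1, hp2, hp3⟩ := hp
    simp only [Finset.mem_union]
    rcases hp3 with hp3 | hp3
    · left
      by_cases h4 : A ≤ n.factorization p
      · exact Or.inr (Finset.mem_filter.2 ⟨hp1, h4⟩)
      · left
        by_cases h5 : n.factorization p = 1
        · exact Or.inl (Finset.mem_filter.2 ⟨hp1, hp2, h5⟩)
        · right
          rw [hB2, Finset.mem_filter, mem_Lo]
          have := fac_pos hp1
          exact ⟨⟨hp1, hp2, by omega⟩, by omega⟩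
    · right
      rw [hB4, Finset.mem_filter, hW, Finset.mem_filter]
      refine ⟨⟨hp1, hp2.trans ?_⟩, hp3⟩
      calc Y = Y ^ 1 := (pow_one Y).symm
        _ ≤ Y ^ A := Nat.pow_le_pow_right hY hA
  have hun : ∀ s t : Finset ℕ, ∑ p ∈ s ∪ t, Real.log (p : ℝ) ≤
      ∑ p ∈ s, Real.log (p : ℝ) + ∑ p ∈ t, Real.log (p : ℝ) := by
    intro s t
    rw [← Finset.sum_union_inter]
    linarith [Finset.sum_nonneg (s := s ∩ t) (f := fun p : ℕ => Real.log (p : ℝ))
      fun _ _ => log_nonneg']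
  have h2 : ∑ p ∈ Big n A Y, Real.log (p : ℝ) ≤ ∑ p ∈ B1, Real.log (p : ℝ) +
      ∑ p ∈ B2, Real.log (p : ℝ) + ∑ p ∈ B3, Real.log (p : ℝ) + ∑ p ∈ B4, Real.log (p : ℝ) := by
    refine (Finset.sum_le_sum_of_subset_of_nonneg h1 fun _ _ _ => log_nonneg').trans ?_
    refine (hun _ _).trans (add_le_add ?_ le_rfl)
    refine (hun _ _).trans (add_le_add ?_ le_rfl)
    exact hun _ _
  have h3 : ∑ p ∈ B4, Real.log (p : ℝ) ≤ ∑ l ∈ W,
      ∑ p ∈ n.primeFactors \ Lo n A Y, (e n p l : ℝ) * Real.log l := by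
    rw [hB4, Finset.sum_filter]
    refine Finset.sum_le_sum fun l _ => ?_
    have hnn : ∀ p ∈ n.primeFactors \ Lo n A Y, 0 ≤ (e n p l : ℝ) * Real.log l := fun p _ =>
      mul_nonneg (Nat.cast_nonneg _) log_nonneg'
    split_ifs with hex
    · obtain ⟨q, hq, hqe⟩ := hex
      refine le_trans ?_ (Finset.single_le_sum hnn hq)
      have : (1 : ℝ) ≤ e n q l := by exact_mod_cast Nat.one_le_iff_ne_zero.2 hqe
      nlinarith [log_nonneg' (l := l)]
    · exact Finset.sum_nonneg hnn
  have h4 := hits_le h A Y hA hY ηV hV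
  have h5 := high_le hn A hA
  have h6 := ones_le h Y hY
  linarith

/-- pigeonhole -/
theorem pig {n : ℕ} (hn : n ≠ 0) (Q A J : ℕ) (hQ : 1 ≤ Q) (hA : 1 ≤ A) (hJ : 1 ≤ J) : ∃ j < J,
    ∑ p ∈ n.primeFactors.filter (fun p => Q ^ A ^ j < p ∧ p ≤ (Q ^ A ^ j) ^ A), Real.log p ≤
      Real.log n / J := by
  by_contra hc
  push Not at hc
  have hJ0 : (0 : ℝ) < J := by exact_mod_cast hJ
  have h1 : ∑ _j ∈ range J, Real.log n / J < ∑ j ∈ range J,
      ∑ p ∈ n.primeFactors.filter (fun p => Q ^ A ^ j < p ∧ p ≤ (Q ^ A ^ j) ^ A),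
        Real.log (p : ℝ) := by
    refine Finset.sum_lt_sum_of_nonempty ⟨0, Finset.mem_range.2 hJ⟩ fun j hj => ?_
    exact hc j (Finset.mem_range.1 hj)
  rw [Finset.sum_const, Finset.card_range, nsmul_eq_mul, mul_div_cancel₀ _ hJ0.ne'] at h1
  have h2 : ∑ j ∈ range J,
      ∑ p ∈ n.primeFactors.filter (fun p => Q ^ A ^ j < p ∧ p ≤ (Q ^ A ^ j) ^ A),
        Real.log (p : ℝ) ≤ Real.log n := by
    rw [← Finset.sum_biUnion]
    · refine sum_log_le' hn ?_
      intro p hp
      rw [Finset.mem_biUnion] at hp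
      obtain ⟨j, _, hj⟩ := hp
      exact (Finset.mem_filter.1 hj).1
    · have hlt : ∀ i j, i < j → Disjoint
          (n.primeFactors.filter (fun p => Q ^ A ^ i < p ∧ p ≤ (Q ^ A ^ i) ^ A))
          (n.primeFactors.filter (fun p => Q ^ A ^ j < p ∧ p ≤ (Q ^ A ^ j) ^ A)) := by
        intro i j hij
        rw [Finset.disjoint_left]
        intro p hp hq
        rw [Finset.mem_filter] at hp hq
        have h3 : (Q ^ A ^ i) ^ A ≤ Q ^ A ^ j := by
          rw [← pow_mul, ← pow_succ]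
          exact Nat.pow_le_pow_right hQ (Nat.pow_le_pow_right hA hij)
        have := hp.2.2
        have := hq.2.1
        omega
      intro i _ j _ hij
      rcases lt_or_gt_of_ne hij with h3 | h3
      · exact hlt i j h3
      · exact (hlt j i h3).symm
  linarith

end DK
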