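import Mathlib

/-!
# Gap lemma, energy identity, uniqueness of the solutions of the logarithmic system
-/

namespace DK
open Finset

/-- a function which grows slowly along the edges and is small on the vertices with `a ≠ 2` is small -/
theorem gap {k : ℕ} (a : Fin k → ℕ) (e : Fin k → Fin k → ℕ) (f : Fin k → ℝ) (κ : ℝ)
    (hκ : 0 ≤ κ) (h1 : ∀ i, a i ≠ 2 → f i ≤ κ) (h2 : ∀ i j, e i j ≠ 0 → f j ≤ f i + κ)
    (hsrc : ∀ Z : Finset (Fin k), Z.Nonempty → (∀ l ∈ Z, ∀ i, e i l ≠ 0 → i ∈ Z) →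
      ∃ i ∈ Z, a i ≠ 2) : ∀ i, f i ≤ (k + 1) * κ := by
  classical
  by_contra hcon
  push Not at hcon
  obtain ⟨i0, hi0⟩ := hcon
  let Z : ℕ → Finset (Fin k) := fun t => univ.filter fun i => (t : ℝ) * κ < f i
  have hZ : ∀ t i, i ∈ Z t ↔ (t : ℝ) * κ < f i := fun t i => by simp [Z]
  have hmono : ∀ t, Z (t + 1) ⊆ Z t := by
    intro t i hi
    rw [hZ] at hi ⊢
    push_cast at hi
    nlinarith
  have hi0' : ∀ t, t ≤ k + 1 → i0 ∈ Z t := by
    intro t ht
    rw [hZ]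
    have h3 : (t : ℝ) ≤ k + 1 := by exact_mod_cast ht
    nlinarith
  have hstep : ∀ t, 1 ≤ t → t ≤ k + 1 → (Z (t + 1)).card + 1 ≤ (Z t).card := by
    intro t ht ht'
    have hne : Z (t + 1) ≠ Z t := by
      intro heq
      obtain ⟨i, hi, hai⟩ := hsrc (Z t) ⟨i0, hi0' t ht'⟩ (by
        intro l hl i hil
        rw [← heq, hZ] at hl
        rw [hZ]
        have h3 := h2 i l hil
        push_cast at hl
        nlinarith)
      rw [hZ] at hi
      have h3 := h1 i hai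
      have h4 : (1 : ℝ) ≤ t := by exact_mod_cast ht
      nlinarith
    exact Finset.card_lt_card (Finset.ssubset_iff_subset_ne.2 ⟨hmono t, hne⟩)
  have hcard : ∀ s, s ≤ k → s + 1 ≤ (Z (k + 1 - s)).card := by
    intro s
    induction s with
    | zero =>
      intro _
      exact Finset.card_pos.2 ⟨i0, hi0' _ (by omega)⟩
    | succ s ih =>
      intro hs
      have h3 := ih (by omega)
      have h4 := hstep (k + 1 - (s + 1)) (by omega) (by omega)
      have h5 : k + 1 - (s + 1) + 1 = k + 1 - s := by omega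
      rw [h5] at h4
      omega
  have h6 := hcard k le_rfl
  have h7 := Finset.card_le_univ (Z (k + 1 - k))
  rw [Fintype.card_fin] at h7
  omega

/-- energy identity -/
theorem energy {k : ℕ} (a : Fin k → ℕ) (e : Fin k → Fin k → ℕ) (ρ x h d ζ : Fin k → ℝ) (c : ℝ)
    (hcol : ∀ j, ∑ i, e i j = 2)
    (hw : ∀ i, ∑ j, (e i j : ℝ) * x j * ζ j = a i * x i * ζ i + d i)
    (hA : ∀ i, ∑ j, (e i j : ℝ) * x j = a i * x i + h i - ρ i) :
    ∑ i, ∑ j, (e i j : ℝ) * x j * (ζ j - ζ i) ^ 2 + ∑ i, ((a i : ℝ) - 2) * x i * (ζ i - c) ^ 2 +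
      ∑ i, ρ i * (ζ i ^ 2 - c ^ 2) =
    -2 * ∑ i, (ζ i - c) * d i + 2 * c * ∑ i, (ζ i - c) * h i + ∑ i, h i * (ζ i - c) ^ 2 := by
  have h1 : ∀ i, ∑ j, (e i j : ℝ) * x j * (ζ j - ζ i) ^ 2 =
      ∑ j, (e i j : ℝ) * x j * (ζ j - c) ^ 2 - 2 * (ζ i - c) * ((a i * x i * ζ i + d i) -
        c * (a i * x i + h i - ρ i)) + (ζ i - c) ^ 2 * (a i * x i + h i - ρ i) := by
    intro i
    rw [← hw i, ← hA i, Finset.mul_sum, ← Finset.sum_sub_distrib, Finset.mul_sum, Finset.mul_sum,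
      ← Finset.sum_sub_distrib, ← Finset.sum_add_distrib]
    refine Finset.sum_congr rfl fun j _ => ?_
    ring
  have h2 : ∑ i, ∑ j, (e i j : ℝ) * x j * (ζ j - c) ^ 2 = ∑ j, 2 * x j * (ζ j - c) ^ 2 := by
    rw [Finset.sum_comm]
    refine Finset.sum_congr rfl fun j _ => ?_
    rw [← Finset.sum_mul, ← Finset.sum_mul]
    have h3 : ∑ i, (e i j : ℝ) = 2 := by exact_mod_cast hcol j
    rw [h3]
  rw [Finset.sum_congr rfl fun i _ => h1 i, Finset.sum_add_distrib, Finset.sum_sub_distrib, h2]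
  simp only [Finset.mul_sum]
  rw [← sub_eq_zero]
  simp only [← Finset.sum_sub_distrib, ← Finset.sum_add_distrib]
  refine Finset.sum_eq_zero fun i _ => ?_
  ring

end DK
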