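import Pool.Agent.DK.Basic

/-!
# Parity
-/

namespace DK
open Finset

private theorem sum_mod {p : ℕ} (hp : p % 2 = 1) (m : ℕ) : (∑ i ∈ range m, p ^ i) % 2 = m % 2 := by
  induction m with
  | zero => simp
  | succ m ih =>
    rw [Finset.sum_range_succ, Nat.add_mod, ih, Nat.pow_mod, hp, one_pow]
    omega

theorem even_loc {p : ℕ} (hp : p.Prime) (h2 : p ≠ 2) (n : ℕ) :
    2 ∣ loc n p ↔ Odd (n.factorization p) := by
  have h3 := hp.eq_two_or_odd.resolve_left h2
  rw [loc_eq hp, Nat.dvd_iff_mod_eq_zero, sum_mod h3, Nat.odd_iff]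
  omega

/-- the exponents of the primes other than `2` whose local factor is odd -/
theorem two_le_of_odd {n p : ℕ} (hp : p ∈ n.primeFactors) (ha : ¬ Odd (n.factorization p)) :
    2 ≤ n.factorization p := by
  have h1 := fac_pos hp
  rcases Nat.lt_or_ge (n.factorization p) 2 with h2 | h2
  · exfalso
    apply ha
    have h3 : n.factorization p = 1 := by omega
    rw [h3]
    exact odd_one
  · exact h2

theorem prod_loc_closed {n : ℕ} (h : Sol n) {S : Finset ℕ} (hS : Closed n S) :
    ∏ p ∈ S, loc n p = ∏ l ∈ S, l ^ (∑ p ∈ S, e n p l) := by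
  have h1 : ∀ p ∈ S, loc n p = ∏ l ∈ S, l ^ e n p l := by
    intro p hp
    rw [loc_fac h (hS.1 hp)]
    refine (Finset.prod_subset hS.1 fun l _ hl => ?_).symm
    have : e n p l = 0 := by
      by_contra hc
      exact hl (closed_e hS hp hc)
    rw [this, pow_zero]
  rw [Finset.prod_congr rfl h1, Finset.prod_comm]
  exact Finset.prod_congr rfl fun l _ => Finset.prod_pow_eq_pow_sum _ _ _

theorem closed_all {n : ℕ} (h : Sol n) : Closed n n.primeFactors :=
  ⟨Subset.rfl, fun p hp l hl hd => mem_of_e h hp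
    ((e_pos_iff (Nat.prime_of_mem_primeFactors hp) hl).2 hd)⟩

theorem sum_e_le {n : ℕ} (h : Sol n) {S : Finset ℕ} (hS : S ⊆ n.primeFactors) (l : ℕ) :
    ∑ p ∈ S, e n p l ≤ 2 := by
  by_cases hl : l.Prime
  · have h1 := col h hl
    have h2 : ∑ p ∈ S, e n p l ≤ ∑ p ∈ n.primeFactors, e n p l :=
      Finset.sum_le_sum_of_subset hS
    split_ifs at h1 <;> omega
  · rw [Finset.sum_eq_zero fun p _ => e_eq_zero hl]
    omega

/-- a nonempty closed set contains a prime with odd local exponent, or it does not contain `2` -/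
theorem two_mem {n : ℕ} (h : Sol n) : 2 ∈ n.primeFactors := by
  by_contra hc
  have hodd : ∀ p ∈ n.primeFactors, p ^ 2 < loc n p := by
    intro p hp
    have hpp := Nat.prime_of_mem_primeFactors hp
    have hp2 : p ≠ 2 := fun h => hc (h ▸ hp)
    have h1 : ¬ Odd (n.factorization p) := by
      rw [← even_loc hpp hp2]
      intro hd
      exact hc (mem_of_e h hp ((e_pos_iff hpp Nat.prime_two).2 hd))
    exact lt_of_le_of_lt (Nat.pow_le_pow_right hpp.pos (two_le_of_odd hp h1)) (pow_lt_loc hp)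
  have hne : n.primeFactors.Nonempty := Nat.nonempty_primeFactors.2 h.1
  have hn : n ≠ 0 := by have := h.1; omega
  have h1 : ∏ p ∈ n.primeFactors, p ^ 2 < ∏ p ∈ n.primeFactors, loc n p :=
    Finset.prod_lt_prod_of_nonempty (fun p hp => pow_pos (Nat.prime_of_mem_primeFactors hp).pos _)
      hodd hne
  rw [← sg_prod hn, h.2, rd, Finset.prod_pow] at h1
  exact lt_irrefl _ h1

/-- every closed set with `2` contains an odd prime with odd exponent -/
theorem closed_odd {n : ℕ} (h : Sol n) {S : Finset ℕ} (hS : Closed n S) (h2 : 2 ∈ S) :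
    ∃ p ∈ S, p ≠ 2 ∧ Odd (n.factorization p) := by
  by_contra hc
  push Not at hc
  have h3 : ∑ p ∈ S, e n p 2 = 0 := by
    refine Finset.sum_eq_zero fun p hp => ?_
    have hpp := Nat.prime_of_mem_primeFactors (hS.1 hp)
    by_contra hne
    have hd := (e_pos_iff hpp Nat.prime_two).1 hne
    by_cases hp2 : p = 2
    · subst hp2
      exact not_dvd_loc hpp n hd
    · exact hc p hp hp2 ((even_loc hpp hp2 n).1 hd)
  have h4 := prod_loc_closed h hS
  rw [← Finset.mul_prod_erase S _ h2, ← Finset.mul_prod_erase S (fun l => l ^ _) h2, h3, pow_zero,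
    one_mul] at h4
  have h5 : ∏ l ∈ S.erase 2, l ^ (∑ p ∈ S, e n p l) ≤ ∏ l ∈ S.erase 2, l ^ 2 :=
    Finset.prod_le_prod' fun l hl => Nat.pow_le_pow_right
      (Nat.prime_of_mem_primeFactors (hS.1 (Finset.mem_of_mem_erase hl))).pos (sum_e_le h hS.1 l)
  have h6 : ∏ l ∈ S.erase 2, l ^ 2 ≤ ∏ l ∈ S.erase 2, loc n l := by
    refine Finset.prod_le_prod' fun p hp => ?_
    have hp' := hS.1 (Finset.mem_of_mem_erase hp)
    have hpp := Nat.prime_of_mem_primeFactors hp'
    have h7 := hc p (Finset.mem_of_mem_erase hp) (Finset.ne_of_mem_erase hp)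
    exact (Nat.pow_le_pow_right hpp.pos (two_le_of_odd hp' h7)).trans (pow_lt_loc hp').le
  have h7 : 0 < ∏ l ∈ S.erase 2, loc n l := Finset.prod_pos fun p hp =>
    loc_pos (Nat.prime_of_mem_primeFactors (hS.1 (Finset.mem_of_mem_erase hp))) n
  have h8 : 2 < loc n 2 := by
    refine lt_of_le_of_lt ?_ (pow_lt_loc (hS.1 h2))
    have := Nat.pow_le_pow_right (n := 2) (by norm_num) (fac_pos (hS.1 h2))
    simpa using this
  nlinarith

/-- there are at most two odd primes with odd exponent -/
theorem card_odd {n : ℕ} (h : Sol n) :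
    (n.primeFactors.filter fun p => p ≠ 2 ∧ Odd (n.factorization p)).card ≤ 2 := by
  have h1 := sum_e_le h (Finset.filter_subset (fun p => p ≠ 2 ∧ Odd (n.factorization p)) _) 2
  refine le_trans ?_ h1
  rw [Finset.card_eq_sum_ones]
  refine Finset.sum_le_sum fun p hp => ?_
  rw [Finset.mem_filter] at hp
  have hpp := Nat.prime_of_mem_primeFactors hp.1
  exact Nat.one_le_iff_ne_zero.2 ((e_pos_iff hpp Nat.prime_two).2
    ((even_loc hpp hp.2.1 n).2 hp.2.2))

theorem card_one {n : ℕ} (h : Sol n) :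
    (n.primeFactors.filter fun p => n.factorization p = 1).card ≤ 3 := by
  have h1 : (n.primeFactors.filter fun p => n.factorization p = 1) ⊆
      insert 2 (n.primeFactors.filter fun p => p ≠ 2 ∧ Odd (n.factorization p)) := by
    intro p hp
    rw [Finset.mem_filter] at hp
    rw [Finset.mem_insert, Finset.mem_filter]
    by_cases hp2 : p = 2
    · exact Or.inl hp2
    · refine Or.inr ⟨hp.1, hp2, ?_⟩
      rw [hp.2]
      exact odd_one
  refine (Finset.card_le_card h1).trans ((Finset.card_insert_le _ _).trans ?_)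
  have := card_odd h
  omega

/-- outside a closed set with `2` at most one prime has odd exponent -/
theorem odd_unique {n : ℕ} (h : Sol n) {S : Finset ℕ} (hS : Closed n S) (h2 : 2 ∈ S) {p q : ℕ}
    (hp : p ∈ n.primeFactors \ S) (hq : q ∈ n.primeFactors \ S)
    (hpo : Odd (n.factorization p)) (hqo : Odd (n.factorization q)) : p = q := by
  by_contra hne
  obtain ⟨s, hs, hs2, hso⟩ := closed_odd h hS h2
  rw [Finset.mem_sdiff] at hp hq
  have h3 : ({s, p, q} : Finset ℕ) ⊆
      n.primeFactors.filter fun p => p ≠ 2 ∧ Odd (n.factorization p) := by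
    intro r hr
    rw [Finset.mem_insert, Finset.mem_insert, Finset.mem_singleton] at hr
    rw [Finset.mem_filter]
    rcases hr with rfl | rfl | rfl
    · exact ⟨hS.1 hs, hs2, hso⟩
    · exact ⟨hp.1, fun h => hp.2 (h ▸ h2), hpo⟩
    · exact ⟨hq.1, fun h => hq.2 (h ▸ h2), hqo⟩
  have h4 := (Finset.card_le_card h3).trans (card_odd h)
  have h5 : ({s, p, q} : Finset ℕ).card = 3 := by
    rw [Finset.card_insert_of_notMem, Finset.card_pair hne]
    rw [Finset.mem_insert, Finset.mem_singleton]
    rintro (rfl | rfl)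
    · exact hp.2 hs
    · exact hq.2 hs
  omega

/-- outside a closed set with `2` the primes with odd exponent are joined to `2` -/
theorem odd_two {n : ℕ} {S : Finset ℕ} (h2 : 2 ∈ S) {p : ℕ}
    (hp : p ∈ n.primeFactors \ S) (hpo : Odd (n.factorization p)) : e n p 2 ≠ 0 := by
  rw [Finset.mem_sdiff] at hp
  have hpp := Nat.prime_of_mem_primeFactors hp.1
  exact (e_pos_iff hpp Nat.prime_two).2 ((even_loc hpp (fun h => hp.2 (h ▸ h2)) n).2 hpo)

end DK
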