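import Pool.Agent.DK.Select
import Pool.Agent.DK.Comb

/-!
# The code of a solution
-/

namespace DK
open Finset

/-- the part composed of the primes at most `s` -/
def base {s E : ℕ} (f : Fin (s + 1) → Fin (E + 1)) : ℕ :=
  ∏ p : Fin (s + 1), if p.val.Prime then p.val ^ (f p).val else 1

/-- the starting product -/
def start {y B : ℕ} (F : Finset (Fin (y + 1))) (b : Fin (B + 1)) : ℕ := (∏ p ∈ F, p.val) * b.val

/-- the quotient `rad(A)^2 / σ(A)` -/
def quo (A : ℕ) : ℕ := rd A ^ 2 / sg A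

/-- a relation between the solutions and the codes -/
def Rel (Q : ℕ) {J s E y B N1 N2 Om : ℕ} (n : ℕ) (c : Code J s E y B N1 N2 Om) : Prop :=
  ∃ (S : Finset ℕ) (k : ℕ) (t : Fin k → ℕ) (cc : ℕ → ℕ × ℕ) (gm : ℕ → ℕ),
    Closed n S ∧ 2 ∈ S ∧ Enum n S t ∧ (∀ i, Q < t i) ∧
    part n S = run (start c.2.2.1 c.2.2.2.1) c.2.2.2.2.1.2.blocks (base c.2.1) ∧
    c.2.2.2.2.2.1.2.blocks = List.ofFn (fun i => n.factorization (t i)) ∧
    k ≤ N2 ∧ (∀ j : Fin (N2 + 1), j.val < k → cc j = ((c.2.2.2.2.2.2.1 j).1.val,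
      (c.2.2.2.2.2.2.1 j).2.val)) ∧
    (∀ i j : Fin k, e n (t i) (t j) = (if (cc j).1 = i then 1 else 0) +
      (if (cc j).2 = i then 1 else 0)) ∧
    (∀ m : Fin Om, m.val < (quo (part n S)).primeFactorsList.length →
      gm m = (c.2.2.2.2.2.2.2 m).val) ∧
    (quo (part n S)).primeFactorsList.length ≤ Om ∧
    (∀ i : Fin k, rr n S (t i) = dist (quo (part n S)).primeFactorsList gm i)

theorem rel_unique {Q J s E y B N1 N2 Om : ℕ} {n n' : ℕ} {c : Code J s E y B N1 N2 Om}
    (h : Sol n) (h' : Sol n') (hc : Rel Q n c) (hc' : Rel Q n' c) {L : ℝ}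
    (hL : Real.log n ≤ L) (hL' : Real.log n' ≤ L) (hL1 : 1 ≤ L)
    (hQ : 10 ≤ Q) (hQL : L ≤ Q * Real.log Q) (hQL4 : 400 * L ^ 4 ≤ Q) : n = n' := by
  obtain ⟨S, k, t, cc, gm, hS, h2, E, hQt, hp, ha, hk, hcc, he, hgm, hOm, hr⟩ := hc
  obtain ⟨S', k', t', cc', gm', hS', h2', E', hQt', hp', ha', hk', hcc', he', hgm', hOm', hr'⟩ := hc'
  have hA : part n S = part n' S' := by rw [hp, hp']
  have hl : List.ofFn (fun i => n.factorization (t i)) =
      List.ofFn (fun i => n'.factorization (t' i)) := by rw [← ha, ← ha']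
  have hkk : k = k' := by
    have := congrArg List.length hl
    simpa using this
  subst hkk
  have ha2 := List.ofFn_injective hl
  refine uniqP h h' hS hS' h2 E E' (Q := (Q : ℝ)) hL hL' hL1 (by exact_mod_cast hQ) hQL hQL4
    (fun i => by exact_mod_cast hQt i) (fun i => by exact_mod_cast hQt' i) hA
    (fun i => congrFun ha2 i) ?_ ?_
  · intro i j
    have h3 : cc j = cc' j := by
      have h4 := hcc ⟨j.val, by omega⟩ j.isLt
      have h5 := hcc' ⟨j.val, by omega⟩ j.isLt
      exact h4.trans h5.symm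
    rw [he i j, he' i j, h3]
  · intro i
    rw [hr i, hr' i, ← hA]
    refine dist_congr (fun m hm => ?_) _
    have h4 := hgm ⟨m, by omega⟩ hm
    have h5 := hgm' ⟨m, by omega⟩ (by rw [← hA]; exact hm)
    exact h4.trans h5.symm

theorem quo_part {n : ℕ} (h : Sol n) {S : Finset ℕ} (hS : Closed n S) {k : ℕ} {t : Fin k → ℕ}
    (E : Enum n S t) : quo (part n S) = ∏ i, rr n S (t i) := by
  have h1 := E.prod_rr h hS
  rw [← sg_part hS.1] at h1
  have h2 : rd (part n S) ^ 2 = ∏ l ∈ S, l ^ 2 := by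
    rw [rd, part_primeFactors hS.1, Finset.prod_pow]
  have h3 : 0 < sg (part n S) := by
    rw [sg_part hS.1]
    exact Finset.prod_pos fun p hp => loc_pos (Nat.prime_of_mem_primeFactors (hS.1 hp)) n
  rw [quo, h2, ← h1]
  exact Nat.mul_div_cancel _ h3

private theorem len_prod {S : Finset ℕ} (hS : ∀ l ∈ S, l.Prime) (f : ℕ → ℕ) :
    ArithmeticFunction.cardFactors (∏ l ∈ S, l ^ f l) = ∑ l ∈ S, f l := by
  classical
  induction S using Finset.induction_on with
  | empty => simp
  | insert a S ha ih =>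
    have h1 : a.Prime := hS a (Finset.mem_insert_self _ _)
    have h2 : ∀ l ∈ S, l.Prime := fun l hl => hS l (Finset.mem_insert_of_mem hl)
    rw [Finset.prod_insert ha, Finset.sum_insert ha,
      ArithmeticFunction.cardFactors_mul (pow_ne_zero _ h1.ne_zero)
        (Finset.prod_ne_zero_iff.2 fun l hl => pow_ne_zero _ (h2 l hl).ne_zero),
      ih h2, ArithmeticFunction.cardFactors_pow, ArithmeticFunction.cardFactors_apply_prime h1,
      mul_one]

theorem len_quo {n : ℕ} (h : Sol n) {S : Finset ℕ} (hS : Closed n S) {k : ℕ} {t : Fin k → ℕ}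
    (E : Enum n S t) :
    (quo (part n S)).primeFactorsList.length = ∑ i, ∑ l ∈ S, e n (t i) l := by
  classical
  rw [quo_part h hS E, ← ArithmeticFunction.cardFactors_apply]
  have h1 : ∏ i, rr n S (t i) = ∏ l ∈ S, l ^ (∑ i, e n (t i) l) := by
    simp only [rr]
    rw [Finset.prod_comm]
    exact Finset.prod_congr rfl fun l _ => Finset.prod_pow_eq_pow_sum _ _ _
  rw [h1, len_prod fun l hl => Nat.prime_of_mem_primeFactors (hS.1 hl), Finset.sum_comm]

private theorem base_eq {n s E : ℕ} (f : Fin (s + 1) → Fin (E + 1))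
    (hf : ∀ p : Fin (s + 1), (f p).val = n.factorization p.val) :
    base f = part n (n.primeFactors.filter (fun p => p ≤ s)) := by
  classical
  rw [base, part, Finset.prod_filter, Fin.prod_univ_eq_prod_range
    (fun p => if p.Prime then p ^ (n.factorization p) else 1) (s + 1) |>.symm.trans
    (Finset.prod_congr rfl fun p _ => by rw [hf p]) |>.symm]
  have h1 : ∀ p, (if p.Prime then p ^ (n.factorization p) else 1) = p ^ n.factorization p := by
    intro p
    split_ifs with hp
    · rfl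
    · rw [Nat.factorization_eq_zero_of_not_prime _ hp, pow_zero]
  simp only [h1]
  rw [← Finset.prod_filter]
  refine (Finset.prod_subset ?_ ?_).symm
  · intro p hp
    rw [Finset.mem_filter] at hp
    rw [Finset.mem_range]
    omega
  · intro p hp hp2
    rw [Finset.mem_range] at hp
    have h2 : p ∉ n.primeFactors := fun h => hp2 (Finset.mem_filter.2 ⟨h, by omega⟩)
    have h3 : n.factorization p = 0 := by
      by_contra hc
      apply h2
      rw [← Nat.support_factorization]
      exact Finsupp.mem_support_iff.2 hc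
    rw [h3, pow_zero]

theorem rel_exists {Q J s E y B N1 N2 Om A : ℕ} {n : ℕ} (h : Sol n) {L : ℝ}
    (hL : Real.log n ≤ L) (hA : 1 ≤ A) (hJ : 1 ≤ J) (hQ : 10 ≤ Q) (hy : 10 ≤ y)
    (hyL : L ≤ y * Real.log y) (hs : 1 ≤ s) (hE : L ≤ E * Real.log 2)
    (hB : 3 * (L / A) + 2 * (L / J) + 6 * (A ^ J * Real.log Q) ≤ Real.log B) (hB1 : 1 ≤ B)
    (hN1 : L < (N1 + 1) * Real.log (s + 1)) (hN2 : L < (N2 + 1) * Real.log Q)
    (hOm : 2 * s + (2 * (L / A + L / J) + 3 * (A ^ J * Real.log Q)) / Real.log (s + 1) +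
        2 * (L / Real.log Q) ≤ Om) :
    ∃ c : Code J s E y B N1 N2 Om, Rel Q n c := by
  classical
  have hn : n ≠ 0 := by have := h.1; omega
  obtain ⟨j, hj, S, l, k, t, hS, h2S, En, hQt, hrun, hl, hls, hbig, ha, hedge⟩ :=
    select h hL hA hJ hQ hy hyL hs (Q := Q)
  have hlogQ : 0 < Real.log Q := Real.log_pos (by exact_mod_cast (by omega : 1 < Q))
  have hlogs : 0 < Real.log ((s : ℝ) + 1) := by
    have : (1 : ℝ) ≤ s := by exact_mod_cast hs
    exact Real.log_pos (by linarith)
  have hlog2 : 0 < Real.log 2 := Real.log_pos (by norm_num)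
  -- exponents
  have hexp : ∀ p, n.factorization p ≤ E := by
    intro p
    by_cases hp : p ∈ n.primeFactors
    · have h1 : (n.factorization p : ℝ) * Real.log p ≤ L := by
        have h2 := sum_log_le hn (Finset.singleton_subset_iff.2 hp)
        rw [Finset.sum_singleton] at h2
        linarith
      have h2 : Real.log 2 ≤ Real.log (p : ℝ) := Real.log_le_log (by norm_num)
        (by exact_mod_cast (Nat.prime_of_mem_primeFactors hp).two_le)
      have h3 : (n.factorization p : ℝ) * Real.log 2 ≤ E * Real.log 2 :=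
        (mul_le_mul_of_nonneg_left h2 (Nat.cast_nonneg _)).trans (h1.trans hE)
      exact_mod_cast le_of_mul_le_mul_right h3 hlog2
    · rw [← Nat.support_factorization, Finsupp.notMem_support_iff] at hp
      rw [hp]
      exact Nat.zero_le _
  let f0 : Fin (s + 1) → Fin (E + 1) := fun p => ⟨n.factorization p.val, by
    have := hexp p.val
    omega⟩
  let F : Finset (Fin (y + 1)) := Finset.univ.filter fun p => p.val ∈ n.primeFactors
  obtain ⟨b, hb⟩ : ∃ b, b = ∏ p ∈ Big n A (Q ^ A ^ j), p := ⟨_, rfl⟩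
  have hbB : b ≤ B := by
    have hb0 : 0 < b := by
      rw [hb]
      exact Finset.prod_pos fun p hp => (Nat.prime_of_mem_primeFactors (mem_Big.1 hp).1).pos
    have h1 : Real.log b ≤ Real.log B := by
      refine le_trans ?_ (hbig.trans hB)
      rw [hb, Nat.cast_prod, Real.log_prod fun p hp => by
        have := (Nat.prime_of_mem_primeFactors (mem_Big.1 hp).1).ne_zero
        positivity]
    have h2 := (Real.log_le_log_iff (by exact_mod_cast hb0) (by exact_mod_cast hB1)).1 h1
    exact_mod_cast h2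
  have hl1 : l.sum ≤ N1 := by
    by_contra hc
    have h1 : (N1 : ℝ) + 1 ≤ l.sum := by exact_mod_cast (by omega : N1 + 1 ≤ l.sum)
    have h2 := mul_le_mul_of_nonneg_right h1 hlogs.le
    linarith
  obtain ⟨c1, hc1⟩ := exists_PL l hl hl1
  have hl2 : ∑ i, n.factorization (t i) ≤ N2 := by
    by_contra hc
    have h1 : (N2 : ℝ) + 1 ≤ ((∑ i, n.factorization (t i) : ℕ) : ℝ) := by
      exact_mod_cast (by omega : N2 + 1 ≤ ∑ i, n.factorization (t i))
    have h2 := mul_le_mul_of_nonneg_right h1 hlogQ.le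
    linarith
  obtain ⟨c2, hc2⟩ := exists_PL (N := N2) (List.ofFn fun i => n.factorization (t i)) (by
    intro a ha
    rw [List.mem_ofFn] at ha
    obtain ⟨i, rfl⟩ := ha
    exact fac_pos (En.memP i)) (by
    rw [List.sum_ofFn]
    exact hl2)
  have hk : k ≤ N2 := by
    refine le_trans ?_ hl2
    have h1 : ∑ _i : Fin k, 1 ≤ ∑ i, n.factorization (t i) :=
      Finset.sum_le_sum fun i _ => fac_pos (En.memP i)
    simpa using h1
  -- the columns
  have hcol : ∀ j : Fin k, ∃ c : Fin k × Fin k, ∀ i, e n (t i) (t j) =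
      (if c.1 = i then 1 else 0) + (if c.2 = i then 1 else 0) := fun j =>
    exists_col _ (En.col h hS j)
  choose cf hcf using hcol
  let cc : ℕ → ℕ × ℕ := fun m => if hm : m < k then ((cf ⟨m, hm⟩).1.val, (cf ⟨m, hm⟩).2.val)
    else (0, 0)
  have hcc1 : ∀ j : Fin k, cc j = ((cf j).1.val, (cf j).2.val) := fun j => by
    simp [cc]
  have hcclt : ∀ m, (cc m).1 < N2 + 1 ∧ (cc m).2 < N2 + 1 := by
    intro m
    by_cases hm : m < k
    · have h1 := hcc1 ⟨m, hm⟩
      simp only at h1
      rw [h1]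
      have h3 := (cf ⟨m, hm⟩).1.isLt
      have h4 := (cf ⟨m, hm⟩).2.isLt
      exact ⟨by simp only; omega, by simp only; omega⟩
    · simp [cc, hm]
  -- the assignment
  obtain ⟨gm, hgm, hgmr⟩ := exists_dist (k := k) (quo (part n S)).primeFactorsList
    (fun p hp => Nat.prime_of_mem_primeFactorsList hp) (fun i => rr n S (t i)) (by
      rw [Nat.prod_primeFactorsList, quo_part h hS En]
      rw [quo_part h hS En]
      exact (Finset.prod_pos fun i _ => rr_pos hS.1 _).ne')
  have hOm' : (quo (part n S)).primeFactorsList.length ≤ Om := by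
    rw [len_quo h hS En]
    exact_mod_cast hedge.trans hOm
  refine ⟨⟨⟨j, hj⟩, f0, F, ⟨b, by omega⟩, c1, c2,
    fun m => (⟨(cc m).1, (hcclt m).1⟩, ⟨(cc m).2, (hcclt m).2⟩),
    fun m => if hm : gm m < N2 + 1 then ⟨gm m, hm⟩ else 0⟩,
    S, k, t, cc, gm, hS, h2S, En, hQt, ?_, hc2, hk, fun _ _ => rfl, ?_, ?_, hOm', hgmr⟩
  · show part n S = run (start F _) c1.2.blocks (base f0)
    rw [hc1, base_eq f0 fun _ => rfl, ← hrun]
    congr 1
    rw [start, gg, ← hb]
    congr 1
    have h1 : (n.primeFactors.filter fun p => p ≤ y) = F.image fun p => p.val := by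
      ext p
      rw [Finset.mem_filter, Finset.mem_image]
      constructor
      · rintro ⟨h3, h4⟩
        exact ⟨⟨p, by omega⟩, Finset.mem_filter.2 ⟨Finset.mem_univ _, h3⟩, rfl⟩
      · rintro ⟨q, hq, rfl⟩
        exact ⟨(Finset.mem_filter.1 hq).2, by have := q.isLt; omega⟩
    rw [h1, Finset.prod_image fun a _ b _ hab => Fin.ext hab]
  · intro i j
    rw [hcf j i, hcc1 j]
    simp [Fin.ext_iff]
  · intro m hm
    have h1 : gm m < N2 + 1 := by
      have := hgm m hm
      omega
    simp [h1]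

end DK
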