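import Pool.Agent.DK.Parity

/-!
# Source lemma: a set of primes without incoming edges is not composed of large primes with `a = 2`
-/

namespace DK
open Finset

theorem src {n : ℕ} (h : Sol n) (Z : Finset ℕ) (hZ : Z ⊆ n.primeFactors) (hne : Z.Nonempty)
    (hin : ∀ l ∈ Z, ∀ p ∈ n.primeFactors, e n p l ≠ 0 → p ∈ Z)
    (ha : ∀ p ∈ Z, n.factorization p = 2) (y : ℝ) (hy : ∀ p ∈ Z, y < (p : ℝ)) (hy10 : 10 ≤ y)
    (hyl : Real.log n ≤ y * Real.log y) : False := by
  have hn : n ≠ 0 := by have := h.1; omega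
  have hpr : ∀ p ∈ Z, p.Prime := fun p hp => Nat.prime_of_mem_primeFactors (hZ hp)
  -- the product of the local factors
  have h1 : ∏ p ∈ Z, loc n p = ∏ l ∈ n.primeFactors, l ^ (∑ p ∈ Z, e n p l) := by
    rw [Finset.prod_congr rfl fun p hp => loc_fac h (hZ hp), Finset.prod_comm]
    exact Finset.prod_congr rfl fun l _ => Finset.prod_pow_eq_pow_sum _ _ _
  have h2 : ∀ l ∈ Z, ∑ p ∈ Z, e n p l = 2 := by
    intro l hl
    have h3 := col h (hpr l hl)
    rw [if_pos (hZ hl)] at h3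
    rw [← h3]
    refine Finset.sum_subset hZ fun p hp hpZ => ?_
    by_contra hc
    exact hpZ (hin l hl p hp hc)
  have h3 : ∏ p ∈ Z, loc n p = (∏ l ∈ n.primeFactors \ Z, l ^ (∑ p ∈ Z, e n p l)) *
      ∏ l ∈ Z, l ^ 2 := by
    rw [h1, ← Finset.prod_sdiff hZ]
    congr 1
    exact Finset.prod_congr rfl fun l hl => by rw [h2 l hl]
  have h4 : ∏ l ∈ Z, l ^ 2 < ∏ p ∈ Z, loc n p := by
    refine Finset.prod_lt_prod_of_nonempty (fun p hp => pow_pos (hpr p hp).pos _) ?_ hne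
    intro p hp
    have := pow_lt_loc (hZ hp)
    rwa [ha p hp] at this
  have h5 : 2 * ∏ l ∈ Z, l ^ 2 ≤ ∏ p ∈ Z, loc n p := by
    rw [h3] at h4 ⊢
    refine Nat.mul_le_mul_right _ ?_
    by_contra hc
    have h6 : ∏ l ∈ n.primeFactors \ Z, l ^ (∑ p ∈ Z, e n p l) ≤ 1 := by omega
    have h7 := Nat.mul_le_mul_right (∏ l ∈ Z, l ^ 2) h6
    omega
  -- logarithms
  have hy0 : 0 < y := by linarith
  have hlogy : 0 < Real.log y := Real.log_pos (by linarith)
  have hcard : (Z.card : ℝ) ≤ y / 2 := by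
    have h6 := sum_log_le hn hZ
    have h7 : ∑ p ∈ Z, (2 * Real.log y) ≤ ∑ p ∈ Z, (n.factorization p : ℝ) * Real.log p := by
      refine Finset.sum_le_sum fun p hp => ?_
      rw [ha p hp]
      have := Real.log_le_log hy0 (hy p hp).le
      push_cast
      linarith
    rw [Finset.sum_const, nsmul_eq_mul] at h7
    have h8 : (Z.card : ℝ) * (2 * Real.log y) ≤ y * Real.log y := by linarith
    have h9 : (Z.card : ℝ) * 2 ≤ y := by
      have h10 : ((Z.card : ℝ) * 2) * Real.log y ≤ y * Real.log y := by linarith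
      exact le_of_mul_le_mul_right h10 hlogy
    linarith
  have h6 : Real.log 2 + ∑ l ∈ Z, Real.log ((l : ℝ) ^ 2) ≤ ∑ p ∈ Z, Real.log (loc n p) := by
    have h7 : (2 : ℝ) * ∏ l ∈ Z, (l : ℝ) ^ 2 ≤ ∏ p ∈ Z, (loc n p : ℝ) := by exact_mod_cast h5
    have h8 : ∀ l ∈ Z, ((l : ℝ) ^ 2) ≠ 0 := fun l hl => by
      have := (hpr l hl).ne_zero
      positivity
    have h9 : ∀ l ∈ Z, (loc n l : ℝ) ≠ 0 := fun l hl => by
      exact_mod_cast loc_ne (hpr l hl) n
    rw [← Real.log_prod h8, ← Real.log_prod h9, ← Real.log_mul two_ne_zero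
      (Finset.prod_ne_zero_iff.2 h8)]
    refine Real.log_le_log ?_ h7
    exact mul_pos two_pos (Finset.prod_pos fun l hl => lt_of_le_of_ne (sq_nonneg _) (h8 l hl).symm)
  have h7 : ∀ p ∈ Z, Real.log (loc n p) ≤ Real.log ((p : ℝ) ^ 2) + (1 / y + 1 / y ^ 2) := by
    intro p hp
    have hp0 : (0 : ℝ) < p := by exact_mod_cast (hpr p hp).pos
    have h8 : (loc n p : ℝ) = (p : ℝ) ^ 2 * (1 + (1 / p + 1 / (p : ℝ) ^ 2)) := by
      rw [loc_eq (hpr p hp), ha p hp, Finset.sum_range_succ, Finset.sum_range_succ,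
        Finset.sum_range_one]
      push_cast
      field_simp
      ring
    have h9 : (0 : ℝ) < 1 / p + 1 / (p : ℝ) ^ 2 := by positivity
    rw [h8, Real.log_mul (by positivity) (by positivity)]
    have h10 : Real.log (1 + (1 / p + 1 / (p : ℝ) ^ 2)) ≤ 1 / p + 1 / (p : ℝ) ^ 2 := by
      have := Real.log_le_sub_one_of_pos (show (0 : ℝ) < 1 + (1 / p + 1 / (p : ℝ) ^ 2) by positivity)
      linarith
    have h11 : (1 : ℝ) / p ≤ 1 / y := one_div_le_one_div_of_le hy0 (hy p hp).le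
    have h12 : (1 : ℝ) / (p : ℝ) ^ 2 ≤ 1 / y ^ 2 :=
      one_div_le_one_div_of_le (by positivity) (pow_le_pow_left₀ hy0.le (hy p hp).le 2)
    linarith
  have h8 := Finset.sum_le_sum h7
  rw [Finset.sum_add_distrib, Finset.sum_const, nsmul_eq_mul] at h8
  have h9 : Real.log 2 ≤ (Z.card : ℝ) * (1 / y + 1 / y ^ 2) := by linarith
  have h10 : (Z.card : ℝ) * (1 / y + 1 / y ^ 2) ≤ y / 2 * (1 / y + 1 / y ^ 2) :=
    mul_le_mul_of_nonneg_right hcard (by positivity)
  have h11 : y / 2 * (1 / y + 1 / y ^ 2) = 1 / 2 + 1 / 2 * (1 / y) := by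
    field_simp
  have h12 : 1 / y ≤ 1 / 10 := one_div_le_one_div_of_le (by norm_num) hy10
  have h13 := Real.log_two_gt_d9
  linarith

end DK
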