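import Pool.Agent.DK.Flow
import Pool.Agent.DK.Src

/-!
# Unitary divisors and the discovery run
-/

namespace DK
open Finset

theorem part_ne {n : ℕ} {S : Finset ℕ} (hS : S ⊆ n.primeFactors) : part n S ≠ 0 := by
  rw [part]
  exact Finset.prod_ne_zero_iff.2 fun p hp =>
    pow_ne_zero _ (Nat.prime_of_mem_primeFactors (hS hp)).ne_zero

theorem part_fac {n : ℕ} {S : Finset ℕ} (hS : S ⊆ n.primeFactors) (q : ℕ) :
    (part n S).factorization q = if q ∈ S then n.factorization q else 0 := by
  classical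
  rw [part, Nat.factorization_prod fun p hp =>
    pow_ne_zero _ (Nat.prime_of_mem_primeFactors (hS hp)).ne_zero, Finsupp.finsetSum_apply]
  have h1 : ∀ p ∈ S, (p ^ n.factorization p).factorization q =
      if p = q then n.factorization q else 0 := by
    intro p hp
    rw [(Nat.prime_of_mem_primeFactors (hS hp)).factorization_pow, Finsupp.single_apply]
    split_ifs with h
    · rw [h]
    · rfl
  rw [Finset.sum_congr rfl h1, Finset.sum_ite_eq']

theorem part_primeFactors {n : ℕ} {S : Finset ℕ} (hS : S ⊆ n.primeFactors) :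
    (part n S).primeFactors = S := by
  ext q
  rw [← Nat.support_factorization, Finsupp.mem_support_iff, part_fac hS]
  constructor
  · intro h
    by_contra hc
    rw [if_neg hc] at h
    exact h rfl
  · intro h
    rw [if_pos h]
    have := fac_pos (hS h)
    omega

theorem part_all {n : ℕ} (hn : n ≠ 0) : part n n.primeFactors = n := by
  conv_rhs => rw [← Nat.prod_factorization_pow_eq_self hn]
  rw [part, Finsupp.prod, Nat.support_factorization]

theorem dvd_part {n : ℕ} {S : Finset ℕ} (hS : S ⊆ n.primeFactors) {q : ℕ} (hq : q.Prime) :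
    q ∣ part n S ↔ q ∈ S := by
  rw [← part_primeFactors hS, Nat.mem_primeFactors, part_primeFactors hS]
  exact ⟨fun h => ⟨hq, h, part_ne hS⟩, fun h => h.2.1⟩

theorem sg_part {n : ℕ} {S : Finset ℕ} (hS : S ⊆ n.primeFactors) :
    sg (part n S) = ∏ p ∈ S, loc n p := by
  rw [sg_prod (part_ne hS), part_primeFactors hS]
  refine Finset.prod_congr rfl fun p hp => ?_
  rw [loc, loc, part_fac hS, if_pos hp]

/-- the next prime -/
noncomputable def nx (g A : ℕ) : ℕ := sInf {p | p.Prime ∧ p ∣ g * sg A ∧ ¬ p ∣ A}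

/-- the discovery run -/
noncomputable def run (g : ℕ) : List ℕ → ℕ → ℕ
  | [], A => A
  | a :: l, A => run g l (A * nx g A ^ a)

theorem run_exists {n : ℕ} (h : Sol n) {g : ℕ}
    (hg : ∀ q, q.Prime → q ∣ g → q ∈ n.primeFactors) :
    ∀ (m : ℕ) (T : Finset ℕ), T ⊆ n.primeFactors → (n.primeFactors \ T).card = m →
      ∃ (S : Finset ℕ) (l : List ℕ), Closed n S ∧ (∀ q, q.Prime → q ∣ g → q ∈ S) ∧ T ⊆ S ∧
        run g l (part n T) = part n S ∧ (∀ a ∈ l, 1 ≤ a) ∧
        l.sum = ∑ p ∈ S \ T, n.factorization p := by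
  classical
  intro m
  induction m with
  | zero =>
    intro T hT hcard
    have h1 : T = n.primeFactors := by
      refine Finset.Subset.antisymm hT ?_
      rw [← Finset.sdiff_eq_empty_iff_subset]
      exact Finset.card_eq_zero.1 hcard
    refine ⟨T, [], ?_, ?_, Subset.rfl, rfl, by simp, by simp⟩
    · rw [h1]; exact closed_all h
    · rw [h1]; exact hg
  | succ m ih =>
    intro T hT hcard
    by_cases hex : ∃ p, p.Prime ∧ p ∣ g * sg (part n T) ∧ ¬ p ∣ part n T
    · have hmem : nx g (part n T) ∈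
          {p | p.Prime ∧ p ∣ g * sg (part n T) ∧ ¬ p ∣ part n T} := Nat.sInf_mem hex
      obtain ⟨q, hq⟩ : ∃ q, q = nx g (part n T) := ⟨_, rfl⟩
      rw [← hq] at hmem
      obtain ⟨hqp, hqd, hqn⟩ := hmem
      have hqT : q ∉ T := fun hc => hqn ((dvd_part hT hqp).2 hc)
      have hqP : q ∈ n.primeFactors := by
        rcases (hqp.dvd_mul).1 hqd with h1 | h1
        · exact hg q hqp h1
        · rw [sg_part hT] at h1
          obtain ⟨p, hp, hpd⟩ := (hqp.prime.dvd_finsetProd_iff _).1 h1
          exact (closed_all h).2 p (hT hp) q hqp hpd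
      have hT' : insert q T ⊆ n.primeFactors := Finset.insert_subset hqP hT
      obtain ⟨S, l, hS, hGS, hTS, hrun, hl, hsum⟩ := ih (insert q T) hT' (by
        rw [Finset.sdiff_insert, Finset.card_erase_of_mem (Finset.mem_sdiff.2 ⟨hqP, hqT⟩), hcard]
        omega)
      refine ⟨S, n.factorization q :: l, hS, hGS, (Finset.subset_insert _ _).trans hTS, ?_, ?_, ?_⟩
      · rw [run, ← hq, ← hrun]
        congr 1
        rw [part, part, Finset.prod_insert hqT, mul_comm]
      · intro a ha
        rw [List.mem_cons] at ha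
        rcases ha with rfl | ha
        · exact fac_pos hqP
        · exact hl a ha
      · rw [List.sum_cons, hsum]
        have hqS : q ∈ S := hTS (Finset.mem_insert_self _ _)
        rw [Finset.sdiff_insert, Finset.add_sum_erase _ _ (Finset.mem_sdiff.2 ⟨hqS, hqT⟩)]
    · push Not at hex
      refine ⟨T, [], ⟨hT, ?_⟩, ?_, Subset.rfl, rfl, by simp, by simp⟩
      · intro p hp l hl hd
        rw [← dvd_part hT hl]
        refine hex l hl (Dvd.dvd.mul_left ?_ _)
        rw [sg_part hT]
        exact hd.trans (Finset.dvd_prod_of_mem _ hp)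
      · intro p hpp hp
        rw [← dvd_part hT hpp]
        exact hex p hpp (Dvd.dvd.mul_right hp _)

/-- a closed set with the special primes contains all the small primes -/
theorem low_subset {n : ℕ} (h : Sol n) {S : Finset ℕ} (hS : Closed n S) (A Y : ℕ) (y : ℝ)
    (hy10 : 10 ≤ y) (hyl : Real.log n ≤ y * Real.log y)
    (hsm : ∀ p ∈ n.primeFactors, (p : ℝ) ≤ y → p ∈ S) (hB : Big n A Y ⊆ S) :
    ∀ p ∈ n.primeFactors, p ≤ Y → p ∈ S := by
  classical
  by_contra hc
  push Not at hc
  obtain ⟨p0, hp0, hp0Y, hp0S⟩ := hc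
  have hnB : ∀ p ∈ n.primeFactors, p ≤ Y → p ∉ S → n.factorization p = 2 ∧
      ∀ q ∈ n.primeFactors, e n q p ≠ 0 → q ∈ Lo n A Y := by
    intro p hp hpY hpS
    have h1 : p ∉ Big n A Y := fun hc => hpS (hB hc)
    rw [mem_Big] at h1
    constructor
    · by_contra hc
      exact h1 ⟨hp, hpY, Or.inl hc⟩
    · intro q hq hqe
      by_contra hc
      exact h1 ⟨hp, hpY, Or.inr ⟨q, Finset.mem_sdiff.2 ⟨hq, hc⟩, hqe⟩⟩
  refine src h (n.primeFactors.filter fun p => p ≤ Y ∧ p ∉ S) (Finset.filter_subset _ _)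
    ⟨p0, Finset.mem_filter.2 ⟨hp0, hp0Y, hp0S⟩⟩ ?_ ?_ y ?_ hy10 hyl
  · intro l hl p hp hpe
    rw [Finset.mem_filter] at hl ⊢
    have h1 := (hnB l hl.1 hl.2.1 hl.2.2).2 p hp hpe
    refine ⟨hp, (mem_Lo.1 h1).2.1, fun hpS => hl.2.2 (closed_e hS hpS hpe)⟩
  · intro p hp
    rw [Finset.mem_filter] at hp
    exact (hnB p hp.1 hp.2.1 hp.2.2).1
  · intro p hp
    rw [Finset.mem_filter] at hp
    by_contra hc
    push Not at hc
    exact hp.2.2 (hsm p hp.1 hc)

end DK
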