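import Pool.Agent.DK.UniqP

/-!
# The choice of the level and of the closed set for one solution
-/

namespace DK
open Finset

theorem exists_enum (n : ℕ) (S : Finset ℕ) : ∃ (k : ℕ) (t : Fin k → ℕ), Enum n S t := by
  classical
  refine ⟨(n.primeFactors \ S).card, fun i => ((n.primeFactors \ S).equivFin.symm i).1, ?_, ?_⟩
  · intro i j hij
    exact (n.primeFactors \ S).equivFin.symm.injective (Subtype.ext hij)
  · intro p
    constructor
    · intro hp
      exact ⟨(n.primeFactors \ S).equivFin ⟨p, hp⟩, by simp⟩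
    · rintro ⟨i, rfl⟩
      exact ((n.primeFactors \ S).equivFin.symm i).2

/-- the starting product -/
noncomputable def gg (n A Y y : ℕ) : ℕ :=
  (∏ p ∈ n.primeFactors.filter (fun p => p ≤ y), p) * ∏ p ∈ Big n A Y, p

private theorem log_Y (Q A J j : ℕ) (hQ : 1 ≤ Q) (hA : 1 ≤ A) (hj : j < J) :
    Real.log ((Q ^ A ^ j : ℕ) : ℝ) ≤ (A : ℝ) ^ J * Real.log Q := by
  rw [Nat.cast_pow, Real.log_pow]
  refine mul_le_mul_of_nonneg_right ?_ (Real.log_natCast_nonneg Q)
  rw [Nat.cast_pow]
  exact pow_le_pow_right₀ (by exact_mod_cast hA) hj.le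

private theorem sum_fac_le {n : ℕ} (hn : n ≠ 0) {T : Finset ℕ} (hT : T ⊆ n.primeFactors) {c L : ℝ}
    (hL : Real.log n ≤ L) (hc : ∀ p ∈ T, c ≤ Real.log p) :
    ((∑ p ∈ T, n.factorization p : ℕ) : ℝ) * c ≤ L := by
  refine le_trans ?_ hL
  refine le_trans ?_ (sum_log_le hn hT)
  rw [Nat.cast_sum, Finset.sum_mul]
  exact Finset.sum_le_sum fun p hp => mul_le_mul_of_nonneg_left (hc p hp) (Nat.cast_nonneg _)

theorem select {n : ℕ} (h : Sol n) {L : ℝ} (hL : Real.log n ≤ L) {Q A J s y : ℕ} (hA : 1 ≤ A)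
    (hJ : 1 ≤ J) (hQ : 10 ≤ Q) (hy : 10 ≤ y) (hyL : L ≤ y * Real.log y) (hs : 1 ≤ s) :
    ∃ j < J, ∃ (S : Finset ℕ) (l : List ℕ) (k : ℕ) (t : Fin k → ℕ), Closed n S ∧ 2 ∈ S ∧
      Enum n S t ∧ (∀ i, Q < t i) ∧
      run (gg n A (Q ^ A ^ j) y) l (part n (n.primeFactors.filter (fun p => p ≤ s))) = part n S ∧
      (∀ a ∈ l, 1 ≤ a) ∧ (l.sum : ℝ) * Real.log (s + 1) ≤ L ∧
      ∑ p ∈ Big n A (Q ^ A ^ j), Real.log p ≤ 3 * (L / A) + 2 * (L / J) + 6 * (A ^ J * Real.log Q) ∧
      ((∑ i, n.factorization (t i) : ℕ) : ℝ) * Real.log Q ≤ L ∧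
      ((∑ i, ∑ l ∈ S, e n (t i) l : ℕ) : ℝ) ≤ 2 * s +
        (2 * (L / A + L / J) + 3 * (A ^ J * Real.log Q)) / Real.log (s + 1) +
        2 * (L / Real.log Q) := by
  classical
  have hn : n ≠ 0 := by have := h.1; omega
  have hA0 : (0 : ℝ) < A := by exact_mod_cast hA
  have hJ0 : (0 : ℝ) < J := by exact_mod_cast hJ
  have hQ1 : 1 ≤ Q := by omega
  obtain ⟨j, hj, hpig⟩ := pig hn Q A J hQ1 hA hJ
  obtain ⟨Y, hY⟩ : ∃ Y, Y = Q ^ A ^ j := ⟨_, rfl⟩
  rw [← hY] at hpig
  have hQY : Q ≤ Y := by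
    rw [hY]
    calc Q = Q ^ 1 := (pow_one Q).symm
      _ ≤ Q ^ A ^ j := Nat.pow_le_pow_right hQ1 (Nat.one_le_pow _ _ hA)
  have hY1 : 1 ≤ Y := by omega
  have hpig' : ∑ p ∈ n.primeFactors.filter (fun p => Y < p ∧ p ≤ Y ^ A), Real.log (p : ℝ) ≤
      L / J := hpig.trans (div_le_div_of_nonneg_right hL hJ0.le)
  have hlY : Real.log Y ≤ A ^ J * Real.log Q := by rw [hY]; exact log_Y Q A J j hQ1 hA hj
  have hLA : Real.log n / A ≤ L / A := div_le_div_of_nonneg_right hL hA0.le
  have hbig := big_le h A Y hA hY1 _ hpig'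
  have hhit := hits_le h A Y hA hY1 _ hpig'
  set T0 := n.primeFactors.filter (fun p => p ≤ s) with hT0
  have hT0P : T0 ⊆ n.primeFactors := Finset.filter_subset _ _
  have hg : ∀ q, q.Prime → q ∣ gg n A Y y → q ∈ n.primeFactors := by
    intro q hq hqd
    rw [gg] at hqd
    rcases (hq.dvd_mul).1 hqd with h1 | h1
    · obtain ⟨p, hp, hpd⟩ := (hq.prime.dvd_finsetProd_iff _).1 h1
      have hp' := (Finset.mem_filter.1 hp).1
      rw [(Nat.prime_dvd_prime_iff_eq hq (Nat.prime_of_mem_primeFactors hp')).1 hpd]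
      exact hp'
    · obtain ⟨p, hp, hpd⟩ := (hq.prime.dvd_finsetProd_iff _).1 h1
      have hp' := (mem_Big.1 hp).1
      rw [(Nat.prime_dvd_prime_iff_eq hq (Nat.prime_of_mem_primeFactors hp')).1 hpd]
      exact hp'
  obtain ⟨S, l, hS, hgS, hTS, hrun, hl, hsum⟩ := run_exists h hg _ T0 hT0P rfl
  have hsm : ∀ p ∈ n.primeFactors, p ≤ y → p ∈ S := by
    intro p hp hpy
    refine hgS p (Nat.prime_of_mem_primeFactors hp) ?_
    rw [gg]
    exact (Finset.dvd_prod_of_mem (fun p => p) (Finset.mem_filter.2 ⟨hp, hpy⟩)).mul_right _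
  have hBS : Big n A Y ⊆ S := by
    intro p hp
    refine hgS p (Nat.prime_of_mem_primeFactors (mem_Big.1 hp).1) ?_
    rw [gg]
    exact (Finset.dvd_prod_of_mem (fun p => p) hp).mul_left _
  have hlow := low_subset h hS A Y (y : ℝ) (by exact_mod_cast hy) (hL.trans hyL)
    (fun p hp hpy => hsm p hp (by exact_mod_cast hpy)) hBS
  have h2S : 2 ∈ S := hsm 2 (two_mem h) (by omega)
  obtain ⟨k, t, E⟩ := exists_enum n S
  have htY : ∀ i, Y < t i := by
    intro i
    have h1 := Finset.mem_sdiff.1 (E.mem' i)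
    by_contra hc
    exact h1.2 (hlow _ h1.1 (by omega))
  have hlogQ : 0 < Real.log Q := Real.log_pos (by exact_mod_cast (by omega : 1 < Q))
  have hlogs : 0 < Real.log ((s : ℝ) + 1) := by
    have : (1 : ℝ) ≤ s := by exact_mod_cast hs
    exact Real.log_pos (by linarith)
  refine ⟨j, hj, S, l, k, t, hS, h2S, E, fun i => lt_of_le_of_lt hQY (htY i), ?_, hl, ?_, ?_, ?_, ?_⟩
  · rw [← hY]
    exact hrun
  · rw [hsum]
    refine sum_fac_le hn (Finset.sdiff_subset.trans hS.1) hL fun p hp => ?_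
    rw [Finset.mem_sdiff] at hp
    have h1 : s < p := by
      by_contra hc
      exact hp.2 (Finset.mem_filter.2 ⟨hS.1 hp.1, by omega⟩)
    refine Real.log_le_log (by positivity) ?_
    exact_mod_cast h1
  · rw [← hY]
    linarith
  · rw [← E.sum fun p => n.factorization p]
    refine sum_fac_le hn Finset.sdiff_subset hL fun p hp => ?_
    obtain ⟨i, rfl⟩ := (E.mem p).1 hp
    refine Real.log_le_log (by exact_mod_cast hQ1) ?_
    exact_mod_cast (lt_of_le_of_lt hQY (htY i)).le
  · -- the number of edges from the outside to `S`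
    rw [← E.sum fun p => ∑ l ∈ S, e n p l, Finset.sum_comm, Nat.cast_sum]
    set W := n.primeFactors.filter (fun p => p ≤ Y ^ A) with hW
    have hTLo : n.primeFactors \ S ⊆ n.primeFactors \ Lo n A Y := by
      intro p hp
      rw [Finset.mem_sdiff] at hp ⊢
      refine ⟨hp.1, fun hc => hp.2 ?_⟩
      exact hlow p hp.1 (mem_Lo.1 hc).2.1
    -- decomposition of `S`
    have hterm : ∀ l ∈ S, ((∑ p ∈ n.primeFactors \ S, e n p l : ℕ) : ℝ) ≤
        (if l ≤ s then 2 else 0) + (if l ≤ Y ^ A then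
          (∑ p ∈ n.primeFactors \ Lo n A Y, (e n p l : ℝ) * Real.log l) / Real.log (s + 1) else 0) +
        (if Y ^ A < l then 2 * Real.log l / Real.log Q else 0) := by
      intro l hl
      have hlP := hS.1 hl
      have hl0 := log_nonneg' (l := l)
      have hnn : 0 ≤ ∑ p ∈ n.primeFactors \ Lo n A Y, (e n p l : ℝ) * Real.log l :=
        Finset.sum_nonneg fun p _ => mul_nonneg (Nat.cast_nonneg _) hl0
      have h2 : ((∑ p ∈ n.primeFactors \ S, e n p l : ℕ) : ℝ) ≤ 2 := by
        exact_mod_cast sum_e_le h (Finset.sdiff_subset (s := n.primeFactors) (t := S)) l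
      rcases le_or_gt l s with h3 | h3
      · rw [if_pos h3]
        have h4 : 0 ≤ (if l ≤ Y ^ A then
          (∑ p ∈ n.primeFactors \ Lo n A Y, (e n p l : ℝ) * Real.log l) / Real.log (s + 1) else 0) := by
          split_ifs
          · exact div_nonneg hnn hlogs.le
          · exact le_rfl
        have h5 : 0 ≤ (if Y ^ A < l then 2 * Real.log l / Real.log Q else 0) := by
          split_ifs
          · exact div_nonneg (by linarith) hlogQ.le
          · exact le_rfl
        linarith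
      · rw [if_neg (by omega)]
        rcases le_or_gt l (Y ^ A) with h4 | h4
        · rw [if_pos h4, if_neg (by omega), zero_add, add_zero, le_div_iff₀ hlogs, Nat.cast_sum,
            Finset.sum_mul]
          have h5 : Real.log ((s : ℝ) + 1) ≤ Real.log l :=
            Real.log_le_log (by positivity) (by exact_mod_cast h3)
          refine (Finset.sum_le_sum fun p _ => mul_le_mul_of_nonneg_left h5
            (Nat.cast_nonneg _)).trans ?_
          exact Finset.sum_le_sum_of_subset_of_nonneg hTLo fun p _ _ =>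
            mul_nonneg (Nat.cast_nonneg _) hl0
        · rw [if_neg (by omega), if_pos h4, add_zero, zero_add]
          refine h2.trans ?_
          rw [le_div_iff₀ hlogQ]
          refine mul_le_mul_of_nonneg_left ?_ (by norm_num)
          refine Real.log_le_log (by exact_mod_cast hQ1) ?_
          have h5 : Y ≤ Y ^ A := by
            calc Y = Y ^ 1 := (pow_one Y).symm
              _ ≤ Y ^ A := Nat.pow_le_pow_right hY1 hA
          exact_mod_cast (by omega : Q ≤ l)
    refine (Finset.sum_le_sum hterm).trans ?_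
    rw [Finset.sum_add_distrib, Finset.sum_add_distrib]
    refine add_le_add (add_le_add ?_ ?_) ?_
    · rw [← Finset.sum_filter, Finset.sum_const, nsmul_eq_mul, mul_comm]
      refine mul_le_mul_of_nonneg_left ?_ (by norm_num)
      have h3 : S.filter (fun l => l ≤ s) ⊆ Finset.Icc 1 s := by
        intro l hl
        rw [Finset.mem_filter] at hl
        rw [Finset.mem_Icc]
        exact ⟨(Nat.prime_of_mem_primeFactors (hS.1 hl.1)).pos, hl.2⟩
      have h4 := Finset.card_le_card h3
      rw [Nat.card_Icc] at h4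
      exact_mod_cast (by omega : (S.filter (fun l => l ≤ s)).card ≤ s)
    · rw [← Finset.sum_filter, ← Finset.sum_div]
      refine div_le_div_of_nonneg_right ?_ hlogs.le
      have h3 : ∑ l ∈ S.filter (fun l => l ≤ Y ^ A),
          ∑ p ∈ n.primeFactors \ Lo n A Y, (e n p l : ℝ) * Real.log l ≤
          ∑ l ∈ W, ∑ p ∈ n.primeFactors \ Lo n A Y, (e n p l : ℝ) * Real.log l := by
        refine Finset.sum_le_sum_of_subset_of_nonneg ?_ fun l _ _ =>
          Finset.sum_nonneg fun p _ => mul_nonneg (Nat.cast_nonneg _) log_nonneg'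
        intro l hl
        rw [Finset.mem_filter] at hl
        rw [hW, Finset.mem_filter]
        exact ⟨hS.1 hl.1, hl.2⟩
      have h4 : 0 ≤ ∑ p ∈ (Lo n A Y).filter (fun p => 3 ≤ n.factorization p), Real.log (p : ℝ) :=
        Finset.sum_nonneg fun _ _ => log_nonneg'
      linarith
    · rw [← Finset.sum_filter, ← Finset.sum_div, ← Finset.mul_sum, mul_div_assoc]
      refine mul_le_mul_of_nonneg_left (div_le_div_of_nonneg_right ?_ hlogQ.le) (by norm_num)
      refine le_trans (sum_log_le' hn ?_) hL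
      exact (Finset.filter_subset _ _).trans hS.1

end DK
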