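import Pool.Agent.DK.Asym

/-!
# The number of solutions up to `x` is at most `x ^ (100 log log log x / log log x)`
-/

namespace DK
open Finset Filter

private theorem ev_bound : ∀ᶠ u : ℝ in atTop, 1 ≤ u ∧ 400 ≤ Real.exp u ∧ 1 ≤ Real.log u ∧
    24 * Real.log u ≤ u ∧ 40 * u ^ 3 ≤ Real.exp (u / 4) := by
  have h1 : ∀ᶠ u : ℝ in atTop, 1 ≤ u := eventually_ge_atTop _
  have h2 : ∀ᶠ u : ℝ in atTop, 400 ≤ Real.exp u := Real.tendsto_exp_atTop.eventually_ge_atTop _
  have h3 : ∀ᶠ u : ℝ in atTop, 1 ≤ Real.log u := Real.tendsto_log_atTop.eventually_ge_atTop _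
  have h4 : ∀ᶠ u : ℝ in atTop, ‖Real.log u‖ ≤ 1 / 24 * ‖u‖ :=
    Real.isLittleO_log_id_atTop.bound (by norm_num)
  have h5 : ∀ᶠ u : ℝ in atTop, 2560 ≤ Real.exp u / u ^ 3 :=
    (Real.tendsto_exp_div_pow_atTop 3).eventually_ge_atTop _
  have h6 : Tendsto (fun u : ℝ => u / 4) atTop atTop := tendsto_id.atTop_div_const (by norm_num)
  filter_upwards [h1, h2, h3, h4, h6.eventually h5] with u h1 h2 h3 h4 h5
  refine ⟨h1, h2, h3, ?_, ?_⟩
  · rw [Real.norm_of_nonneg (by linarith), Real.norm_of_nonneg (by linarith)] at h4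
    linarith
  · have h7 : (0 : ℝ) < (u / 4) ^ 3 := by positivity
    rw [le_div_iff₀ h7] at h5
    have h8 : 2560 * (u / 4) ^ 3 = 40 * u ^ 3 := by ring
    linarith

private theorem bound_u {L u v : ℝ} (hL : L = Real.exp u) (hv : v = Real.log u) (hu1 : 1 ≤ u)
    (hv1 : 1 ≤ v) (hvu : 24 * v ≤ u) (hexp : 40 * u ^ 3 ≤ Real.exp (u / 4)) :
    ∃ m : ℕ, 6 ≤ m ∧ 17 * L / m + 5 * (L / u) +
      (m + 24 * (m : ℝ) ^ (m + 1) + 15) * (√L * u) ≤ 91 * (L * v / u) := by
  have hu0 : 0 < u := by linarith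
  have hv0 : 0 < v := by linarith
  have hL0 : 0 < L := by rw [hL]; exact Real.exp_pos u
  have h6 : 6 ≤ u / (4 * v) := by
    rw [le_div_iff₀ (by positivity)]
    linarith
  have hm1 : (⌊u / (4 * v)⌋₊ : ℝ) ≤ u / (4 * v) := Nat.floor_le (by positivity)
  have hm2 : u / (4 * v) < ⌊u / (4 * v)⌋₊ + 1 := Nat.lt_floor_add_one _
  obtain ⟨m, hm⟩ : ∃ m, m = ⌊u / (4 * v)⌋₊ := ⟨_, rfl⟩
  rw [← hm] at hm1 hm2
  have hm6 : 6 ≤ m := by rw [hm]; exact Nat.le_floor h6
  have hm6' : (6 : ℝ) ≤ m := by exact_mod_cast hm6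
  have hm0 : (0 : ℝ) < m := by linarith
  refine ⟨m, hm6, ?_⟩
  -- the first term
  have t1 : 17 * L / m ≤ 85 * (L * v / u) := by
    have h1 : u / (5 * v) ≤ m := by
      have h2 : u / (5 * v) = 4 / 5 * (u / (4 * v)) := by field_simp
      rw [h2]
      linarith
    have h2 : 17 * L / m ≤ 17 * L / (u / (5 * v)) :=
      div_le_div_of_nonneg_left (by positivity) (by positivity) h1
    have h3 : 17 * L / (u / (5 * v)) = 85 * (L * v / u) := by
      rw [div_div_eq_mul_div]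
      ring
    linarith
  have hLv : L / u ≤ L * v / u := by
    refine div_le_div_of_nonneg_right ?_ hu0.le
    nlinarith
  -- the power
  have hmu : (m : ℝ) ≤ u := by
    refine hm1.trans ?_
    rw [div_le_iff₀ (by positivity)]
    nlinarith
  have hlogm : Real.log m ≤ v := by rw [hv]; exact Real.log_le_log hm0 hmu
  have hpow : (m : ℝ) ^ (m + 1) ≤ u * Real.exp (u / 4) := by
    have h1 : (m : ℝ) ^ (m + 1) = Real.exp ((m + 1) * Real.log m) := by
      rw [mul_comm, ← Real.rpow_def_of_pos hm0, ← Real.rpow_natCast]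
      congr 1
      push_cast
      rfl
    have h2 : ((m : ℝ) + 1) * Real.log m ≤ u / 4 + v := by
      have h3 : ((m : ℝ) + 1) * Real.log m ≤ (u / (4 * v) + 1) * v :=
        mul_le_mul (by linarith) hlogm (Real.log_nonneg (by linarith)) (by positivity)
      have h4 : (u / (4 * v) + 1) * v = u / 4 + v := by field_simp
      linarith
    rw [h1]
    refine (Real.exp_le_exp.2 h2).trans_eq ?_
    rw [Real.exp_add, hv, Real.exp_log hu0, mul_comm]
  have hsq : √L = Real.exp (u / 2) := by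
    rw [hL, Real.exp_half]
  have hE1 : 1 ≤ Real.exp (u / 4) := Real.one_le_exp (by positivity)
  have t3 : (m + 24 * (m : ℝ) ^ (m + 1) + 15) * (√L * u) ≤ L / u := by
    have h1 : (m : ℝ) + 24 * (m : ℝ) ^ (m + 1) + 15 ≤ 40 * (u * Real.exp (u / 4)) := by
      have h2 : u ≤ u * Real.exp (u / 4) := le_mul_of_one_le_right hu0.le hE1
      linarith
    have h2 : (m + 24 * (m : ℝ) ^ (m + 1) + 15) * (√L * u) ≤
        40 * (u * Real.exp (u / 4)) * (Real.exp (u / 2) * u) := by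
      rw [hsq]
      exact mul_le_mul_of_nonneg_right h1 (by positivity)
    refine h2.trans ?_
    rw [le_div_iff₀ hu0]
    have h3 : 40 * (u * Real.exp (u / 4)) * (Real.exp (u / 2) * u) * u =
        (40 * u ^ 3) * (Real.exp (u / 4) * Real.exp (u / 2)) := by ring
    have h4 : L = Real.exp (u / 4) * (Real.exp (u / 4) * Real.exp (u / 2)) := by
      rw [hL, ← Real.exp_add, ← Real.exp_add]
      congr 1
      ring
    rw [h3, h4]
    exact mul_le_mul_of_nonneg_right hexp (by positivity)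
  linarith

theorem sparse : ∃ X : ℕ, ∀ x : ℕ, X ≤ x → ∀ S : Finset ℕ, (∀ n ∈ S, Sol n ∧ n ≤ x) →
    (S.card : ℝ) + 1 ≤ Real.exp (100 * Real.log x * Real.log (Real.log (Real.log x)) /
      Real.log (Real.log x)) := by
  have h0 : Tendsto (fun x : ℕ => Real.log (Real.log x)) atTop atTop :=
    Real.tendsto_log_atTop.comp (Real.tendsto_log_atTop.comp tendsto_natCast_atTop_atTop)
  have h00 : Tendsto (fun x : ℕ => Real.log x) atTop atTop :=
    Real.tendsto_log_atTop.comp tendsto_natCast_atTop_atTop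
  obtain ⟨X, hX⟩ := Filter.eventually_atTop.1
    ((h0.eventually ev_bound).and (h00.eventually_gt_atTop 0))
  refine ⟨X, fun x hx S hS => ?_⟩
  obtain ⟨⟨h1, h2, h3, h4, h5⟩, h6⟩ := hX x hx
  obtain ⟨L, hL⟩ : ∃ L, L = Real.log x := ⟨_, rfl⟩
  rw [← hL] at h1 h2 h3 h4 h5 h6 ⊢
  obtain ⟨u, hu⟩ : ∃ u, u = Real.log L := ⟨_, rfl⟩
  rw [← hu] at h1 h2 h3 h4 h5 ⊢
  obtain ⟨v, hv⟩ : ∃ v, v = Real.log u := ⟨_, rfl⟩
  rw [← hv] at h3 h4 ⊢
  have hLu : L = Real.exp u := by rw [hu, Real.exp_log h6]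
  have hu0 : 0 < u := by linarith
  obtain ⟨m, hm6, hm⟩ := bound_u hLu hv h1 h3 h4 h5
  have h7 := count_le m hm6 hL hu (by rw [hLu]; exact h2) S hS
  have h8 : (S.card : ℝ) ≤ Real.exp (91 * (L * v / u)) := h7.trans (Real.exp_le_exp.2 hm)
  have h9 : 1 ≤ L * v / u := by
    rw [le_div_iff₀ hu0, one_mul]
    have := Real.add_one_le_exp u
    rw [← hLu] at this
    nlinarith
  have h10 : Real.exp (91 * (L * v / u)) * 2 ≤ Real.exp (100 * L * v / u) := by
    have h11 : (2 : ℝ) ≤ Real.exp 1 := by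
      have := Real.add_one_le_exp 1
      linarith
    have h12 : Real.exp (91 * (L * v / u)) * Real.exp 1 ≤ Real.exp (100 * L * v / u) := by
      rw [← Real.exp_add]
      refine Real.exp_le_exp.2 ?_
      have : 100 * L * v / u = 100 * (L * v / u) := by ring
      rw [this]
      linarith
    have h13 := mul_le_mul_of_nonneg_left h11 (Real.exp_pos (91 * (L * v / u))).le
    linarith
  have h14 : 1 ≤ Real.exp (91 * (L * v / u)) := Real.one_le_exp (by linarith)
  linarith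

end DK
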