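import Pool.Agent.DK.Gap

/-!
# Uniqueness of the solutions of the logarithmic system
-/

namespace DK
open Finset

/-- a solution `x` of the logarithmic system -/
structure Sys {k : ℕ} (a : Fin k → ℕ) (e : Fin k → Fin k → ℕ) (ρ : Fin k → ℝ) (δ L : ℝ)
    (x h : Fin k → ℝ) : Prop where
  one : ∀ i, 1 ≤ x i
  up : ∀ i, x i ≤ L
  eq : ∀ i, a i * x i + h i = ρ i + ∑ j, (e i j : ℝ) * x j
  h0 : ∀ i, 0 ≤ h i
  h1 : ∀ i, h i ≤ δ

/-- the conditions on the pattern -/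
structure Pat {k : ℕ} (a : Fin k → ℕ) (e : Fin k → Fin k → ℕ) (ρ : Fin k → ℝ) (L : ℝ) : Prop where
  kL : (k : ℝ) ≤ L
  L1 : 1 ≤ L
  col : ∀ j, ∑ i, e i j = 2
  ρ0 : ∀ i, 0 ≤ ρ i
  ρL : ∑ i, ρ i ≤ 2 * L
  a1 : ∀ i, 1 ≤ a i
  one : ∀ i, a i = 1 → Real.log 2 ≤ ρ i
  uni : ∀ i j, a i = 1 → a j = 1 → i = j
  src : ∀ Z : Finset (Fin k), Z.Nonempty → (∀ l ∈ Z, ∀ i, e i l ≠ 0 → i ∈ Z) → ∃ i ∈ Z, a i ≠ 2

section
variable {k : ℕ} {a : Fin k → ℕ} {e : Fin k → Fin k → ℕ} {ρ : Fin k → ℝ} {δ L : ℝ}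
  {x h : Fin k → ℝ}

private theorem uniq_sq {k : ℕ} (f : Fin k → ℝ) (B : ℝ) (hf : ∀ i, f i ≤ B) :
    ∑ i, f i ≤ k * B := by
  refine (Finset.sum_le_card_nsmul _ _ B fun i _ => hf i).trans ?_
  rw [Finset.card_univ, Fintype.card_fin, nsmul_eq_mul]

theorem bound (P : Pat a e ρ L) (S : Sys a e ρ δ L x h) {z d : Fin k → ℝ}
    (hz : ∀ i, a i * z i + d i = ∑ j, (e i j : ℝ) * z j) (hδ0 : 0 ≤ δ)
    (hd : ∀ i, |d i| ≤ δ * |z i|) {c m : ℝ} (hc : ∀ i, a i = 1 → z i = c * x i)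
    (hm : ∀ i, |z i / x i| ≤ m) (hcm : |c| ≤ m) :
    ∀ i, |z i / x i - c| ≤ (k + 1) * √(2 * L * c ^ 2 + 12 * k * δ * L * m ^ 2) := by
  have hm0 : 0 ≤ m := (abs_nonneg c).trans hcm
  have hx0 : ∀ i, 0 < x i := fun i => lt_of_lt_of_le one_pos (S.one i)
  have hL0 : 0 < L := lt_of_lt_of_le one_pos P.L1
  have hk0 : (0 : ℝ) ≤ k := Nat.cast_nonneg k
  obtain ⟨ζ, hζ⟩ : ∃ ζ : Fin k → ℝ, ζ = fun i => z i / x i := ⟨_, rfl⟩
  have hzx : ∀ i, z i = ζ i * x i := fun i => by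
    rw [hζ]
    exact (div_mul_cancel₀ _ (hx0 i).ne').symm
  have hw : ∀ i, ∑ j, (e i j : ℝ) * x j * ζ j = a i * x i * ζ i + d i := by
    intro i
    have h1 := hz i
    rw [hzx i] at h1
    have h2 : ∑ j, (e i j : ℝ) * x j * ζ j = ∑ j, (e i j : ℝ) * z j :=
      Finset.sum_congr rfl fun j _ => by rw [hzx j]; ring
    rw [h2, ← h1]
    ring
  have hA : ∀ i, ∑ j, (e i j : ℝ) * x j = a i * x i + h i - ρ i := fun i => by
    have := S.eq i
    linarith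
  have hE := energy a e ρ x h d ζ c P.col hw hA
  have hm' : ∀ i, |ζ i| ≤ m := fun i => by rw [hζ]; exact hm i
  have hη : ∀ i, |ζ i - c| ≤ 2 * m := fun i => by
    have := abs_sub (ζ i) c
    linarith [hm' i]
  have hdL : ∀ i, |d i| ≤ δ * (m * L) := fun i => by
    refine (hd i).trans (mul_le_mul_of_nonneg_left ?_ hδ0)
    rw [hzx i, abs_mul, abs_of_pos (hx0 i)]
    exact mul_le_mul (hm' i) (S.up i) (hx0 i).le hm0
  set D := 2 * L * c ^ 2 + 12 * k * δ * L * m ^ 2 with hD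
  have hD0 : 0 ≤ D := by positivity
  -- the right hand side
  have t1 : -2 * ∑ i, (ζ i - c) * d i ≤ 4 * k * δ * L * m ^ 2 := by
    rw [Finset.mul_sum]
    refine (uniq_sq _ (4 * δ * L * m ^ 2) fun i => ?_).trans (le_of_eq (by ring))
    have h1 : -2 * ((ζ i - c) * d i) ≤ 2 * (|ζ i - c| * |d i|) := by
      rw [← abs_mul]
      nlinarith [neg_abs_le ((ζ i - c) * d i)]
    refine h1.trans ?_
    have h2 : |ζ i - c| * |d i| ≤ (2 * m) * (δ * (m * L)) :=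
      mul_le_mul (hη i) (hdL i) (abs_nonneg _) (by positivity)
    nlinarith
  have t2 : 2 * c * ∑ i, (ζ i - c) * h i ≤ 4 * k * δ * L * m ^ 2 := by
    rw [Finset.mul_sum]
    refine (uniq_sq _ (4 * δ * L * m ^ 2) fun i => ?_).trans (le_of_eq (by ring))
    have h1 : 2 * c * ((ζ i - c) * h i) ≤ 2 * (|c| * (|ζ i - c| * h i)) := by
      have h2 : c * ((ζ i - c) * h i) ≤ |c * ((ζ i - c) * h i)| := le_abs_self _
      rw [abs_mul, abs_mul, abs_of_nonneg (S.h0 i)] at h2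
      linarith
    refine h1.trans ?_
    have h3 : |ζ i - c| * h i ≤ (2 * m) * δ :=
      mul_le_mul (hη i) (S.h1 i) (S.h0 i) (by positivity)
    have h4 : |c| * (|ζ i - c| * h i) ≤ m * ((2 * m) * δ) :=
      mul_le_mul hcm h3 (mul_nonneg (abs_nonneg _) (S.h0 i)) hm0
    have h5 : 0 ≤ m ^ 2 * δ * (L - 1) := mul_nonneg (by positivity) (by linarith [P.L1])
    nlinarith
  have t3 : ∑ i, h i * (ζ i - c) ^ 2 ≤ 4 * k * δ * L * m ^ 2 := by
    refine (uniq_sq _ (4 * δ * L * m ^ 2) fun i => ?_).trans (le_of_eq (by ring))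
    have h1 : (ζ i - c) ^ 2 ≤ (2 * m) ^ 2 := by
      rw [← sq_abs]
      exact pow_le_pow_left₀ (abs_nonneg _) (hη i) 2
    have h2 : h i * (ζ i - c) ^ 2 ≤ δ * (2 * m) ^ 2 :=
      mul_le_mul (S.h1 i) h1 (sq_nonneg _) hδ0
    have h5 : 0 ≤ m ^ 2 * δ * (L - 1) := mul_nonneg (by positivity) (by linarith [P.L1])
    nlinarith
  have t4 : -(2 * L * c ^ 2) ≤ ∑ i, ρ i * (ζ i ^ 2 - c ^ 2) := by
    have h1 : ∑ i, ρ i * (ζ i ^ 2 - c ^ 2) ≥ ∑ i, ρ i * (- c ^ 2) :=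
      Finset.sum_le_sum fun i _ => mul_le_mul_of_nonneg_left
        (by nlinarith [sq_nonneg (ζ i)]) (P.ρ0 i)
    rw [← Finset.sum_mul] at h1
    nlinarith [P.ρL, sq_nonneg c]
  -- nonnegativity
  have n1 : ∀ i j, 0 ≤ (e i j : ℝ) * x j * (ζ j - ζ i) ^ 2 := fun i j =>
    mul_nonneg (mul_nonneg (Nat.cast_nonneg _) (hx0 j).le) (sq_nonneg _)
  have n2 : ∀ i, 0 ≤ ((a i : ℝ) - 2) * x i * (ζ i - c) ^ 2 := by
    intro i
    rcases Nat.lt_or_ge (a i) 2 with h1 | h1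
    · have h2 : a i = 1 := by have := P.a1 i; omega
      have h3 : ζ i = c := by
        have h4 := hc i h2
        rw [hzx i] at h4
        exact mul_right_cancel₀ (hx0 i).ne' h4
      rw [h3]
      simp
    · have h2 : (2 : ℝ) ≤ a i := by exact_mod_cast h1
      exact mul_nonneg (mul_nonneg (by linarith) (hx0 i).le) (sq_nonneg _)
  have hsum : ∑ i, ∑ j, (e i j : ℝ) * x j * (ζ j - ζ i) ^ 2 +
      ∑ i, ((a i : ℝ) - 2) * x i * (ζ i - c) ^ 2 ≤ D := by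
    rw [hD]
    nlinarith
  have s1 : 0 ≤ ∑ i, ∑ j, (e i j : ℝ) * x j * (ζ j - ζ i) ^ 2 :=
    Finset.sum_nonneg fun i _ => Finset.sum_nonneg fun j _ => n1 i j
  have s2 : 0 ≤ ∑ i, ((a i : ℝ) - 2) * x i * (ζ i - c) ^ 2 := Finset.sum_nonneg fun i _ => n2 i
  have e1 : ∀ i j, e i j ≠ 0 → |ζ j - ζ i| ≤ √D := by
    intro i j hij
    apply Real.abs_le_sqrt
    have h1 : (e i j : ℝ) * x j * (ζ j - ζ i) ^ 2 ≤ D := by
      have h2 : (e i j : ℝ) * x j * (ζ j - ζ i) ^ 2 ≤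
          ∑ j, (e i j : ℝ) * x j * (ζ j - ζ i) ^ 2 :=
        Finset.single_le_sum (f := fun j => (e i j : ℝ) * x j * (ζ j - ζ i) ^ 2)
          (fun j _ => n1 i j) (Finset.mem_univ j)
      have h3 : ∑ j, (e i j : ℝ) * x j * (ζ j - ζ i) ^ 2 ≤
          ∑ i, ∑ j, (e i j : ℝ) * x j * (ζ j - ζ i) ^ 2 :=
        Finset.single_le_sum (f := fun i => ∑ j, (e i j : ℝ) * x j * (ζ j - ζ i) ^ 2)
          (fun i _ => Finset.sum_nonneg fun j _ => n1 i j) (Finset.mem_univ i)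
      linarith
    refine le_trans ?_ h1
    have h2 : (1 : ℝ) ≤ e i j := by exact_mod_cast Nat.one_le_iff_ne_zero.2 hij
    have h3 : 1 ≤ (e i j : ℝ) * x j := by nlinarith [S.one j]
    nlinarith [sq_nonneg (ζ j - ζ i)]
  have e2 : ∀ i, a i ≠ 2 → |ζ i - c| ≤ √D := by
    intro i hi
    rcases Nat.lt_or_ge (a i) 2 with h1 | h1
    · have h2 : a i = 1 := by have := P.a1 i; omega
      have h3 : ζ i = c := by
        have h4 := hc i h2
        rw [hzx i] at h4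
        exact mul_right_cancel₀ (hx0 i).ne' h4
      rw [h3, sub_self, abs_zero]
      exact Real.sqrt_nonneg _
    · apply Real.abs_le_sqrt
      have h2 : ((a i : ℝ) - 2) * x i * (ζ i - c) ^ 2 ≤ D := by
        have h3 : ((a i : ℝ) - 2) * x i * (ζ i - c) ^ 2 ≤
            ∑ i, ((a i : ℝ) - 2) * x i * (ζ i - c) ^ 2 :=
          Finset.single_le_sum (f := fun i => ((a i : ℝ) - 2) * x i * (ζ i - c) ^ 2)
            (fun i _ => n2 i) (Finset.mem_univ i)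
        linarith
      refine le_trans ?_ h2
      have h3 : (3 : ℝ) ≤ a i := by
        have : 3 ≤ a i := by omega
        exact_mod_cast this
      have h4 : 1 ≤ ((a i : ℝ) - 2) * x i := by nlinarith [S.one i]
      nlinarith [sq_nonneg (ζ i - c)]
  have hg := gap a e (fun i => |ζ i - c|) (√D) (Real.sqrt_nonneg _) e2 (by
    intro i j hij
    have h1 := e1 i j hij
    have h2 : |ζ j - c| ≤ |ζ i - c| + |ζ j - ζ i| := by
      have h3 : ζ j - c = (ζ i - c) + (ζ j - ζ i) := by ring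
      rw [h3]
      exact abs_add_le _ _
    show |ζ j - c| ≤ |ζ i - c| + √D
    linarith) P.src
  intro i
  have := hg i
  rw [hζ] at this
  exact this

private theorem uniq_half (P : Pat a e ρ L) (S : Sys a e ρ δ L x h) {x' h' : Fin k → ℝ}
    (S' : Sys a e ρ δ L x' h') (hδ0 : 0 ≤ δ) (hδ : 100 * L ^ 4 * δ ≤ 1)
    (hd : ∀ i, |h' i - h i| ≤ δ * |x' i - x i|) (hpos : ∀ i, a i = 1 → 0 ≤ x' i - x i) :
    x' = x := by
  classical
  by_contra hne
  have hx0 : ∀ i, 0 < x i := fun i => lt_of_lt_of_le one_pos (S.one i)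
  have hL1 := P.L1
  have hL0 : 0 < L := lt_of_lt_of_le one_pos hL1
  have hk0 : (0 : ℝ) ≤ k := Nat.cast_nonneg k
  obtain ⟨i1, hi1⟩ : ∃ i, x' i ≠ x i := by
    by_contra hc
    push Not at hc
    exact hne (funext hc)
  have hz : ∀ i, a i * (x' i - x i) + (h' i - h i) = ∑ j, (e i j : ℝ) * (x' j - x j) := by
    intro i
    have h1 := S.eq i
    have h2 := S'.eq i
    have h3 : ∑ j, (e i j : ℝ) * (x' j - x j) =
        ∑ j, (e i j : ℝ) * x' j - ∑ j, (e i j : ℝ) * x j := by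
      rw [← Finset.sum_sub_distrib]
      exact Finset.sum_congr rfl fun j _ => by ring
    rw [h3]
    linarith
  have : Nonempty (Fin k) := ⟨i1⟩
  obtain ⟨i2, hi2⟩ := Finite.exists_max fun i => |(x' i - x i) / x i|
  obtain ⟨m, hm⟩ : ∃ m, m = |(x' i2 - x i2) / x i2| := ⟨_, rfl⟩
  have hmax : ∀ i, |(x' i - x i) / x i| ≤ m := fun i => by rw [hm]; exact hi2 i
  have hm0 : 0 < m := by
    refine lt_of_lt_of_le ?_ (hmax i1)
    rw [abs_pos]
    exact div_ne_zero (sub_ne_zero.2 hi1) (hx0 i1).ne'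
  -- the reference constant
  obtain ⟨c, hc0, hcm, hc, hcc⟩ : ∃ c : ℝ, 0 ≤ c ∧ c ≤ m ∧ (∀ i, a i = 1 → x' i - x i = c * x i) ∧
      (c ≠ 0 → ∃ i0, a i0 = 1) := by
    by_cases hex : ∃ i0, a i0 = 1
    · obtain ⟨i0, hi0⟩ := hex
      refine ⟨(x' i0 - x i0) / x i0, div_nonneg (hpos i0 hi0) (hx0 i0).le,
        (le_abs_self _).trans (hmax i0), fun i hi => ?_, fun _ => ⟨i0, hi0⟩⟩
      rw [P.uni i i0 hi hi0]
      exact (div_mul_cancel₀ _ (hx0 i0).ne').symm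
    · push Not at hex
      exact ⟨0, le_rfl, hm0.le, fun i hi => absurd hi (hex i), fun h => absurd rfl h⟩
  have hb := bound P S hz hδ0 hd hc hmax (by rw [abs_of_nonneg hc0]; exact hcm) i2
  set D := 2 * L * c ^ 2 + 12 * k * δ * L * m ^ 2 with hD
  have hD0 : 0 ≤ D := by positivity
  have h1 : m - c ≤ (k + 1) * √D := by
    refine le_trans ?_ hb
    have h2 : |(x' i2 - x i2) / x i2| ≤ |(x' i2 - x i2) / x i2 - c| + |c| := by
      have h3 := abs_add_le ((x' i2 - x i2) / x i2 - c) c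
      rwa [sub_add_cancel] at h3
    rw [← hm, abs_of_nonneg hc0] at h2
    linarith
  have h2 : (m - c) ^ 2 ≤ (k + 1) ^ 2 * D := by
    have h3 : (m - c) ^ 2 ≤ ((k + 1) * √D) ^ 2 := pow_le_pow_left₀ (by linarith) h1 2
    rwa [mul_pow, Real.sq_sqrt hD0] at h3
  have h3 : ((k : ℝ) + 1) ^ 2 ≤ 4 * L ^ 2 := by nlinarith [P.kL]
  have h4 : ((k : ℝ) + 1) ^ 2 * D ≤ 8 * L ^ 3 * c ^ 2 + 48 / 100 * m ^ 2 := by
    have h5 : ((k : ℝ) + 1) ^ 2 * D ≤ 4 * L ^ 2 * D := mul_le_mul_of_nonneg_right h3 hD0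
    have h6 : 4 * L ^ 2 * D = 8 * L ^ 3 * c ^ 2 + 48 * (L ^ 3 * k * δ) * m ^ 2 := by
      rw [hD]; ring
    have h7 : L ^ 3 * k * δ ≤ L ^ 4 * δ := by
      have h8 : L ^ 3 * k ≤ L ^ 3 * L := mul_le_mul_of_nonneg_left P.kL (by positivity)
      calc L ^ 3 * k * δ ≤ L ^ 3 * L * δ := mul_le_mul_of_nonneg_right h8 hδ0
        _ = L ^ 4 * δ := by ring
    have h9 : L ^ 4 * δ ≤ 1 / 100 := by linarith
    nlinarith [sq_nonneg m]
  have h5 : 3 / 4 * m ^ 2 - 3 * c ^ 2 ≤ (m - c) ^ 2 := by nlinarith [sq_nonneg (m / 2 - 2 * c)]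
  have hL34 : L ^ 3 ≤ L ^ 4 := by nlinarith [pow_pos hL0 3]
  have hL4 : 1 ≤ L ^ 4 := one_le_pow₀ hL1
  have h6 : m ^ 2 ≤ (7 * L ^ 2 * c) ^ 2 := by
    have h7 : 27 / 100 * m ^ 2 ≤ (8 * L ^ 3 + 3) * c ^ 2 := by nlinarith
    have h8 : (8 * L ^ 3 + 3) * c ^ 2 ≤ 11 * L ^ 4 * c ^ 2 :=
      mul_le_mul_of_nonneg_right (by nlinarith) (sq_nonneg c)
    have h9 : (7 * L ^ 2 * c) ^ 2 = 49 * L ^ 4 * c ^ 2 := by ring
    have h10 : 0 ≤ L ^ 4 * c ^ 2 := by positivity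
    rw [h9]
    nlinarith
  have h7 : m ≤ 7 * L ^ 2 * c := by
    exact le_of_sq_le_sq h6 (by positivity)
  have hcpos : 0 < c := by
    rcases hc0.lt_or_eq with h8 | h8
    · exact h8
    · rw [← h8, mul_zero] at h7
      linarith
  obtain ⟨i0, hi0⟩ := hcc hcpos.ne'
  -- the linear inequality
  set ζ : Fin k → ℝ := fun i => (x' i - x i) / x i with hζ
  have hzx : ∀ i, x' i - x i = ζ i * x i := fun i => (div_mul_cancel₀ _ (hx0 i).ne').symm
  have hζ0 : ζ i0 = c := by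
    have h8 := hc i0 hi0
    rw [hzx i0] at h8
    exact mul_right_cancel₀ (hx0 i0).ne' h8
  have hw : ∀ i, ∑ j, (e i j : ℝ) * x j * (ζ j - c) =
      a i * x i * (ζ i - c) + (h' i - h i) + (ρ i - h i) * c := by
    intro i
    have h8 := hz i
    have h9 := S.eq i
    have h10 : ∑ j, (e i j : ℝ) * x j * (ζ j - c) =
        ∑ j, (e i j : ℝ) * (x' j - x j) - c * ∑ j, (e i j : ℝ) * x j := by
      rw [Finset.mul_sum, ← Finset.sum_sub_distrib]
      exact Finset.sum_congr rfl fun j _ => by rw [hzx j]; ring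
    have h11 : ∑ j, (e i j : ℝ) * x j = a i * x i + h i - ρ i := by linarith
    rw [h10, ← h8, h11, hzx i]
    ring
  set η : Fin k → ℝ := fun i => max (ζ i - c) 0 with hη
  have hη0 : ∀ i, 0 ≤ η i := fun i => le_max_right _ _
  have hηle : ∀ i, ζ i - c ≤ η i := fun i => le_max_left _ _
  have hT : ∀ i, (if i = i0 then ρ i0 * c else 0) ≤ ∑ j, (e i j : ℝ) * x j * η j - 2 * x i * η i +
      (|h' i - h i| + h i * c) := by
    intro i
    have h8 : ∑ j, (e i j : ℝ) * x j * (ζ j - c) ≤ ∑ j, (e i j : ℝ) * x j * η j :=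
      Finset.sum_le_sum fun j _ => mul_le_mul_of_nonneg_left (hηle j)
        (mul_nonneg (Nat.cast_nonneg _) (hx0 j).le)
    have h9 : 0 ≤ ∑ j, (e i j : ℝ) * x j * η j := Finset.sum_nonneg fun j _ =>
      mul_nonneg (mul_nonneg (Nat.cast_nonneg _) (hx0 j).le) (hη0 j)
    have h10 : -|h' i - h i| ≤ h' i - h i := neg_abs_le _
    have h11 : 0 ≤ h i * c := mul_nonneg (S.h0 i) hc0
    have h12 : 0 ≤ |h' i - h i| := abs_nonneg _
    rw [hw i] at h8
    by_cases hii : i = i0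
    · subst hii
      rw [if_pos rfl]
      have h13 : η i = 0 := by
        rw [hη]
        simp [hζ0]
      rw [h13]
      rw [hζ0] at h8
      nlinarith
    · rw [if_neg hii]
      have h14 : (2 : ℝ) ≤ a i := by
        have h15 : a i ≠ 1 := fun h => hii (P.uni i i0 h hi0)
        have h16 := P.a1 i
        have h17 : 2 ≤ a i := by omega
        exact_mod_cast h17
      rcases le_total (ζ i - c) 0 with h15 | h15
      · have h16 : η i = 0 := max_eq_right h15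
        rw [h16]
        nlinarith
      · have h16 : η i = ζ i - c := max_eq_left h15
        rw [h16]
        have h17 : 0 ≤ ρ i * c := mul_nonneg (P.ρ0 i) hc0
        have h18 : 2 * x i * (ζ i - c) ≤ a i * x i * (ζ i - c) :=
          mul_le_mul_of_nonneg_right (mul_le_mul_of_nonneg_right h14 (hx0 i).le) h15
        nlinarith
  have hsum := Finset.sum_le_sum fun i (_ : i ∈ (Finset.univ : Finset (Fin k))) => hT i
  rw [Finset.sum_ite_eq' Finset.univ i0, if_pos (Finset.mem_univ _), Finset.sum_add_distrib,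
    Finset.sum_sub_distrib] at hsum
  have h8 : ∑ i, ∑ j, (e i j : ℝ) * x j * η j = ∑ j, 2 * x j * η j := by
    rw [Finset.sum_comm]
    refine Finset.sum_congr rfl fun j _ => ?_
    rw [← Finset.sum_mul, ← Finset.sum_mul]
    have h9 : ∑ i, (e i j : ℝ) = 2 := by exact_mod_cast P.col j
    rw [h9]
  rw [h8, sub_self, zero_add] at hsum
  have h9 : ∑ i, (|h' i - h i| + h i * c) ≤ k * (δ * (m * L) + δ * c) := by
    refine uniq_sq _ _ fun i => add_le_add ?_ (mul_le_mul_of_nonneg_right (S.h1 i) hc0)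
    refine (hd i).trans (mul_le_mul_of_nonneg_left ?_ hδ0)
    rw [hzx i, abs_mul, abs_of_pos (hx0 i)]
    exact mul_le_mul (hmax i) (S.up i) (hx0 i).le hm0.le
  have h10 : Real.log 2 * c ≤ ρ i0 * c := mul_le_mul_of_nonneg_right (P.one i0 hi0) hc0
  have h11 : (k : ℝ) * (δ * (m * L) + δ * c) ≤ L * (δ * (7 * L ^ 2 * c * L) + δ * c) := by
    have h12 : δ * (m * L) + δ * c ≤ δ * (7 * L ^ 2 * c * L) + δ * c := by
      have := mul_le_mul_of_nonneg_left (mul_le_mul_of_nonneg_right h7 hL0.le) hδ0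
      linarith
    exact mul_le_mul P.kL h12 (by positivity) hL0.le
  have h12 : L * (δ * (7 * L ^ 2 * c * L) + δ * c) ≤ 8 / 100 * c := by
    have h13 : L * (δ * (7 * L ^ 2 * c * L) + δ * c) = (7 * (L ^ 4 * δ) + L * δ) * c := by ring
    have h14 : L * δ ≤ L ^ 4 * δ := by
      refine mul_le_mul_of_nonneg_right ?_ hδ0
      calc L = L ^ 1 := (pow_one L).symm
        _ ≤ L ^ 4 := pow_le_pow_right₀ hL1 (by norm_num)
    rw [h13]
    refine mul_le_mul_of_nonneg_right ?_ hc0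
    linarith
  have h13 : Real.log 2 * c ≤ 8 / 100 * c := by linarith
  have h14 := le_of_mul_le_mul_right h13 hcpos
  have h15 := Real.log_two_gt_d9
  linarith

/-- the solution of the logarithmic system is unique -/
theorem uniq_real (P : Pat a e ρ L) (S : Sys a e ρ δ L x h) {x' h' : Fin k → ℝ}
    (S' : Sys a e ρ δ L x' h') (hδ0 : 0 ≤ δ) (hδ : 100 * L ^ 4 * δ ≤ 1)
    (hd : ∀ i, |h' i - h i| ≤ δ * |x' i - x i|) : x' = x := by
  by_cases hpos : ∀ i, a i = 1 → 0 ≤ x' i - x i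
  · exact uniq_half P S S' hδ0 hδ hd hpos
  · push Not at hpos
    obtain ⟨i0, hi0, hlt⟩ := hpos
    refine (uniq_half P S' S hδ0 hδ (fun i => ?_) fun i hi => ?_).symm
    · rw [abs_sub_comm, abs_sub_comm (x i)]
      exact hd i
    · rw [P.uni i i0 hi hi0]
      linarith

end

end DK
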