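import Pool.Agent.DK.Run
import Pool.Agent.DK.UniqR

/-!
# A solution is determined by its closed part and a finite pattern
-/

namespace DK
open Finset

private theorem F_bounds {u v : ℝ} (hu : 0 ≤ u) (huv : u ≤ v) (hv : v ≤ 1 / 2) (a : ℕ) :
    1 ≤ ∑ i ∈ range (a + 1), u ^ i ∧ ∑ i ∈ range (a + 1), u ^ i ≤ 2 ∧
    ∑ i ∈ range (a + 1), u ^ i ≤ 1 + 2 * u ∧
    0 ≤ ∑ i ∈ range (a + 1), v ^ i - ∑ i ∈ range (a + 1), u ^ i ∧
    ∑ i ∈ range (a + 1), v ^ i - ∑ i ∈ range (a + 1), u ^ i ≤ 4 * (v - u) := by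
  induction a with
  | zero =>
    simp only [zero_add, Finset.sum_range_one, pow_zero]
    refine ⟨le_rfl, by norm_num, by linarith, by norm_num, by linarith⟩
  | succ a ih =>
    have h1 : ∀ w : ℝ, ∑ i ∈ range (a + 1 + 1), w ^ i = w * ∑ i ∈ range (a + 1), w ^ i + 1 := by
      intro w
      rw [Finset.sum_range_succ', pow_zero, Finset.mul_sum]
      congr 1
      exact Finset.sum_congr rfl fun i _ => by rw [pow_succ, mul_comm]
    rw [h1, h1]
    set U := ∑ i ∈ range (a + 1), u ^ i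
    set V := ∑ i ∈ range (a + 1), v ^ i
    obtain ⟨i1, i2, i3, i4, i5⟩ := ih
    have hv0 : 0 ≤ v := hu.trans huv
    refine ⟨by nlinarith, by nlinarith, by nlinarith, ?_, ?_⟩
    · have : v * V + 1 - (u * U + 1) = v * (V - U) + (v - u) * U := by ring
      rw [this]
      have h2 : 0 ≤ v * (V - U) := mul_nonneg hv0 i4
      have h3 : 0 ≤ (v - u) * U := mul_nonneg (by linarith) (by linarith)
      linarith
    · have : v * V + 1 - (u * U + 1) = v * (V - U) + (v - u) * U := by ring
      rw [this]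
      have h2 : v * (V - U) ≤ 1 / 2 * (4 * (v - u)) := mul_le_mul hv i5 i4 (by norm_num)
      have h3 : (v - u) * U ≤ (v - u) * 2 := mul_le_mul_of_nonneg_left i2 (by linarith)
      linarith

/-- `h = log (σ(t^a) / t^a)` -/
noncomputable def hh (n p : ℕ) : ℝ := Real.log (loc n p) - n.factorization p * Real.log p

theorem hh_eq {n p : ℕ} (hp : p.Prime) :
    hh n p = Real.log (∑ i ∈ range (n.factorization p + 1), (1 / (p : ℝ)) ^ i) := by
  have hp0 : (0 : ℝ) < p := by exact_mod_cast hp.pos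
  have h1 : (loc n p : ℝ) = (p : ℝ) ^ n.factorization p *
      ∑ i ∈ range (n.factorization p + 1), (1 / (p : ℝ)) ^ i := by
    rw [loc_eq hp, Nat.cast_sum, Finset.mul_sum, ← Finset.sum_range_reflect]
    refine Finset.sum_congr rfl fun i hi => ?_
    rw [Finset.mem_range] at hi
    have h2 : n.factorization p + 1 - 1 - i = n.factorization p - i := by omega
    rw [h2, Nat.cast_pow, one_div, inv_pow, ← div_eq_mul_inv, eq_div_iff (by positivity),
      ← pow_add]
    congr 1
    omega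
  have h2 : (0 : ℝ) < ∑ i ∈ range (n.factorization p + 1), (1 / (p : ℝ)) ^ i :=
    Finset.sum_pos (fun i _ => by positivity) ⟨0, by simp⟩
  rw [hh, h1, Real.log_mul (by positivity) h2.ne', Real.log_pow]
  ring

theorem hh_nonneg {n p : ℕ} (hp : p ∈ n.primeFactors) : 0 ≤ hh n p := by
  have hpp := Nat.prime_of_mem_primeFactors hp
  have hp0 : (0 : ℝ) < p := by exact_mod_cast hpp.pos
  rw [hh, ← Real.log_pow, sub_nonneg]
  refine Real.log_le_log (by positivity) ?_
  exact_mod_cast (pow_lt_loc hp).le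

theorem hh_le {n p : ℕ} (hp : p.Prime) {Q : ℝ} (hQ : 2 ≤ Q) (hQp : Q ≤ p) : hh n p ≤ 4 / Q := by
  have hp0 : (0 : ℝ) < p := by exact_mod_cast hp.pos
  have hQ0 : 0 < Q := by linarith
  have h1 : (1 : ℝ) / p ≤ 1 / Q := one_div_le_one_div_of_le hQ0 hQp
  have h2 : (1 : ℝ) / Q ≤ 1 / 2 := one_div_le_one_div_of_le (by norm_num) hQ
  obtain ⟨i1, i2, i3, i4, i5⟩ := F_bounds (u := 1 / (p : ℝ)) (v := 1 / (p : ℝ)) (by positivity)
    le_rfl (h1.trans h2) (n.factorization p)
  rw [hh_eq hp]
  refine (Real.log_le_sub_one_of_pos (by linarith)).trans ?_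
  have h3 : 4 / Q = 4 * (1 / Q) := by ring
  rw [h3]
  linarith [show (0 : ℝ) < 1 / Q by positivity]

theorem hh_sub_half {n n' p p' : ℕ} (hp : p.Prime) (hp' : p'.Prime) {Q : ℝ} (hQ : 2 ≤ Q)
    (hQp : Q ≤ p) (hpp : p ≤ p') (ha : n.factorization p = n'.factorization p') :
    |hh n' p' - hh n p| ≤ 4 / Q * |Real.log p' - Real.log p| := by
  have hp0 : (0 : ℝ) < p := by exact_mod_cast hp.pos
  have hp0' : (0 : ℝ) < p' := by exact_mod_cast hp'.pos
  have hpp' : (p : ℝ) ≤ p' := by exact_mod_cast hpp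
  have hQ0 : 0 < Q := by linarith
  have h1 : (1 : ℝ) / p ≤ 1 / Q := one_div_le_one_div_of_le hQ0 hQp
  have h2 : (1 : ℝ) / Q ≤ 1 / 2 := one_div_le_one_div_of_le (by norm_num) hQ
  have h3 : (1 : ℝ) / p' ≤ 1 / p := one_div_le_one_div_of_le hp0 hpp'
  obtain ⟨i1, i2, i3, i4, i5⟩ := F_bounds (u := 1 / (p' : ℝ)) (v := 1 / (p : ℝ)) (by positivity)
    h3 (h1.trans h2) (n.factorization p)
  rw [hh_eq hp, hh_eq hp', ← ha]
  set U := ∑ i ∈ range (n.factorization p + 1), (1 / (p' : ℝ)) ^ i
  set V := ∑ i ∈ range (n.factorization p + 1), (1 / (p : ℝ)) ^ i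
  have hU : 0 < U := by linarith
  have hV : 0 < V := by linarith
  have h4 : Real.log U ≤ Real.log V := Real.log_le_log hU (by linarith)
  have h5 : Real.log (p : ℝ) ≤ Real.log p' := Real.log_le_log hp0 hpp'
  rw [abs_of_nonpos (by linarith), abs_of_nonneg (by linarith)]
  have h6 : Real.log V - Real.log U ≤ V - U := by
    rw [← Real.log_div hV.ne' hU.ne']
    refine (Real.log_le_sub_one_of_pos (by positivity)).trans ?_
    rw [div_sub_one hU.ne', div_le_iff₀ hU]
    nlinarith
  have h7 : (1 : ℝ) / p - 1 / p' ≤ 1 / Q * (Real.log p' - Real.log p) := by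
    have h8 : (1 : ℝ) / p - 1 / p' = 1 / p * (1 - p / p') := by
      field_simp
    have h9 : 1 - (p : ℝ) / p' ≤ Real.log p' - Real.log p := by
      have := Real.log_le_sub_one_of_pos (show (0 : ℝ) < p / p' by positivity)
      rw [Real.log_div hp0.ne' hp0'.ne'] at this
      linarith
    rw [h8]
    refine mul_le_mul h1 h9 ?_ (by positivity)
    rw [sub_nonneg, div_le_one hp0']
    exact hpp'
  have h8 : 4 / Q * (Real.log p' - Real.log p) = 4 * (1 / Q * (Real.log p' - Real.log p)) := by ring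
  rw [h8]
  linarith

theorem hh_sub {n n' p p' : ℕ} (hp : p.Prime) (hp' : p'.Prime) {Q : ℝ} (hQ : 2 ≤ Q)
    (hQp : Q ≤ p) (hQp' : Q ≤ p') (ha : n.factorization p = n'.factorization p') :
    |hh n' p' - hh n p| ≤ 4 / Q * |Real.log p' - Real.log p| := by
  rcases le_total p p' with h | h
  · exact hh_sub_half hp hp' hQ hQp h ha
  · rw [abs_sub_comm, abs_sub_comm (Real.log _)]
    exact hh_sub_half hp' hp hQ hQp' h ha.symm

/-- `t` enumerates the primes of `n` outside `S` -/
structure Enum (n : ℕ) (S : Finset ℕ) {k : ℕ} (t : Fin k → ℕ) : Prop where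
  inj : Function.Injective t
  mem : ∀ p, p ∈ n.primeFactors \ S ↔ ∃ i, t i = p

/-- the part of the local factor composed of the primes in `S` -/
def rr (n : ℕ) (S : Finset ℕ) (p : ℕ) : ℕ := ∏ l ∈ S, l ^ e n p l

section
variable {n : ℕ} {S : Finset ℕ} {k : ℕ} {t : Fin k → ℕ}

theorem Enum.sum {M : Type*} [AddCommMonoid M] (E : Enum n S t) (f : ℕ → M) :
    ∑ p ∈ n.primeFactors \ S, f p = ∑ i, f (t i) := by
  rw [← Finset.sum_image (s := Finset.univ) (f := f) (g := t) fun i _ j _ h => E.inj h]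
  refine Finset.sum_congr ?_ fun _ _ => rfl
  ext p
  rw [E.mem, Finset.mem_image]
  simp

theorem Enum.prod {M : Type*} [CommMonoid M] (E : Enum n S t) (f : ℕ → M) :
    ∏ p ∈ n.primeFactors \ S, f p = ∏ i, f (t i) := by
  rw [← Finset.prod_image (s := Finset.univ) (f := f) (g := t) fun i _ j _ h => E.inj h]
  refine Finset.prod_congr ?_ fun _ _ => rfl
  ext p
  rw [E.mem, Finset.mem_image]
  simp

theorem Enum.mem' (E : Enum n S t) (i : Fin k) : t i ∈ n.primeFactors \ S := (E.mem _).2 ⟨i, rfl⟩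

theorem Enum.memP (E : Enum n S t) (i : Fin k) : t i ∈ n.primeFactors :=
  (Finset.mem_sdiff.1 (E.mem' i)).1

theorem Enum.prime (E : Enum n S t) (i : Fin k) : (t i).Prime :=
  Nat.prime_of_mem_primeFactors (E.memP i)

theorem rr_pos (hS : S ⊆ n.primeFactors) (p : ℕ) : 0 < rr n S p :=
  Finset.prod_pos fun _ hl => pow_pos (Nat.prime_of_mem_primeFactors (hS hl)).pos _

/-- the columns have sum two -/
theorem Enum.col (h : Sol n) (hS : Closed n S) (E : Enum n S t) (j : Fin k) :
    ∑ i, e n (t i) (t j) = 2 := by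
  classical
  rw [← E.sum fun p => e n p (t j)]
  have h1 := DK.col h (E.prime j)
  rw [if_pos (E.memP j), ← Finset.sum_sdiff hS.1] at h1
  have h2 : ∑ p ∈ S, e n p (t j) = 0 := by
    refine Finset.sum_eq_zero fun p hp => ?_
    by_contra hc
    exact (Finset.mem_sdiff.1 (E.mem' j)).2 (closed_e hS hp hc)
  omega

/-- the logarithmic system -/
theorem Enum.eq (h : Sol n) (hS : Closed n S) (E : Enum n S t) (i : Fin k) :
    n.factorization (t i) * Real.log (t i) + hh n (t i) =
      Real.log (rr n S (t i)) + ∑ j, (e n (t i) (t j) : ℝ) * Real.log (t j) := by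
  classical
  rw [hh, ← E.sum fun p => (e n (t i) p : ℝ) * Real.log p]
  have h1 : Real.log (rr n S (t i)) = ∑ l ∈ S, (e n (t i) l : ℝ) * Real.log l := by
    rw [rr, Nat.cast_prod, Real.log_prod]
    · refine Finset.sum_congr rfl fun l _ => ?_
      rw [Nat.cast_pow, Real.log_pow]
    · intro l hl
      have := (Nat.prime_of_mem_primeFactors (hS.1 hl)).ne_zero
      positivity
  rw [h1, log_loc h (E.memP i), ← Finset.sum_sdiff hS.1]
  ring

/-- the product of the `r_i` -/
theorem Enum.prod_rr (h : Sol n) (hS : Closed n S) (E : Enum n S t) :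
    (∏ i, rr n S (t i)) * ∏ p ∈ S, loc n p = ∏ l ∈ S, l ^ 2 := by
  classical
  rw [← E.prod fun p => rr n S p, prod_loc_closed h hS]
  have h1 : ∏ p ∈ n.primeFactors \ S, rr n S p =
      ∏ l ∈ S, l ^ (∑ p ∈ n.primeFactors \ S, e n p l) := by
    simp only [rr]
    rw [Finset.prod_comm]
    exact Finset.prod_congr rfl fun l _ => Finset.prod_pow_eq_pow_sum _ _ _
  rw [h1, ← Finset.prod_mul_distrib]
  refine Finset.prod_congr rfl fun l hl => ?_
  rw [← pow_add, Finset.sum_sdiff hS.1]
  have h2 := DK.col h (Nat.prime_of_mem_primeFactors (hS.1 hl))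
  rw [if_pos (hS.1 hl)] at h2
  rw [h2]

theorem Enum.sum_log (h : Sol n) (hS : Closed n S) (E : Enum n S t) :
    ∑ i, Real.log (rr n S (t i)) ≤ 2 * Real.log n := by
  have hn : n ≠ 0 := by have := h.1; omega
  have h1 := E.prod_rr h hS
  have h2 : ∏ i, rr n S (t i) ≤ ∏ l ∈ S, l ^ 2 := by
    rw [← h1]
    refine Nat.le_mul_of_pos_right _ (Finset.prod_pos fun p hp => loc_pos ?_ n)
    exact Nat.prime_of_mem_primeFactors (hS.1 hp)
  rw [← Real.log_prod fun i _ => by exact_mod_cast (rr_pos hS.1 _).ne', ← Nat.cast_prod]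
  have h0 : (0 : ℝ) < ((∏ i, rr n S (t i) : ℕ) : ℝ) := by
    exact_mod_cast Finset.prod_pos fun i _ => rr_pos hS.1 _
  refine (Real.log_le_log h0 (Nat.cast_le.2 h2)).trans ?_
  rw [Nat.cast_prod, Real.log_prod fun l hl => by
    have := (Nat.prime_of_mem_primeFactors (hS.1 hl)).ne_zero
    positivity]
  have h3 := sum_log_le' hn hS.1
  have h4 : ∑ l ∈ S, Real.log ((l ^ 2 : ℕ) : ℝ) = 2 * ∑ l ∈ S, Real.log l := by
    rw [Finset.mul_sum]
    refine Finset.sum_congr rfl fun l _ => ?_
    rw [Nat.cast_pow, Real.log_pow]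
    norm_num
  linarith

theorem Enum.card_le (h : Sol n) (E : Enum n S t) {c : ℝ}
    (hc : ∀ i, c ≤ Real.log (t i)) : (k : ℝ) * c ≤ Real.log n := by
  have hn : n ≠ 0 := by have := h.1; omega
  have h1 := sum_log_le' hn (Finset.sdiff_subset (s := n.primeFactors) (t := S))
  rw [E.sum fun p => Real.log (p : ℝ)] at h1
  refine le_trans ?_ h1
  have h2 : ∑ i : Fin k, c ≤ ∑ i, Real.log (t i : ℝ) := Finset.sum_le_sum fun i _ => hc i
  rwa [Finset.sum_const, Finset.card_univ, Fintype.card_fin, nsmul_eq_mul] at h2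

theorem Enum.sys (h : Sol n) (hS : Closed n S) (E : Enum n S t) {L Q : ℝ} (hL : Real.log n ≤ L)
    (hQ : 10 ≤ Q) (hQt : ∀ i, Q ≤ t i) :
    Sys (fun i => n.factorization (t i)) (fun i j => e n (t i) (t j))
      (fun i => Real.log (rr n S (t i))) (4 / Q) L (fun i => Real.log (t i))
      (fun i => hh n (t i)) where
  one := fun i => by
    have h1 : Real.exp 1 ≤ t i := by
      have := Real.exp_one_lt_d9
      linarith [hQt i]
    have h2 := Real.log_le_log (Real.exp_pos 1) h1
    rwa [Real.log_exp] at h2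
  up := fun i => by
    refine le_trans ?_ hL
    have hti := Nat.mem_primeFactors.1 (E.memP i)
    refine Real.log_le_log (by exact_mod_cast hti.1.pos) ?_
    exact_mod_cast Nat.le_of_dvd (Nat.pos_of_ne_zero hti.2.2) hti.2.1
  eq := fun i => E.eq h hS i
  h0 := fun i => hh_nonneg (E.memP i)
  h1 := fun i => hh_le (E.prime i) (by linarith) (hQt i)

theorem Enum.pat (h : Sol n) (hS : Closed n S) (h2 : 2 ∈ S) (E : Enum n S t) {L Q : ℝ}
    (hL : Real.log n ≤ L) (hL1 : 1 ≤ L) (hQ : 10 ≤ Q) (hQt : ∀ i, Q < t i)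
    (hQL : L ≤ Q * Real.log Q) :
    Pat (fun i => n.factorization (t i)) (fun i j => e n (t i) (t j))
      (fun i => Real.log (rr n S (t i))) L where
  kL := by
    have h1 := E.card_le h (c := 1) (E.sys h hS hL hQ fun i => (hQt i).le).one
    linarith
  L1 := hL1
  col := fun j => E.col h hS j
  ρ0 := fun i => Real.log_natCast_nonneg _
  ρL := by
    have := E.sum_log h hS
    linarith
  a1 := fun i => fac_pos (E.memP i)
  one := fun i hi => by
    have h3 := odd_two h2 (E.mem' i) (by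
      show Odd (n.factorization (t i))
      rw [hi]
      exact odd_one)
    refine Real.log_le_log (by norm_num) ?_
    have h4 : 2 ∣ rr n S (t i) := (dvd_pow_self 2 h3).trans (Finset.dvd_prod_of_mem _ h2)
    exact_mod_cast Nat.le_of_dvd (rr_pos hS.1 _) h4
  uni := fun i j hi hj => E.inj (odd_unique h hS h2 (E.mem' i) (E.mem' j)
    (by rw [show n.factorization (t i) = 1 from hi]; exact odd_one)
    (by rw [show n.factorization (t j) = 1 from hj]; exact odd_one))
  src := by
    classical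
    intro Z hZ hin
    by_contra hc
    push Not at hc
    refine src h (Z.image t) ?_ (hZ.image t) ?_ ?_ Q ?_ hQ (hL.trans hQL)
    · intro p hp
      rw [Finset.mem_image] at hp
      obtain ⟨i, _, rfl⟩ := hp
      exact E.memP i
    · intro l hl p hp hpe
      rw [Finset.mem_image] at hl ⊢
      obtain ⟨j, hj, rfl⟩ := hl
      have hpS : p ∉ S := fun hpS => (Finset.mem_sdiff.1 (E.mem' j)).2 (closed_e hS hpS hpe)
      obtain ⟨i, rfl⟩ := (E.mem p).1 (Finset.mem_sdiff.2 ⟨hp, hpS⟩)
      exact ⟨i, hin j hj i hpe, rfl⟩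
    · intro p hp
      rw [Finset.mem_image] at hp
      obtain ⟨i, hi, rfl⟩ := hp
      exact hc i hi
    · intro p hp
      rw [Finset.mem_image] at hp
      obtain ⟨i, hi, rfl⟩ := hp
      exact hQt i

theorem Enum.total (h : Sol n) (hS : S ⊆ n.primeFactors) (E : Enum n S t) :
    n = part n S * ∏ i, (t i) ^ n.factorization (t i) := by
  classical
  have hn : n ≠ 0 := by have := h.1; omega
  conv_lhs => rw [← part_all hn]
  rw [← E.prod fun p => p ^ n.factorization p, part, part, mul_comm, Finset.prod_sdiff hS]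

end

/-- a solution is determined by its closed part and the pattern of the other primes -/
theorem uniqP {n n' : ℕ} (h : Sol n) (h' : Sol n') {S S' : Finset ℕ} (hS : Closed n S)
    (hS' : Closed n' S') (h2 : 2 ∈ S) {k : ℕ} {t t' : Fin k → ℕ} (E : Enum n S t)
    (E' : Enum n' S' t') {L Q : ℝ} (hL : Real.log n ≤ L) (hL' : Real.log n' ≤ L) (hL1 : 1 ≤ L)
    (hQ : 10 ≤ Q) (hQL : L ≤ Q * Real.log Q) (hQL4 : 400 * L ^ 4 ≤ Q) (hQt : ∀ i, Q < t i)
    (hQt' : ∀ i, Q < t' i) (hA : part n S = part n' S')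
    (ha : ∀ i, n.factorization (t i) = n'.factorization (t' i))
    (he : ∀ i j, e n (t i) (t j) = e n' (t' i) (t' j))
    (hr : ∀ i, rr n S (t i) = rr n' S' (t' i)) : n = n' := by
  have hQ0 : 0 < Q := by linarith
  have P := E.pat h hS h2 hL hL1 hQ hQt hQL
  have S1 := E.sys h hS hL hQ fun i => (hQt i).le
  have S2 := E'.sys h' hS' hL' hQ fun i => (hQt' i).le
  have S2' : Sys (fun i => n.factorization (t i)) (fun i j => e n (t i) (t j))
      (fun i => Real.log (rr n S (t i))) (4 / Q) L (fun i => Real.log (t' i))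
      (fun i => hh n' (t' i)) := by
    convert S2 using 2
    · exact ha _
    · funext j
      exact he _ _
    · rw [hr]
  have h3 := uniq_real P S1 S2' (by positivity) (by
    rw [show 100 * L ^ 4 * (4 / Q) = (400 * L ^ 4) / Q by ring, div_le_one hQ0]
    exact hQL4) fun i => hh_sub (E.prime i) (E'.prime i) (by linarith) (hQt i).le (hQt' i).le (ha i)
  have h4 : t = t' := by
    funext i
    have h5 := congrFun h3 i
    have h6 : (t' i : ℝ) = t i := by
      refine Real.log_injOn_pos ?_ ?_ h5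
      · exact Set.mem_Ioi.2 (by exact_mod_cast (E'.prime i).pos)
      · exact Set.mem_Ioi.2 (by exact_mod_cast (E.prime i).pos)
    exact_mod_cast h6.symm
  rw [E.total h hS.1, E'.total h' hS'.1, hA]
  congr 1
  refine Finset.prod_congr rfl fun i _ => ?_
  rw [ha i, h4]

end DK
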